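import Pool.Agent.LPT.TDefs

/-!
# A pair is in conflict with at most two centres (module AVs)

`av_side`: coefficients modulo `ad K c`: `x = α₁ a + β₁ b`, `y = α₂ a + β₂ b`, `v = α a + β b`, all `≥ 0`.  As in `SideA` (`br_coef`): `¬ Br a x v` gives
`β α₁ > α β₁`, `¬ Br b y v` gives `α β₂ > β α₂`; so `α, β, α₁, β₂ > 0` and (multiply) `D = α₁ β₂ - α₂ β₁ > 0`; `v = l x + m y` modulo `ad K c` with
`l = (α β₂ - β α₂) / D > 0`, `m = (β α₁ - α β₁) / D > 0`.  So `v = l x + m y + r' c` modulo `K`; the functional which vanishes at `v` and is positive at all other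
elements of `N` gives `0 = l f x + m f y + r' f c`, so `r' < 0`, `r = - r'`.

`av_face`: let `f`, `f'` be the functionals of `br_face` for `c, a, b` and for `c', a', b'`.  Suppose `f c' ≠ 0`.  `g = f + f' ≥ 0` on `N` vanishes at `x` and `y`.  Suppose
`g v = 0`, `v ∈ N`, `v ≠ x`, `v ≠ y`; then `f v = f' v = 0`, `v ≠ c'`, so `Br c' a' b' v`.  `x, y, v` are in the `2`-dimensional space spanned by `a', b'` modulo `ad K c'`, so
there is a nontrivial relation `l x + m y + r v = k c'` modulo `K`.  `f` gives `0 = k f c'`, so `k = 0`; then `l x + m y + r v ∈ K` contradicts `three` (and `two`, `not_mem`).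
So `g` vanishes exactly at `x` and `y`: `Adj N K x y`, contradiction.  So `f c' = 0`, `Br c a b c'`.

`av3`: let `a₁, b₁` and `a₂, b₂` be the branches of `R0` for `c₁`, `c₂`.  `c₂, c₃` are on the branch `a₁ b₁` of `c₁` and `c₃` is on the branch `a₂ b₂` of `c₂` (`av_face`); all
`cᵢ ≠ x, y` (`Br c a b x` contains `x ≠ c`).  `av_side` for (`c₁`; `v = c₂`), (`c₁`; `v = c₃`), (`c₂`; `v = c₃`); the hypotheses `¬ Br` are the last two conditions of `R0`
(`cⱼ ∈ O`, `cⱼ ≠ x, y`).  Let `φ` be a functional, zero on `K`, at `x` and at `y`, `φ c₁ ≠ 0` (`three`: `c₁` is not in the span of `K, x, y`).  Then `φ c₂ = - r φ c₁`,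
`φ c₃ = - r' φ c₁`, `φ c₃ = - r'' φ c₂ = r'' r φ c₁` with `r, r', r'' > 0`: contradiction.
-/

set_option autoImplicit false

namespace Pool.Agent.LPG

variable {W : Type*} [AddCommGroup W] [Module ℝ W] {N : Finset W} {K : Submodule ℝ W}

private theorem avs_coef (h : Poly N K) {s a b x v : W} (hs : s ∈ N) (hx : x ∈ N) (hxs : x ≠ s)
    (hv : v ∈ N) (hvs : v ≠ s) {α β α' β' : ℝ} (hα : 0 ≤ α) (hβ : 0 ≤ β) (hα' : 0 ≤ α')
    (hβ' : 0 ≤ β') (hxm : x - (α • a + β • b) ∈ ad K s) (hvm : v - (α' • a + β' • b) ∈ ad K s)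
    (hle : β' * α ≤ α' * β) : Br N K s a x v := by
  rcases hβ.eq_or_lt with hβ0 | hβ0
  · subst hβ0
    have hα0 : 0 < α := by
      rcases hα.eq_or_lt with hα0 | hα0
      · exfalso
        subst hα0
        simp only [zero_smul, add_zero, sub_zero] at hxm
        exact two h hs hx hxs hxm
      · exact hα0
    have hβ'0 : β' = 0 := by
      rw [mul_zero] at hle
      rcases hβ'.eq_or_lt with h1 | h1
      · exact h1.symm
      · exact absurd (mul_pos h1 hα0) (not_lt.2 hle)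
    subst hβ'0
    refine ⟨hv, hvs, α', 0, hα', le_refl _, ?_⟩
    have h1 : v - (α' • a + (0 : ℝ) • x) = v - (α' • a + (0 : ℝ) • b) := by module
    rw [h1]
    exact hvm
  · refine ⟨hv, hvs, α' - β' * α / β, β' / β, ?_, by positivity, ?_⟩
    · rw [sub_nonneg, div_le_iff₀ hβ0]
      exact hle
    · have h1 : v - ((α' - β' * α / β) • a + (β' / β) • x) =
          (v - (α' • a + β' • b)) - (β' / β) • (x - (α • a + β • b)) := by
        have h2 : β' = (β' / β) * β := by field_simp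
        have h3 : β' * α / β = (β' / β) * α := by ring
        rw [h3]
        have h4 : v - (α' • a + β' • b) = v - (α' • a + ((β' / β) * β) • b) := by rw [← h2]
        rw [h4]
        module
      rw [h1]
      exact Submodule.sub_mem _ hvm (Submodule.smul_mem _ _ hxm)

theorem av_side (h : Poly N K) {c a b x y v : W} (hc : c ∈ N) (hab : VAdj N K c a b)
    (hx : Br N K c a b x) (hy : Br N K c a b y) (hv : Br N K c a b v) (hvx : v ≠ x)
    (hvy : v ≠ y) (h1 : ¬ Br N K c a x v) (h2 : ¬ Br N K c b y v) :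
    ∃ l m r : ℝ, 0 < l ∧ 0 < m ∧ 0 < r ∧ v + r • c - (l • x + m • y) ∈ K := by
  obtain ⟨hx1, hx2, α₁, β₁, hα₁, hβ₁, hxm⟩ := hx
  obtain ⟨hy1, hy2, α₂, β₂, hα₂, hβ₂, hym⟩ := hy
  obtain ⟨hv1, hv2, α, β, hα, hβ, hvm⟩ := hv
  have k1 : α * β₁ < β * α₁ := by
    by_contra hk
    exact h1 (avs_coef h hc hx1 hx2 hv1 hv2 hα₁ hβ₁ hα hβ hxm hvm (not_lt.1 hk))
  have k2 : β * α₂ < α * β₂ := by
    by_contra hk
    refine h2 (avs_coef h hc hy1 hy2 hv1 hv2 (α := β₂) (β := α₂) (α' := β) (β' := α) (b := a)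
      hβ₂ hα₂ hβ hα ?_ ?_ (not_lt.1 hk))
    · rw [add_comm]; exact hym
    · rw [add_comm]; exact hvm
  have n1 : 0 ≤ α * β₁ := mul_nonneg hα hβ₁
  have n2 : 0 ≤ β * α₂ := mul_nonneg hβ hα₂
  have hα0 : 0 < α := by
    rcases hα.eq_or_lt with h3 | h3
    · rw [← h3, zero_mul] at k2
      exact absurd k2 (not_lt.2 n2)
    · exact h3
  have hβ0 : 0 < β := by
    rcases hβ.eq_or_lt with h3 | h3
    · rw [← h3, zero_mul] at k1
      exact absurd k1 (not_lt.2 n1)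
    · exact h3
  have hD : 0 < α₁ * β₂ - α₂ * β₁ := by
    have h3 : (α * β₁) * (β * α₂) < (β * α₁) * (α * β₂) := by
      have h4 : (α * β₁) * (β * α₂) ≤ (β * α₁) * (β * α₂) :=
        mul_le_mul_of_nonneg_right k1.le n2
      have h5 : (β * α₁) * (β * α₂) < (β * α₁) * (α * β₂) :=
        mul_lt_mul_of_pos_left k2 (lt_of_le_of_lt n1 k1)
      exact lt_of_le_of_lt h4 h5
    have h4 : 0 < (α * β) * (α₁ * β₂ - α₂ * β₁) := by
      have : (α * β) * (α₁ * β₂ - α₂ * β₁) =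
        (β * α₁) * (α * β₂) - (α * β₁) * (β * α₂) := by ring
      rw [this]
      exact sub_pos.2 h3
    exact (pos_iff_pos_of_mul_pos h4).1 (mul_pos hα0 hβ0)
  set D := α₁ * β₂ - α₂ * β₁ with hDdef
  set l := (α * β₂ - β * α₂) / D with hl
  set m := (β * α₁ - α * β₁) / D with hm
  have hl0 : 0 < l := div_pos (sub_pos.2 k2) hD
  have hm0 : 0 < m := div_pos (sub_pos.2 k1) hD
  have e1 : l * α₁ + m * α₂ = α := by
    rw [hl, hm, div_mul_eq_mul_div, div_mul_eq_mul_div, ← add_div, div_eq_iff hD.ne', hDdef]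
    ring
  have e2 : l * β₁ + m * β₂ = β := by
    rw [hl, hm, div_mul_eq_mul_div, div_mul_eq_mul_div, ← add_div, div_eq_iff hD.ne', hDdef]
    ring
  have h3 : v - (l • x + m • y) ∈ ad K c := by
    have h4 : v - (l • x + m • y) = (v - (α • a + β • b)) - l • (x - (α₁ • a + β₁ • b)) -
        m • (y - (α₂ • a + β₂ • b)) := by
      rw [← e1, ← e2]
      module
    rw [h4]
    exact Submodule.sub_mem _ (Submodule.sub_mem _ hvm (Submodule.smul_mem _ _ hxm))
      (Submodule.smul_mem _ _ hym)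
  obtain ⟨r', hr'⟩ := mem_ad.1 h3
  obtain ⟨f, hf, hfv, hpos⟩ := h.1 v hv1
  have h5 := hf _ hr'
  simp only [map_sub, map_add, map_smul, smul_eq_mul, hfv] at h5
  have p1 := mul_pos hl0 (hpos x hx1 (Ne.symm hvx))
  have p2 := mul_pos hm0 (hpos y hy1 (Ne.symm hvy))
  have p3 := hpos c hc (Ne.symm hv2)
  have hr0 : r' < 0 := by
    by_contra h6
    have := mul_nonneg (not_lt.1 h6) p3.le
    linarith
  refine ⟨l, m, -r', hl0, hm0, neg_pos.2 hr0, ?_⟩
  have h7 : v + (-r') • c - (l • x + m • y) = v - (l • x + m • y) - r' • c := by module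
  rw [h7]
  exact hr'

private theorem avs_minor (h : Poly N K) {c a b x y : W} (hc : c ∈ N) (hx1 : x ∈ N) (hxc : x ≠ c)
    (hy1 : y ∈ N) (hyc : y ≠ c) (hxy : x ≠ y) {α₁ β₁ α₂ β₂ : ℝ}
    (hxm : x - (α₁ • a + β₁ • b) ∈ ad K c) (hym : y - (α₂ • a + β₂ • b) ∈ ad K c) :
    α₁ * β₂ - α₂ * β₁ ≠ 0 := by
  intro h0
  by_cases hα : α₂ = 0
  · by_cases hβ : β₂ = 0
    · rw [hα, hβ] at hym
      simp only [zero_smul, add_zero, sub_zero] at hym
      exact two h hc hy1 hyc hym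
    · refine three h hc hy1 hx1 (Ne.symm hyc) (Ne.symm hxc) (Ne.symm hxy) (β₁ / β₂) ?_
      have h1 : x - (β₁ / β₂) • y = (x - (α₁ • a + β₁ • b)) -
          (β₁ / β₂) • (y - (α₂ • a + β₂ • b)) := by
        have e1 : α₁ = (β₁ / β₂) * α₂ := by
          rw [div_mul_eq_mul_div, eq_div_iff hβ]
          linarith
        have e2 : β₁ = (β₁ / β₂) * β₂ := by field_simp
        have h2 : x - (α₁ • a + β₁ • b) =
            x - (((β₁ / β₂) * α₂) • a + ((β₁ / β₂) * β₂) • b) := by rw [← e1, ← e2]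
        rw [h2]
        module
      rw [h1]
      exact Submodule.sub_mem _ hxm (Submodule.smul_mem _ _ hym)
  · refine three h hc hy1 hx1 (Ne.symm hyc) (Ne.symm hxc) (Ne.symm hxy) (α₁ / α₂) ?_
    have h1 : x - (α₁ / α₂) • y = (x - (α₁ • a + β₁ • b)) -
        (α₁ / α₂) • (y - (α₂ • a + β₂ • b)) := by
      have e1 : α₁ = (α₁ / α₂) * α₂ := by field_simp
      have e2 : β₁ = (α₁ / α₂) * β₂ := by
        rw [div_mul_eq_mul_div, eq_div_iff hα]
        linarith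
      have h2 : x - (α₁ • a + β₁ • b) =
          x - (((α₁ / α₂) * α₂) • a + ((α₁ / α₂) * β₂) • b) := by rw [← e1, ← e2]
      rw [h2]
      module
    rw [h1]
    exact Submodule.sub_mem _ hxm (Submodule.smul_mem _ _ hym)

theorem av_face (h : Poly N K) {c a b c' a' b' x y : W} (hc : c ∈ N) (hc' : c' ∈ N)
    (hcc : c ≠ c') (hab : VAdj N K c a b) (hab' : VAdj N K c' a' b') (hx : Br N K c a b x)
    (hy : Br N K c a b y) (hx' : Br N K c' a' b' x) (hy' : Br N K c' a' b' y) (hxy : x ≠ y)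
    (hn : ¬ Adj N K x y) : Br N K c a b c' := by
  obtain ⟨f, hfK, hfc, hf0, hfi⟩ := br_face h hc hab
  obtain ⟨g, hgK, hgc, hg0, hgi⟩ := br_face h hc' hab'
  by_contra hno
  have hfc' : f c' ≠ 0 := fun h0 => hno ((hfi c' hc' (Ne.symm hcc)).1 h0)
  have hfx : f x = 0 := (hfi x hx.1 hx.2.1).2 hx
  have hfy : f y = 0 := (hfi y hy.1 hy.2.1).2 hy
  have hgx : g x = 0 := (hgi x hx'.1 hx'.2.1).2 hx'
  have hgy : g y = 0 := (hgi y hy'.1 hy'.2.1).2 hy'
  apply hn
  refine ⟨hx.1, hy.1, hxy, f + g, ?_, ?_, ?_, ?_⟩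
  · intro z hz
    rw [LinearMap.add_apply, hfK z hz, hgK z hz, add_zero]
  · rw [LinearMap.add_apply, hfx, hgx, add_zero]
  · rw [LinearMap.add_apply, hfy, hgy, add_zero]
  · intro w hw hwx hwy
    rw [LinearMap.add_apply]
    by_contra hle
    have h1 := hf0 w hw
    have h2 := hg0 w hw
    have hfw : f w = 0 := by linarith
    have hgw : g w = 0 := by linarith
    have hwc : w ≠ c' := by
      rintro rfl
      exact hfc' hfw
    have hw' : Br N K c' a' b' w := (hgi w hw hwc).1 hgw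
    obtain ⟨hx1, hx2, α₁, β₁, -, -, hxm⟩ := hx'
    obtain ⟨hy1, hy2, α₂, β₂, -, -, hym⟩ := hy'
    obtain ⟨-, -, α, β, -, -, hwm⟩ := hw'
    have hr : α₁ * β₂ - α₂ * β₁ ≠ 0 :=
      avs_minor h hc' hx1 hx2 hy1 hy2 hxy hxm hym
    set r := α₁ * β₂ - α₂ * β₁ with hrdef
    have h3 : (α₂ * β - α * β₂) • x + (α * β₁ - α₁ * β) • y + r • w ∈ ad K c' := by
      have h4 : (α₂ * β - α * β₂) • x + (α * β₁ - α₁ * β) • y + r • w =
          (α₂ * β - α * β₂) • (x - (α₁ • a' + β₁ • b')) +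
          (α * β₁ - α₁ * β) • (y - (α₂ • a' + β₂ • b')) + r • (w - (α • a' + β • b')) := by
        rw [hrdef]
        module
      rw [h4]
      exact Submodule.add_mem _ (Submodule.add_mem _ (Submodule.smul_mem _ _ hxm)
        (Submodule.smul_mem _ _ hym)) (Submodule.smul_mem _ _ hwm)
    obtain ⟨k, hk⟩ := mem_ad.1 h3
    have h5 := hfK _ hk
    simp only [map_sub, map_add, map_smul, smul_eq_mul, hfx, hfy, hfw, mul_zero, add_zero,
      zero_sub, neg_eq_zero] at h5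
    have hk0 : k = 0 := by
      rcases mul_eq_zero.1 h5 with h6 | h6
      · exact h6
      · exact absurd h6 hfc'
    rw [hk0, zero_smul, sub_zero] at hk
    refine three h hy1 hx1 hw (Ne.symm hxy) (Ne.symm hwy) (Ne.symm hwx)
      (-((α₂ * β - α * β₂) / r)) ?_
    rw [mem_ad]
    refine ⟨-((α * β₁ - α₁ * β) / r), ?_⟩
    have h7 : w - (-((α₂ * β - α * β₂) / r)) • x - (-((α * β₁ - α₁ * β) / r)) • y =
        r⁻¹ • ((α₂ * β - α * β₂) • x + (α * β₁ - α₁ * β) • y + r • w) := by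
      have h8 : w = (r⁻¹ * r) • w := by rw [inv_mul_cancel₀ hr, one_smul]
      conv_lhs => rw [h8]
      rw [div_eq_mul_inv, div_eq_mul_inv]
      module
    rw [h7]
    exact Submodule.smul_mem _ _ hk

theorem av3 (h : Poly N K) {O : Finset W} (hO : O ⊆ N) {x y c₁ c₂ c₃ : W} (hxy : x ≠ y)
    (hn : ¬ Adj N K x y) (h1 : c₁ ∈ O) (h2 : c₂ ∈ O) (h3 : c₃ ∈ O) (h12 : c₁ ≠ c₂)
    (h13 : c₁ ≠ c₃) (h23 : c₂ ≠ c₃) (r1 : R0 N K O c₁ x y) (r2 : R0 N K O c₂ x y)
    (r3 : R0 N K O c₃ x y) : False := by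
  obtain ⟨a₁, b₁, z₁, v1, bx1, by1, -, -, -, -, s1, t1⟩ := r1
  obtain ⟨a₂, b₂, z₂, v2, bx2, by2, -, -, -, -, s2, t2⟩ := r2
  obtain ⟨a₃, b₃, z₃, v3, bx3, by3, -, -, -, -, s3, t3⟩ := r3
  have f12 := av_face h (hO h1) (hO h2) h12 v1 v2 bx1 by1 bx2 by2 hxy hn
  have f13 := av_face h (hO h1) (hO h3) h13 v1 v3 bx1 by1 bx3 by3 hxy hn
  have f23 := av_face h (hO h2) (hO h3) h23 v2 v3 bx2 by2 bx3 by3 hxy hn
  have hc2x : c₂ ≠ x := Ne.symm bx2.2.1
  have hc2y : c₂ ≠ y := Ne.symm by2.2.1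
  have hc3x : c₃ ≠ x := Ne.symm bx3.2.1
  have hc3y : c₃ ≠ y := Ne.symm by3.2.1
  obtain ⟨l, m, r, -, -, hr, e1⟩ := av_side h (hO h1) v1 bx1 by1 f12 hc2x hc2y
    (fun hb => hc2x (s1 _ h2 hb)) (fun hb => hc2y (t1 _ h2 hb))
  obtain ⟨l', m', r', -, -, hr', e2⟩ := av_side h (hO h1) v1 bx1 by1 f13 hc3x hc3y
    (fun hb => hc3x (s1 _ h3 hb)) (fun hb => hc3y (t1 _ h3 hb))
  obtain ⟨l'', m'', r'', -, -, hr'', e3⟩ := av_side h (hO h2) v2 bx2 by2 f23 hc3x hc3y
    (fun hb => hc3x (s2 _ h3 hb)) (fun hb => hc3y (t2 _ h3 hb))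
  have hs : r' + r'' * r ≠ 0 := by positivity
  set s := r' + r'' * r with hsdef
  refine three h by1.1 bx1.1 (hO h1) (Ne.symm hxy) by1.2.1 bx1.2.1
    (-((l'' - l' - r'' * l) / s)) ?_
  rw [mem_ad]
  refine ⟨-((m'' - m' - r'' * m) / s), ?_⟩
  have h7 : c₁ - (-((l'' - l' - r'' * l) / s)) • x - (-((m'' - m' - r'' * m) / s)) • y =
      s⁻¹ • ((c₃ + r' • c₁ - (l' • x + m' • y)) - (c₃ + r'' • c₂ - (l'' • x + m'' • y)) +
        r'' • (c₂ + r • c₁ - (l • x + m • y))) := by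
    have h8 : c₁ = (s⁻¹ * s) • c₁ := by rw [inv_mul_cancel₀ hs, one_smul]
    conv_lhs => rw [h8]
    rw [div_eq_mul_inv, div_eq_mul_inv]
    rw [hsdef]
    module
  rw [h7]
  exact Submodule.smul_mem _ _ (Submodule.add_mem _ (Submodule.sub_mem _ e2 e3)
    (Submodule.smul_mem _ _ e1))

end Pool.Agent.LPG
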