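import Pool.Agent.LPT.AVs

/-!
# Averaging over the centres (module Avg)

The centres are the elements of `Cs = G.image p ∪ G.image q`, `Cs.card = 2 * G.card`.  For every `j ∈ G` at most two `c ∈ Cs` satisfy `R0 N K O c (p j) (q j)` (`av3`,
`Finset.two_lt_card`).  If the claim were false, then every `c ∈ Cs` has at least `2` such `j`, and counting the pairs `(c, j)` in two ways
(`Finset.sum_card_bipartiteAbove_eq_sum_card_bipartiteBelow` or `Finset.sum_comm`) gives `2 * (2 * G.card) ≤ 2 * G.card`, contradiction to `G.Nonempty`.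
-/

set_option autoImplicit false

namespace Pool.Agent.LPG

variable {W : Type*} [AddCommGroup W] [Module ℝ W] {N : Finset W} {K : Submodule ℝ W}

open Classical in
theorem avg (h : Poly N K) {O : Finset W} (hO : O ⊆ N) {m : ℕ} (p q : Fin m → W)
    (hp : ∀ i, p i ∈ O) (hq : ∀ i, q i ∈ O) (hpi : ∀ i j, p i = p j → i = j)
    (hqi : ∀ i j, q i = q j → i = j) (hpq : ∀ i j, p i ≠ q j) (G : Finset (Fin m))
    (hG : G.Nonempty) (hn : ∀ i ∈ G, ¬ Adj N K (p i) (q i)) :
    ∃ i ∈ G, ∃ c, (c = p i ∨ c = q i) ∧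
      (G.filter (fun j => R0 N K O c (p j) (q j))).card ≤ 1 := by
  by_contra hcon
  push Not at hcon
  have hdisj : Disjoint (G.image p) (G.image q) := by
    rw [Finset.disjoint_left]
    intro c h1 h2
    obtain ⟨i, _, rfl⟩ := Finset.mem_image.1 h1
    obtain ⟨j, _, hj⟩ := Finset.mem_image.1 h2
    exact hpq i j hj.symm
  have hcard : (G.image p ∪ G.image q).card = 2 * G.card := by
    rw [Finset.card_union_of_disjoint hdisj,
      Finset.card_image_of_injective _ (fun i j hij => hpi i j hij),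
      Finset.card_image_of_injective _ (fun i j hij => hqi i j hij)]
    ring
  have h1 : (G.image p ∪ G.image q).card * 2 ≤
      ∑ c ∈ G.image p ∪ G.image q, (G.filter (fun j => R0 N K O c (p j) (q j))).card := by
    rw [← smul_eq_mul]
    refine Finset.card_nsmul_le_sum _ _ _ fun c hc => ?_
    rcases Finset.mem_union.1 hc with hc | hc
    · obtain ⟨i, hi, rfl⟩ := Finset.mem_image.1 hc
      exact hcon i hi _ (Or.inl rfl)
    · obtain ⟨i, hi, rfl⟩ := Finset.mem_image.1 hc
      exact hcon i hi _ (Or.inr rfl)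
  have h2 : ∑ c ∈ G.image p ∪ G.image q, (G.filter (fun j => R0 N K O c (p j) (q j))).card =
      ∑ j ∈ G, ((G.image p ∪ G.image q).filter (fun c => R0 N K O c (p j) (q j))).card :=
    Finset.sum_card_bipartiteAbove_eq_sum_card_bipartiteBelow
      (fun c j => R0 N K O c (p j) (q j))
  have hCs : ∀ c ∈ G.image p ∪ G.image q, c ∈ O := by
    intro c hc
    rcases Finset.mem_union.1 hc with hc | hc
    · obtain ⟨i, _, rfl⟩ := Finset.mem_image.1 hc
      exact hp i
    · obtain ⟨i, _, rfl⟩ := Finset.mem_image.1 hc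
      exact hq i
  have h3 : ∑ j ∈ G, ((G.image p ∪ G.image q).filter
      (fun c => R0 N K O c (p j) (q j))).card ≤ G.card * 2 := by
    rw [← smul_eq_mul]
    refine Finset.sum_le_card_nsmul _ _ _ fun j hj => ?_
    by_contra hlt
    push Not at hlt
    obtain ⟨c₁, c₂, c₃, m1, m2, m3, n12, n13, n23⟩ := Finset.two_lt_card_iff.1 hlt
    rw [Finset.mem_filter] at m1 m2 m3
    exact av3 h hO (hpq j j) (hn j hj) (hCs _ m1.1) (hCs _ m2.1) (hCs _ m3.1) n12 n13 n23
      m1.2 m2.2 m3.2
  have hpos := hG.card_pos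
  omega

end Pool.Agent.LPG
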