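import Pool.Agent.LPG.KL
import Pool.Agent.LPG.RkLin
import Pool.Agent.LPZ.ZDefs

/-!
# Coloops by minimal nullity (module Coloop; helper24's text, section 3; MP_c76e9d_co)

`kl_cl`: like `kl` with `Vc = ∅`, but in addition every source of `Fre N K s X ∅ Y` ends at a coloop of the
set of all ends, modulo `ad K s`.

For `δ ≥ 0` let `r_δ F = min (|F ∩ nb s|) (rank (F ∩ nb s | ad K s) + δ)` (a rank function, `isRk_el`).  Take the
smallest `δ` such that a system `(S, e)` exists whose set of ends `E = e X` has `|X| ≤ r_δ E`.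
Let `z ∈ Fre` and suppose `e z` is not a coloop.  `δ = 0`: `E` is independent.  `δ ≥ 1`: by minimality the
theorem of Menger fails for `δ - 1`: there are `C`, `F` with `|C| + rank F + δ ≤ |X|`, all walks from `X` avoiding
`C` end in `F`.  Let `X_F` be the set of the `x` whose `S x` misses `C`.  `e X_F ⊆ F` and
`|X| ≤ rank E + δ ≤ rank (e X_F) + |X \ X_F| + δ ≤ rank F + |C| + δ ≤ |X|`, so all are equal.  If `z ∉ X_F` then
`rank (E - e z) ≤ rank (e X_F) + |X \ X_F| - 1 < rank E`, so `e z` is a coloop.  So `z ∈ X_F`, `z ∉ C`.  The span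
of `K, s, C, F ∩ nb s` has rank at most `1 + |C| + rank F ≤ |X| < n`; so it does not contain `z` or some neighbour of
`z`, and `exit` gives a walk from `z` to a neighbour of `s` which avoids `C` and ends outside of `F`.
-/

set_option autoImplicit false
set_option linter.all false

namespace Pool.Agent.LPG

variable {W : Type*} [AddCommGroup W] [Module ℝ W] {N : Finset W} {K : Submodule ℝ W}

/-- The rank function of the elongation. -/
noncomputable def rel [DecidableEq W] (Λ : Submodule ℝ W) (T : Finset W) (δ : ℕ) (F : Finset W) : ℕ :=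
  min ((F ∩ T).card) (rkl Λ T F + δ)

theorem isRk_el [DecidableEq W] (Λ : Submodule ℝ W) (T : Finset W) (δ : ℕ) :
    IsRk (rel Λ T δ) := by
  have hr := isRk_rkl Λ T
  have hsub : ∀ A B : Finset W, rkl Λ T (A ∪ B) ≤ rkl Λ T B + ((A ∩ T) \ (B ∩ T)).card := by
    intro A B
    have h1 := hr.submod ((A ∩ T) \ (B ∩ T)) B
    have h2 := card_le hr ((A ∩ T) \ (B ∩ T))
    have h3 : rkl Λ T (A ∪ B) ≤ rkl Λ T (((A ∩ T) \ (B ∩ T)) ∪ B) := by
      have h4 : rkl Λ T (A ∪ B) = rkl Λ T ((A ∪ B) ∩ T) := by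
        unfold rkl
        rw [Finset.inter_assoc, Finset.inter_self]
      rw [h4]
      apply hr.mono
      intro v hv
      simp only [Finset.mem_inter, Finset.mem_union, Finset.mem_sdiff] at hv ⊢
      tauto
    omega
  refine ⟨?_, ?_, ?_, ?_⟩
  · unfold rel
    simp
  · intro A B hAB
    unfold rel
    have h1 := hr.mono A B hAB
    have h2 := Finset.card_le_card (Finset.inter_subset_inter_right (u := T) hAB)
    omega
  · intro v A
    unfold rel
    have h1 := hr.insert_le v A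
    have h2 : (insert v A ∩ T).card ≤ (A ∩ T).card + 1 := by
      refine (Finset.card_le_card (t := insert v (A ∩ T)) ?_).trans (Finset.card_insert_le _ _)
      intro w hw
      rw [Finset.mem_inter, Finset.mem_insert] at hw
      rw [Finset.mem_insert, Finset.mem_inter]
      tauto
    omega
  · intro A B
    unfold rel
    have h1 := hr.submod A B
    have h2 : (A ∪ B) ∩ T = (A ∩ T) ∪ (B ∩ T) := Finset.union_inter_distrib_right _ _ _
    have h3 : (A ∩ B) ∩ T = (A ∩ T) ∩ (B ∩ T) := Finset.inter_inter_distrib_right _ _ _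
    have h4 := Finset.card_union_add_card_inter (A ∩ T) (B ∩ T)
    rw [← h2, ← h3] at h4
    have h5 := hsub A B
    have h6 := hsub B A
    rw [Finset.union_comm B A] at h6
    have h7 : ((A ∩ T) \ (B ∩ T)).card + ((A ∩ B) ∩ T).card = (A ∩ T).card := by
      rw [h3]
      exact Finset.card_sdiff_add_card_inter _ _
    have h8 : ((B ∩ T) \ (A ∩ T)).card + ((A ∩ B) ∩ T).card = (B ∩ T).card := by
      rw [h3, Finset.inter_comm (A ∩ T) (B ∩ T)]
      exact Finset.card_sdiff_add_card_inter _ _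
    omega

theorem rkl_span [DecidableEq W] (Λ : Submodule ℝ W) (T : Finset W) {A B : Finset W}
    (hAB : A ⊆ B) (hr : rkl Λ T A = rkl Λ T B) {v : W} (hv : v ∈ B) (hvT : v ∈ T) :
    v ∈ Λ ⊔ Submodule.span ℝ (A : Set W) := by
  unfold rkl at hr
  have hfd : FiniteDimensional ℝ
      (Submodule.span ℝ (Λ.mkQ '' ((B ∩ T : Finset W) : Set W))) :=
    FiniteDimensional.span_of_finite ℝ ((B ∩ T).finite_toSet.image _)
  have hle : Submodule.span ℝ (Λ.mkQ '' ((A ∩ T : Finset W) : Set W)) ≤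
      Submodule.span ℝ (Λ.mkQ '' ((B ∩ T : Finset W) : Set W)) := by
    refine Submodule.span_mono (Set.image_mono ?_)
    exact_mod_cast Finset.inter_subset_inter_right hAB
  have heq := Submodule.eq_of_le_of_finrank_eq hle hr
  have h1 : Λ.mkQ v ∈ Submodule.span ℝ (Λ.mkQ '' ((B ∩ T : Finset W) : Set W)) :=
    Submodule.subset_span ⟨v, Finset.mem_coe.2 (Finset.mem_inter.2 ⟨hv, hvT⟩), rfl⟩
  rw [← heq, Submodule.span_image] at h1
  have h2 : v ∈ Submodule.comap Λ.mkQ (Submodule.map Λ.mkQ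
      (Submodule.span ℝ ((A ∩ T : Finset W) : Set W))) := h1
  rw [Submodule.comap_map_eq, Submodule.ker_mkQ, sup_comm] at h2
  refine (sup_le_sup_left (Submodule.span_mono ?_) Λ) h2
  exact_mod_cast (Finset.inter_subset_left : A ∩ T ⊆ A)

theorem rkl_of_span [DecidableEq W] (Λ : Submodule ℝ W) (T : Finset W) {A : Finset W}
    (hAT : A ⊆ T) {v : W} (hv : v ∈ Λ ⊔ Submodule.span ℝ (A : Set W)) :
    rkl Λ T (insert v A) = rkl Λ T A := by
  refine le_antisymm ?_ ((isRk_rkl Λ T).mono _ _ (Finset.subset_insert _ _))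
  unfold rkl
  have hfd : FiniteDimensional ℝ
      (Submodule.span ℝ (Λ.mkQ '' ((A ∩ T : Finset W) : Set W))) :=
    FiniteDimensional.span_of_finite ℝ ((A ∩ T).finite_toSet.image _)
  refine Submodule.finrank_mono ?_
  rw [Submodule.span_le]
  rintro _ ⟨w, hw, rfl⟩
  rw [Finset.mem_coe, Finset.mem_inter, Finset.mem_insert] at hw
  rcases hw with ⟨rfl | hw, hwT⟩
  · have h1 : Λ.mkQ w ∈ Submodule.map Λ.mkQ (Λ ⊔ Submodule.span ℝ (A : Set W)) :=
      ⟨w, hv, rfl⟩
    rw [Submodule.map_sup] at h1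
    rw [Submodule.mkQ_map_self, bot_sup_eq, ← Submodule.span_image] at h1
    rw [Finset.inter_eq_left.2 hAT]
    exact h1
  · exact Submodule.subset_span ⟨w, Finset.mem_coe.2 (Finset.mem_inter.2 ⟨hw, hwT⟩), rfl⟩

private theorem co_exists_fun (U : Submodule ℝ W) {x : W} (hx : x ∉ U) :
    ∃ φ : W →ₗ[ℝ] ℝ, (∀ z ∈ U, φ z = 0) ∧ 0 < φ x := by
  obtain ⟨f, hf, hU⟩ := Submodule.exists_le_ker_of_notMem hx
  have hU' : ∀ z ∈ U, f z = 0 := fun z hz => LinearMap.mem_ker.1 (hU hz)
  rcases lt_or_gt_of_ne hf with h1 | h1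
  · exact ⟨-f, fun z hz => by simp [hU' z hz], by simpa using h1⟩
  · exact ⟨f, hU', h1⟩

private theorem co_arc2 {s : W} {Λ : Submodule ℝ W} {Fr : Set W} {p q : W}
    (h : Arc N K Λ s p q) : Arc2 N K s Fr p q :=
  ⟨h.1.1, h.2.1, h.2.2.1, fun hp => absurd hp h.2.2.2.1, fun _ => h.2.2.2.2⟩

/-- From systems indexed by `Fin` to systems indexed by the sources. -/
theorem sys_of_paths {s : W} (Fr : Set W) (X : Finset W) (hX : X ⊆ N) (hsX : s ∉ X)
    [DecidableEq W] (E : Finset (W × W)) (memE : ∀ u w : W, (u, w) ∈ E ↔ Arc2 N K s Fr u w)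
    (S' : Fin X.card → Finset W) (a e' : Fin X.card → W) (hP : PathSys E X S' a e')
    (hends : ∀ j, e' j ∈ nb N K s) :
    ∃ (S : W → Finset W) (e : W → W), Sys N K s Fr X ∅ S e ∧
      X.image e = Finset.univ.image e' := by
  classical
  obtain ⟨hdis, hPS⟩ := hP
  have hainj : Function.Injective a := by
    intro i j hij
    by_contra hne
    have h1 := (hPS i).2.1
    have h2 := (hPS j).2.1
    rw [hij] at h1
    exact Finset.disjoint_left.1 (hdis i j hne) h1 h2
  have himg : Finset.univ.image a = X := by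
    refine Finset.eq_of_subset_of_card_le ?_ ?_
    · intro w hw
      obtain ⟨j, _, rfl⟩ := Finset.mem_image.1 hw
      exact (hPS j).1
    · rw [Finset.card_image_of_injective _ hainj, Finset.card_univ, Fintype.card_fin]
  have hsig : ∀ x ∈ X, ∃ j : Fin X.card, a j = x := by
    intro x hx
    rw [← himg] at hx
    obtain ⟨j, _, hj⟩ := Finset.mem_image.1 hx
    exact ⟨j, hj⟩
  choose σ hσ using hsig
  refine ⟨fun x => if hx : x ∈ X then S' (σ x hx) else ∅,
    fun x => if hx : x ∈ X then e' (σ x hx) else x, ⟨?_, ?_⟩, ?_⟩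
  · intro x hx y hy hxy
    simp only [hx, hy, dif_pos]
    refine hdis _ _ fun hh => hxy ?_
    rw [← hσ x hx, ← hσ y hy, hh]
  · intro x hx
    simp only [hx, dif_pos]
    obtain ⟨_, h2, h3, h4⟩ := hPS (σ x hx)
    rw [hσ x hx] at h2
    refine ⟨h2, h3, hends _, Finset.notMem_empty _, ?_⟩
    intro v hv
    obtain ⟨h5, h6⟩ := h4 v hv
    have hcase : v = x ∨ ∃ c, Arc2 N K s Fr c v := by
      rcases Relation.ReflTransGen.cases_tail h5 with h7 | ⟨c, _, h8⟩
      · left
        rw [h7, hσ x hx]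
      · exact Or.inr ⟨c, (memE c v).1 h8.1⟩
    refine ⟨?_, ?_, ?_, ?_⟩
    · rcases hcase with rfl | ⟨c, hc'⟩
      · exact hX hx
      · exact hc'.1.2.1
    · rcases hcase with rfl | ⟨c, hc'⟩
      · exact fun hh => hsX (hh ▸ hx)
      · exact hc'.2.2.1
    · rw [hσ x hx] at h5
      exact Relation.ReflTransGen.mono
        (fun p q hpq => ⟨(memE p q).1 hpq.1, hpq.2.1, hpq.2.2.1, hpq.2.2.2⟩) _ _ h5
    · rw [hσ x hx] at h6
      exact Relation.ReflTransGen.mono
        (fun p q hpq => ⟨(memE p q).1 hpq.1, hpq.2.1, hpq.2.2.1, hpq.2.2.2⟩) _ _ h6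
  · ext w
    constructor
    · intro hw
      obtain ⟨x, hx, rfl⟩ := Finset.mem_image.1 hw
      simp only [hx, dif_pos]
      exact Finset.mem_image_of_mem _ (Finset.mem_univ _)
    · intro hw
      obtain ⟨j, _, rfl⟩ := Finset.mem_image.1 hw
      have hj : a j ∈ X := (hPS j).1
      refine Finset.mem_image.2 ⟨a j, hj, ?_⟩
      simp only [hj, dif_pos]
      congr 1
      exact hainj (hσ (a j) hj)

theorem kl_cl (h : Poly N K) {s : W} (hs : s ∈ N) (X Y : Finset W) (hX : X ⊆ N) (hsX : s ∉ X)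
    (hY : ∀ x ∈ Y, x ∈ X ∧ x ∉ nb N K s) (Seg : W → Finset W)
    (hS : ∀ x ∈ Y, (∀ v ∈ X, v ∈ Seg x → v = x) ∧ x ∈ Seg x ∧ ∃ u ∈ nb N K s,
      u ∉ (∅ : Finset W) ∧
      Relation.ReflTransGen (fun p q => Arc2 N K s ∅ p q ∧ p ∈ Seg x ∧ q ∈ Seg x) x u)
    (hd : ∀ x ∈ Y, ∀ y ∈ Y, x ≠ y → Disjoint (Seg x) (Seg y)) {n : ℕ} (hn : DimGe N K n)
    (hc : X.card < n) :
    ∃ (S : W → Finset W) (e : W → W), Sys N K s (Fre N K s X ∅ Y) X ∅ S e ∧
      ∀ z ∈ Fre N K s X ∅ Y, Cl (ad K s) (e '' (X : Set W)) (e z) := by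
  classical
  set Fr := Fre N K s X ∅ Y with hFr
  set T := nb N K s with hT
  set Λ := ad K s with hΛ
  set E : Finset (W × W) := (N ×ˢ N).filter (fun p => Arc2 N K s Fr p.1 p.2) with hE
  have memE : ∀ u w : W, (u, w) ∈ E ↔ Arc2 N K s Fr u w := by
    intro u w
    rw [hE, Finset.mem_filter, Finset.mem_product]
    exact ⟨fun hh => hh.2, fun hh => ⟨⟨hh.1.1, hh.1.2.1⟩, hh⟩⟩
  have hr := isRk_rkl Λ T
  have hinj : ∀ (S : W → Finset W) (e : W → W), Sys N K s Fr X ∅ S e →
      ∀ x ∈ X, ∀ y ∈ X, e x = e y → x = y := by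
    intro S e hSys x hx y hy hxy
    by_contra hne
    have h1 := (hSys.2 x hx).2.1
    have h2 := (hSys.2 y hy).2.1
    rw [hxy] at h1
    exact Finset.disjoint_left.1 (hSys.1 x hx y hy hne) h1 h2
  have hcardE : ∀ (S : W → Finset W) (e : W → W), Sys N K s Fr X ∅ S e →
      (X.image e).card = X.card := by
    intro S e hSys
    exact Finset.card_image_of_injOn fun x hx y hy hxy => hinj S e hSys x hx y hy hxy
  have hET : ∀ (S : W → Finset W) (e : W → W), Sys N K s Fr X ∅ S e → X.image e ⊆ T := by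
    intro S e hSys w hw
    obtain ⟨x, hx, rfl⟩ := Finset.mem_image.1 hw
    exact (hSys.2 x hx).2.2.1
  -- the smallest nullity
  have hex : ∃ δ : ℕ, ∃ (S : W → Finset W) (e : W → W), Sys N K s Fr X ∅ S e ∧
      X.card ≤ rkl Λ T (X.image e) + δ := by
    obtain ⟨S, e, hSys⟩ := kl h hs X ∅ Y hX hsX (Finset.empty_subset _)
      (fun v hv => absurd hv (Finset.notMem_empty _)) hY Seg hS hd hn (by simpa using hc)
    exact ⟨X.card, S, e, hSys, Nat.le_add_left _ _⟩
  set δ := Nat.find hex with hδ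
  obtain ⟨S, e, hSys, hrk⟩ := Nat.find_spec hex
  rw [← hδ] at hrk
  have hmin : ∀ m < δ, ¬ ∃ (S : W → Finset W) (e : W → W), Sys N K s Fr X ∅ S e ∧
      X.card ≤ rkl Λ T (X.image e) + m := fun m hm => Nat.find_min hex hm
  refine ⟨S, e, hSys, ?_⟩
  have hEc := hcardE S e hSys
  have hEt := hET S e hSys
  intro z hz hzcl
  have hzX : z ∈ X := hz.1
  have hezE : e z ∈ X.image e := Finset.mem_image_of_mem _ hzX
  -- `e z` is in the span of the others
  have hspan : e z ∈ Λ ⊔ Submodule.span ℝ (((X.image e).erase (e z) : Finset W) : Set W) := by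
    rw [Finset.coe_erase, Finset.coe_image]
    exact hzcl
  have hrkE : rkl Λ T (X.image e) = rkl Λ T ((X.image e).erase (e z)) := by
    have h1 := rkl_of_span Λ T ((Finset.erase_subset _ _).trans hEt) hspan
    rwa [Finset.insert_erase hezE] at h1
  have hcl1 := card_le hr ((X.image e).erase (e z))
  rw [Finset.card_erase_of_mem hezE, hEc] at hcl1
  have hXpos : 0 < X.card := Finset.card_pos.2 ⟨z, hzX⟩
  have hδpos : 0 < δ := by omega
  -- the theorem of Menger fails for `δ - 1`
  have hfail : ∃ C F : Finset W, (∀ a ∈ X, ∀ v, Av E C a v → v ∈ F) ∧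
      C.card + rel Λ T (δ - 1) F < X.card := by
    by_contra hno
    push Not at hno
    obtain ⟨S', a, e', hP, hre⟩ := mr (rel Λ T (δ - 1)) (isRk_el Λ T (δ - 1)) E X X.card
      (fun C F hsep => hno C F hsep)
    unfold rel at hre
    have h2 : (Finset.univ.image e').card ≤ X.card := by
      refine Finset.card_image_le.trans ?_
      rw [Finset.card_univ, Fintype.card_fin]
    have h2' := Finset.card_le_card (Finset.inter_subset_left (s₁ := Finset.univ.image e') (s₂ := T))
    have h3 : Finset.univ.image e' ∩ T = Finset.univ.image e' :=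
      Finset.eq_of_subset_of_card_le Finset.inter_subset_left (by omega)
    have hends : ∀ j, e' j ∈ nb N K s := by
      intro j
      have h4 : e' j ∈ Finset.univ.image e' ∩ T := by
        rw [h3]
        exact Finset.mem_image_of_mem _ (Finset.mem_univ j)
      exact (Finset.mem_inter.1 h4).2
    obtain ⟨S1, e1, hSys1, himg⟩ := sys_of_paths Fr X hX hsX E memE S' a e' hP hends
    refine hmin (δ - 1) (by omega) ⟨S1, e1, hSys1, ?_⟩
    rw [himg]
    omega
  obtain ⟨C, F, hsep, hlt⟩ := hfail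
  -- the sources whose paths miss `C`
  set XF := X.filter (fun x => Disjoint (S x) C) with hXF
  have hXFsub : XF ⊆ X := Finset.filter_subset _ _
  have hmiss : (X \ XF).card ≤ C.card := by
    have hpick : ∀ x ∈ X \ XF, ∃ c ∈ C, c ∈ S x := by
      intro x hx
      rw [Finset.mem_sdiff, hXF, Finset.mem_filter, not_and] at hx
      have h1 := hx.2 hx.1
      rw [Finset.not_disjoint_iff] at h1
      obtain ⟨c, h2, h3⟩ := h1
      exact ⟨c, h3, h2⟩
    choose! g hg1 hg2 using hpick
    refine Finset.card_le_card_of_injOn g (fun x hx => hg1 x hx) ?_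
    intro x hx y hy hxy
    by_contra hne
    have h1 := hg2 x hx
    have h2 := hg2 y hy
    rw [hxy] at h1
    exact Finset.disjoint_left.1 (hSys.1 x (Finset.mem_sdiff.1 hx).1 y (Finset.mem_sdiff.1 hy).1 hne)
      h1 h2
  have heF : XF.image e ⊆ F := by
    intro w hw
    obtain ⟨x, hx, rfl⟩ := Finset.mem_image.1 hw
    rw [hXF, Finset.mem_filter] at hx
    obtain ⟨h1, h2, h3, h4, h5⟩ := hSys.2 x hx.1
    have h6 := (h5 _ h2).2.2.1
    refine hsep x hx.1 (e x) ⟨Finset.disjoint_left.1 hx.2 h1, ?_⟩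
    exact Relation.ReflTransGen.mono
      (fun p q hpq => ⟨(memE p q).2 hpq.1, Finset.disjoint_left.1 hx.2 hpq.2.2.1⟩) _ _ h6
  have hXFcard : (XF.image e).card ≤ (F ∩ T).card :=
    Finset.card_le_card (Finset.subset_inter heF
      ((Finset.image_subset_image hXFsub).trans hEt))
  have hXFc : (XF.image e).card = XF.card :=
    Finset.card_image_of_injOn fun x hx y hy hxy =>
      hinj S e hSys x (hXFsub hx) y (hXFsub hy) hxy
  have hcards : (X \ XF).card + XF.card = X.card := Finset.card_sdiff_add_card_eq_card hXFsub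
  have hCF : C.card + rkl Λ T F + δ ≤ X.card := by
    unfold rel at hlt
    omega
  have hmono := hr.mono _ _ heF
  -- rank of `E` without some elements
  have hun : ∀ A : Finset W, A ⊆ X \ XF →
      rkl Λ T ((XF ∪ A).image e) ≤ rkl Λ T (XF.image e) + A.card := by
    intro A hA
    have h1 := hr.submod (XF.image e) (A.image e)
    have h2 := card_le hr (A.image e)
    have h3 : (A.image e).card ≤ A.card := Finset.card_image_le
    rw [Finset.image_union]
    omega
  have hfull : XF ∪ (X \ XF) = X := Finset.union_sdiff_of_subset hXFsub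
  have hr1 := hun (X \ XF) subset_rfl
  rw [hfull] at hr1
  have hzXF : z ∈ XF := by
    by_contra hzn
    have hzD : z ∈ X \ XF := Finset.mem_sdiff.2 ⟨hzX, hzn⟩
    have h1 := hun ((X \ XF).erase z) (Finset.erase_subset _ _)
    have h2 : (X.image e).erase (e z) ⊆ (XF ∪ (X \ XF).erase z).image e := by
      intro w hw
      obtain ⟨hwz, hw⟩ := Finset.mem_erase.1 hw
      obtain ⟨x, hx, rfl⟩ := Finset.mem_image.1 hw
      refine Finset.mem_image_of_mem _ ?_
      have hxz : x ≠ z := fun hh => hwz (by rw [hh])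
      by_cases hxF : x ∈ XF
      · exact Finset.mem_union_left _ hxF
      · exact Finset.mem_union_right _ (Finset.mem_erase.2 ⟨hxz, Finset.mem_sdiff.2 ⟨hx, hxF⟩⟩)
    have h3 := hr.mono _ _ h2
    rw [Finset.card_erase_of_mem hzD] at h1
    have h4 : 0 < (X \ XF).card := Finset.card_pos.2 ⟨z, hzD⟩
    omega
  have hzC : z ∉ C := by
    rw [hXF, Finset.mem_filter] at hzXF
    exact Finset.disjoint_left.1 hzXF.2 (hSys.2 z hzX).1
  -- the hyperplane
  obtain ⟨I, hIF, hI1, hI2⟩ := exists_basis hr F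
  set U : Submodule ℝ W := K ⊔ Submodule.span ℝ ((insert s (C ∪ I) : Finset W) : Set W) with hU
  have hKU : K ≤ U := le_sup_left
  have hmemU : ∀ w ∈ insert s (C ∪ I), w ∈ U := fun w hw =>
    (le_sup_right : _ ≤ U) (Submodule.subset_span (Finset.mem_coe.2 hw))
  have hadU : Λ ≤ U := by
    rw [hΛ]
    unfold ad
    refine sup_le hKU ?_
    rw [Submodule.span_singleton_le_iff_mem]
    exact hmemU s (Finset.mem_insert_self _ _)
  have hFU : ∀ v ∈ F, v ∈ T → v ∈ U := by
    intro v hv hvT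
    have h1 := rkl_span Λ T hIF hI2 hv hvT
    refine (sup_le hadU ?_) h1
    rw [Submodule.span_le]
    intro w hw
    exact hmemU w (Finset.mem_insert_of_mem (Finset.mem_union_right _ (Finset.mem_coe.1 hw)))
  have hUcard : (insert s (C ∪ I)).card < n := by
    have h1 := Finset.card_insert_le s (C ∪ I)
    have h2 := Finset.card_union_le C I
    omega
  obtain ⟨v, hvN, hvU⟩ := hn _ hUcard
  have hzN : z ∈ N := hX hzX
  have hzs : z ≠ s := fun hh => hsX (hh ▸ hzX)
  have hx₁ : ∃ x₁ ∈ N, x₁ ∉ U ∧ (x₁ = z ∨ Adj N K z x₁) := by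
    by_cases hzU : z ∈ U
    · by_contra hno
      push Not at hno
      apply hvU
      have hvx : v ≠ z := fun hh => hvU (hh ▸ hzU)
      obtain ⟨c, _, hcs⟩ := gen h hzN hvN hvx
      have h1 : v = (v - ∑ u ∈ nb N K z, c u • u) + ∑ u ∈ nb N K z, c u • u := by abel
      rw [h1]
      refine Submodule.add_mem _ ?_ ?_
      · have : ad K z ≤ U := by
          unfold ad
          refine sup_le hKU ?_
          rw [Submodule.span_singleton_le_iff_mem]
          exact hzU
        exact this hcs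
      · refine Submodule.sum_mem _ fun u hu => Submodule.smul_mem _ _ ?_
        by_contra huU
        exact (hno u (mem_nb.1 hu).2.1 huU).2 (mem_nb.1 hu)
    · exact ⟨z, hzN, hzU, Or.inl rfl⟩
  obtain ⟨x₁, hx₁N, hx₁U, hx₁a⟩ := hx₁
  obtain ⟨φ, hφU, hφx⟩ := co_exists_fun U hx₁U
  have hφs : φ s = 0 := hφU s (hmemU s (Finset.mem_insert_self _ _))
  obtain ⟨u, hu, hφu, hw⟩ := exit h hs (le_refl K) φ (fun z hz => hφU z (hKU hz)) hφs hx₁N hφx
  have hnot : ∀ q, 0 < φ q → q ∉ C := by
    intro q hq hqC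
    rw [hφU q (hmemU q (Finset.mem_insert_of_mem (Finset.mem_union_left _ hqC)))] at hq
    exact lt_irrefl _ hq
  have hw' : Relation.ReflTransGen (fun p q => (p, q) ∈ E ∧ q ∉ C) x₁ u :=
    Relation.ReflTransGen.mono
      (fun p q hpq => ⟨(memE p q).2 (co_arc2 hpq.1), hnot q hpq.2.2⟩) _ _ hw
  have huF : u ∈ F := by
    refine hsep z hzX u ⟨hzC, ?_⟩
    rcases hx₁a with rfl | hadj
    · exact hw'
    · refine Relation.ReflTransGen.head ⟨(memE _ _).2 ⟨hadj, hzs, ?_, ?_, ?_⟩, hnot _ hφx⟩ hw'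
      · rintro rfl
        rw [hφs] at hφx
        exact lt_irrefl _ hφx
      · exact fun _ => hz
      · exact fun hh => absurd hz hh
  rw [hφU u (hFU u huF hu)] at hφu
  exact lt_irrefl _ hφu

end Pool.Agent.LPG
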