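import Pool.Agent.LPT.FamZ

/-!
# The exchange argument (module Exch)

`p i`, `q i` the two tokens of the pair `i`, `G` the set of the pairs which are not bad.  Existence of `(Y, ι)`: `Y = ∅` is a family; choose one with
`Y.card` maximal, and among these (all `(Y', ι')` with `Fam` and `MaxFam`) one for which `(G.filter (fun i => Harm N K s X Y ι (p i) (q i))).card` is minimal
(`Nat.find` for the set of the natural numbers which occur).

Claim (E): let `i ∈ G`, `Harm (p i) (q i)`, witnesses `a`, `b`, `z`, and not `R0 N K (insert s X) s (p i) (q i)`.  Then there are `j ∈ G` and `w` such that (`w = p j` and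
`q j ∈ Y ∪ nb`) or (`w = q j` and `p j ∈ Y ∪ nb`), `w ∉ Y`, `w ∉ nb`, `Br N K s a b w`.
Proof.  `Br a b (p i)` and `Br a b (q i)` are not both true: otherwise `R0` holds with `a`, `b`, `z`: `z ≠ p i` since `z ∉ Y`, `z ∉ nb` and `Pl (p i) a`; `v ∈ insert s X`, `Br a (p i) v`
implies `v ≠ s` and `v = p i` by `Fam` (if `Pl (p i) a` is the first alternative, `p i = a` and `Br a a v` gives `v = a`: `v - c a ∈ ad K s`, `three`/`two`, and also directly `br_side_nb`
is not needed).  By symmetry (`Harm` and `R0` are symmetric, `br_comm`) let `¬ Br a b (p i)`.  Put `P = p i`.  Then not `P = a` (`br_left`), so `P ∈ Y`, `ι P = a`.  `a ∉ X`: by `Fam`, `Br a P a` (`br_end`), `a = P`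
would be in `nb`.  `closest` for `z`: `y ∈ X`, `y ∉ nb`, `Br a b y`, no element of `X` other than `y` between `a` and `y`, `Br b y z`.  `y ∉ Y`: otherwise (`br_uniq`) `ι y = a`, so `y = P`,
contradiction to `¬ Br a b P`, or `ι y = b`, so `z = y ∈ Y`, contradiction.
`Y' = insert y (Y.erase P)`, `ι' y = a`, `ι' = ι` elsewhere: a family (`ι x ≠ a` for `x ∈ Y`, `x ≠ P`), `Y'.card = Y.card`, so `MaxFam`.  By minimality the number of harmed pairs of
`G` for `(Y', ι')` is not smaller.  `i` is not harmed for `(Y', ι')` (`P ∉ Y'`, `P ∉ nb`).  So some `j ∈ G` is harmed for `(Y', ι')` and not for `(Y, ι)`; let `a₁, b₁, z₁` be the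
witnesses.  If `y ∉ {p j, q j}`, then both are in `Y.erase P` or in `nb` and have the same places for `(Y, ι)`, so `z₁ ∈ Y` (otherwise `j` is harmed for `(Y, ι)`), and `z₁ ∉ Y'` gives `z₁ = P`; `Br a₁ b₁ P` and the
branch of `P` at `ι P = a`: `a ∈ {a₁, b₁}` (`br_uniq`), but the token at `a` is `y` (`pl_inj` for `(Y', ι')`), contradiction.  So `y ∈ {p j, q j}`, `w = y`; the other one is different from `y`, so in
`Y.erase P ∪ nb`.

Counting: the map `i ↦ j` of (E) is injective on the harmed `i` without `R0`: `j` determines `w` (exactly one of `p j`, `q j` is in `Y ∪ nb`), `w` is on only one branch (`br_uniq`, `w ∉ nb`), and the pair `i` occupies both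
ends of it (`pl_inj`, the tokens of different pairs are different).  `One N K s Y (p j) (q j)` holds.
-/

set_option autoImplicit false

namespace Pool.Agent.LPG

variable {W : Type*} [AddCommGroup W] [Module ℝ W] {N : Finset W} {K : Submodule ℝ W}

/-- a vertex in the cone of `a` modulo `ad K s` is `a` -/
private theorem Exch_same (h : Poly N K) {s : W} (hs : s ∈ N) {a v : W} (ha : a ∈ N) (has : a ≠ s)
    (hv : Br N K s a a v) : v = a := by
  obtain ⟨hvN, hvs, α, β, _, _, hm⟩ := hv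
  by_contra hne
  refine three h hs ha hvN has.symm hvs.symm (fun hh => hne hh.symm) (α + β) ?_
  rw [add_smul]
  exact hm

open Classical in
/-- the exchanged family -/
private theorem Exch_fam {s : W} {X Y : Finset W} {ι : W → W} (hF : Fam N K s X Y ι)
    {P a b y : W} (hPY : P ∈ Y) (haP : a = ι P) (hyX : y ∈ X) (hyn : y ∉ nb N K s)
    (hab : VAdj N K s a b) (hby : Br N K s a b y) (hfirst : ∀ v ∈ X, Br N K s a y v → v = y)
    (hyY : y ∉ Y) :
    Fam N K s X (insert y (Y.erase P)) (fun v => if v = y then a else ι v) := by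
  constructor
  · intro x hx
    rcases Finset.mem_insert.1 hx with rfl | hxY
    · simp only [if_true]
      exact ⟨hyX, hyn, ⟨b, hab, hby⟩, hfirst⟩
    · have hxY' := Finset.mem_of_mem_erase hxY
      have hne : x ≠ y := fun hh => hyY (hh ▸ hxY')
      simp only [if_neg hne]
      exact hF.1 x hxY'
  · intro x hx x' hx' hxx'
    rcases Finset.mem_insert.1 hx with rfl | hxY
    · rcases Finset.mem_insert.1 hx' with rfl | hxY'
      · rfl
      · have hne : x' ≠ x := fun hh => hyY (hh ▸ Finset.mem_of_mem_erase hxY')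
        simp only [if_true, if_neg hne] at hxx'
        have h1 := hF.2 x' (Finset.mem_of_mem_erase hxY') P hPY (by rw [← hxx', haP])
        exact absurd h1 (Finset.ne_of_mem_erase hxY')
    · have hne : x ≠ y := fun hh => hyY (hh ▸ Finset.mem_of_mem_erase hxY)
      rcases Finset.mem_insert.1 hx' with rfl | hxY'
      · simp only [if_true, if_neg hne] at hxx'
        have h1 := hF.2 x (Finset.mem_of_mem_erase hxY) P hPY (by rw [hxx', haP])
        exact absurd h1 (Finset.ne_of_mem_erase hxY)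
      · have hne' : x' ≠ y := fun hh => hyY (hh ▸ Finset.mem_of_mem_erase hxY')
        simp only [if_neg hne, if_neg hne'] at hxx'
        exact hF.2 x (Finset.mem_of_mem_erase hxY) x' (Finset.mem_of_mem_erase hxY') hxx'

open Classical in
private theorem Exch_step (h : Poly N K) {s : W} (hs : s ∈ N) {X : Finset W}
    {m : ℕ} (p q : Fin m → W) (hp : ∀ i, p i ∈ X) (hq : ∀ i, q i ∈ X)
    (hpq : ∀ i j, p i ≠ q j) (G : Finset (Fin m)) {Y : Finset W} {ι : W → W}
    (hF : Fam N K s X Y ι) (hmax : MaxFam N K s X Y)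
    (hmin : ∀ (Y' : Finset W) (ι' : W → W), Fam N K s X Y' ι' → MaxFam N K s X Y' →
      (G.filter (fun i => Harm N K s X Y ι (p i) (q i))).card ≤
        (G.filter (fun i => Harm N K s X Y' ι' (p i) (q i))).card)
    {i : Fin m} (hi : i ∈ G) {P : W} (hP : P = p i ∨ P = q i)
    (hharm : Harm N K s X Y ι (p i) (q i)) {a b z : W}
    (hab : VAdj N K s a b) (hPa : Pl N K s Y ι P a) (hzX : z ∈ X) (hzY : z ∉ Y)
    (hzn : z ∉ nb N K s) (hbr : Br N K s a b z) (hnot : ¬ Br N K s a b P) :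
    ∃ j ∈ G, ∃ w, ((w = p j ∧ (q j ∈ Y ∨ q j ∈ nb N K s)) ∨
      (w = q j ∧ (p j ∈ Y ∨ p j ∈ nb N K s))) ∧ w ∉ Y ∧ w ∉ nb N K s ∧ Br N K s a b w := by
  have hPX : P ∈ X := by
    rcases hP with rfl | rfl
    · exact hp i
    · exact hq i
  have haN : a ∈ N := (mem_nb.1 hab.1).2.1
  have has : a ≠ s := (mem_nb.1 hab.1).2.2.1.symm
  obtain ⟨hPY, haP⟩ : P ∈ Y ∧ a = ι P := by
    rcases hPa with ⟨_, h2⟩ | h2
    · exact absurd (h2 ▸ br_left hab) hnot
    · exact h2
  obtain ⟨_, hPn, ⟨b0, hab0, hb0⟩, hPf⟩ := hF.1 P hPY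
  have haX : a ∉ X := by
    intro haX
    have h1 : a = P := hPf a haX (by rw [← haP]; exact br_end haN has)
    exact hPn (h1 ▸ hab.1)
  obtain ⟨y, hyX, hby, hyn, hfirst, hbyz⟩ := closest h hs hab X hzX hbr hzn haX
  have hyY : y ∉ Y := by
    intro hyY
    obtain ⟨_, _, ⟨b1, hab1, hb1⟩, hyf⟩ := hF.1 y hyY
    rcases br_uniq h hs hab hab1 hby hb1 hyn with ⟨h1, _⟩ | ⟨h1, _⟩
    · have h2 := hF.2 y hyY P hPY (by rw [h1, haP])
      exact hnot (h2 ▸ hby)
    · have h2 : z = y := hyf z hzX (by rw [h1]; exact hbyz)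
      exact hzY (h2 ▸ hyY)
  have hyP : y ≠ P := fun hh => hyY (hh ▸ hPY)
  have hF' := Exch_fam hF hPY haP hyX hyn hab hby hfirst hyY
  have hcard : (insert y (Y.erase P)).card = Y.card := by
    rw [Finset.card_insert_of_notMem (fun hh => hyY (Finset.mem_of_mem_erase hh)),
      Finset.card_erase_of_mem hPY]
    have := Finset.card_pos.2 ⟨P, hPY⟩
    omega
  have hmax' : MaxFam N K s X (insert y (Y.erase P)) := by
    intro Y'' ι'' hF''
    rw [hcard]
    exact hmax Y'' ι'' hF''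
  have hPY' : P ∉ insert y (Y.erase P) := by
    intro hh
    rcases Finset.mem_insert.1 hh with h1 | h1
    · exact hyP h1.symm
    · exact (Finset.ne_of_mem_erase h1) rfl
  have hnoP : ∀ c, ¬ Pl N K s (insert y (Y.erase P)) (fun v => if v = y then a else ι v) P c := by
    rintro c (⟨h1, _⟩ | ⟨h1, _⟩)
    · exact hPn h1
    · exact hPY' h1
  have hi' : ¬ Harm N K s X (insert y (Y.erase P)) (fun v => if v = y then a else ι v)
      (p i) (q i) := by
    rintro ⟨a', b', z', _, h2, h3, _⟩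
    rcases hP with h4 | h4
    · rw [← h4] at h2
      exact hnoP _ h2
    · rw [← h4] at h3
      exact hnoP _ h3
  -- a newly harmed pair
  obtain ⟨j, hjG, hj', hj⟩ : ∃ j ∈ G, Harm N K s X (insert y (Y.erase P))
      (fun v => if v = y then a else ι v) (p j) (q j) ∧ ¬ Harm N K s X Y ι (p j) (q j) := by
    by_contra hno
    push Not at hno
    have h1 : (G.filter (fun i => Harm N K s X (insert y (Y.erase P))
        (fun v => if v = y then a else ι v) (p i) (q i))) ⊆
        (G.filter (fun i => Harm N K s X Y ι (p i) (q i))).erase i := by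
      intro j hj
      obtain ⟨hjG, hj'⟩ := Finset.mem_filter.1 hj
      refine Finset.mem_erase.2 ⟨?_, Finset.mem_filter.2 ⟨hjG, hno j hjG hj'⟩⟩
      rintro rfl
      exact hi' hj'
    have h2 := Finset.card_le_card h1
    have h3 : i ∈ G.filter (fun i => Harm N K s X Y ι (p i) (q i)) :=
      Finset.mem_filter.2 ⟨hi, hharm⟩
    rw [Finset.card_erase_of_mem h3] at h2
    have h4 := hmin _ _ hF' hmax'
    have h5 := Finset.card_pos.2 ⟨i, h3⟩
    omega
  have hback : ∀ x c, x ≠ y →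
      Pl N K s (insert y (Y.erase P)) (fun v => if v = y then a else ι v) x c →
      Pl N K s Y ι x c := by
    rintro x c hxy (⟨h1, h2⟩ | ⟨h1, h2⟩)
    · exact Or.inl ⟨h1, h2⟩
    · rcases Finset.mem_insert.1 h1 with h3 | h3
      · exact absurd h3 hxy
      · simp only [if_neg hxy] at h2
        exact Or.inr ⟨Finset.mem_of_mem_erase h3, h2⟩
  have hplin : ∀ x c, Pl N K s Y ι x c → x ∈ Y ∨ x ∈ nb N K s := by
    rintro x c (⟨h1, _⟩ | ⟨h1, _⟩)
    · exact Or.inr h1
    · exact Or.inl h1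
  have hya : Pl N K s (insert y (Y.erase P)) (fun v => if v = y then a else ι v) y a := by
    refine Or.inr ⟨Finset.mem_insert_self _ _, ?_⟩
    simp only [if_true]
  obtain ⟨a₁, b₁, z₁, hab₁, hpa₁, hqb₁, hz₁X, hz₁Y, hz₁n, hbr₁⟩ := hj'
  have hyj : y = p j ∨ y = q j := by
    by_contra hno
    rw [not_or] at hno
    have h1 := hback _ _ (fun hh => hno.1 hh.symm) hpa₁
    have h2 := hback _ _ (fun hh => hno.2 hh.symm) hqb₁
    have hz₁ : z₁ ∈ Y := by
      by_contra hcon
      exact hj ⟨a₁, b₁, z₁, hab₁, h1, h2, hz₁X, hcon, hz₁n, hbr₁⟩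
    have hz₁P : z₁ = P := by
      by_contra hcon
      exact hz₁Y (Finset.mem_insert_of_mem (Finset.mem_erase.2 ⟨hcon, hz₁⟩))
    rw [hz₁P] at hbr₁
    rcases br_uniq h hs hab₁ hab0 hbr₁ hb0 hPn with ⟨h3, _⟩ | ⟨h3, _⟩
    · rw [← haP] at h3
      rw [← h3] at hpa₁
      exact hno.1 (pl_inj hF' hyX (hp j) hya hpa₁)
    · rw [← haP] at h3
      rw [← h3] at hqb₁
      exact hno.2 (pl_inj hF' hyX (hq j) hya hqb₁)
  refine ⟨j, hjG, y, ?_, hyY, hyn, hby⟩
  rcases hyj with h1 | h1
  · refine Or.inl ⟨h1, hplin _ _ (hback _ _ ?_ hqb₁)⟩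
    rw [h1]
    exact (hpq j j).symm
  · refine Or.inr ⟨h1, hplin _ _ (hback _ _ ?_ hpa₁)⟩
    rw [h1]
    exact hpq j j

/-- one side of the condition `R0` -/
private theorem Exch_side (h : Poly N K) {s : W} (hs : s ∈ N) {X Y : Finset W} {ι : W → W}
    (hF : Fam N K s X Y ι) {x a : W} (ha : a ∈ nb N K s) (hpl : Pl N K s Y ι x a) :
    ∀ v, v ∈ X → Br N K s a x v → v = x := by
  intro v hv hbr
  rcases hpl with ⟨_, h2⟩ | ⟨h1, h2⟩
  · rw [h2] at hbr ha
    exact Exch_same h hs (mem_nb.1 ha).2.1 (mem_nb.1 ha).2.2.1.symm hbr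
  · rw [h2] at hbr
    exact (hF.1 x h1).2.2.2 v hv hbr

open Classical in
theorem exch (h : Poly N K) {s : W} (hs : s ∈ N) {X : Finset W} (hX : X ⊆ N) (hsX : s ∉ X)
    {m : ℕ} (p q : Fin m → W) (hp : ∀ i, p i ∈ X) (hq : ∀ i, q i ∈ X)
    (hpi : ∀ i j, p i = p j → i = j) (hqi : ∀ i j, q i = q j → i = j)
    (hpq : ∀ i j, p i ≠ q j) (G : Finset (Fin m)) :
    ∃ (Y : Finset W) (ι : W → W), Fam N K s X Y ι ∧ MaxFam N K s X Y ∧
      (G.filter (fun i => Harm N K s X Y ι (p i) (q i) ∧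
        ¬ R0 N K (insert s X) s (p i) (q i))).card ≤
      (G.filter (fun i => One N K s Y (p i) (q i))).card := by
  -- a maximal family
  have hne : (X.powerset.filter (fun Y => ∃ ι : W → W, Fam N K s X Y ι)).Nonempty := by
    refine ⟨∅, Finset.mem_filter.2 ⟨Finset.empty_mem_powerset X, id, ?_, ?_⟩⟩
    · intro x hx
      exact absurd hx (Finset.notMem_empty x)
    · intro x hx
      exact absurd hx (Finset.notMem_empty x)
  obtain ⟨Y0, hY0, hmax0⟩ := Finset.exists_max_image
    (X.powerset.filter (fun Y => ∃ ι : W → W, Fam N K s X Y ι)) (fun Y => Y.card) hne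
  obtain ⟨_, ι0, hF0⟩ := Finset.mem_filter.1 hY0
  have hmax0' : MaxFam N K s X Y0 := by
    intro Y' ι' hF'
    refine hmax0 Y' (Finset.mem_filter.2 ⟨Finset.mem_powerset.2 (fun x hx => (hF'.1 x hx).1),
      ι', hF'⟩)
  -- fewest harmed pairs
  have hex : ∃ c : ℕ, ∃ (Y : Finset W) (ι : W → W), Fam N K s X Y ι ∧ MaxFam N K s X Y ∧
      (G.filter (fun i => Harm N K s X Y ι (p i) (q i))).card = c :=
    ⟨_, Y0, ι0, hF0, hmax0', rfl⟩
  obtain ⟨Y, ι, hF, hmax, hc⟩ := Nat.find_spec hex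
  have hmin : ∀ (Y' : Finset W) (ι' : W → W), Fam N K s X Y' ι' → MaxFam N K s X Y' →
      (G.filter (fun i => Harm N K s X Y ι (p i) (q i))).card ≤
        (G.filter (fun i => Harm N K s X Y' ι' (p i) (q i))).card := by
    intro Y' ι' hF' hmax'
    rw [hc]
    exact Nat.find_min' hex ⟨Y', ι', hF', hmax', rfl⟩
  refine ⟨Y, ι, hF, hmax, ?_⟩
  have hE : ∀ i ∈ G.filter (fun i => Harm N K s X Y ι (p i) (q i) ∧
      ¬ R0 N K (insert s X) s (p i) (q i)),
      ∃ j, j ∈ G ∧ ∃ a b w, VAdj N K s a b ∧ Pl N K s Y ι (p i) a ∧ Pl N K s Y ι (q i) b ∧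
        ((w = p j ∧ (q j ∈ Y ∨ q j ∈ nb N K s)) ∨ (w = q j ∧ (p j ∈ Y ∨ p j ∈ nb N K s))) ∧
        w ∉ Y ∧ w ∉ nb N K s ∧ Br N K s a b w := by
    intro i hi
    obtain ⟨hiG, hharm, hR0⟩ := Finset.mem_filter.1 hi
    obtain ⟨a, b, z, hab, hpa, hqb, hzX, hzY, hzn, hbr⟩ := id hharm
    by_cases h1 : Br N K s a b (p i)
    · by_cases h2 : Br N K s a b (q i)
      · exfalso
        apply hR0
        have hzp : z ≠ p i := by
          rintro rfl
          rcases hpa with ⟨h3, _⟩ | ⟨h3, _⟩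
          · exact hzn h3
          · exact hzY h3
        have hzq : z ≠ q i := by
          rintro rfl
          rcases hqb with ⟨h3, _⟩ | ⟨h3, _⟩
          · exact hzn h3
          · exact hzY h3
        refine ⟨a, b, z, hab, h1, h2, hbr, Finset.mem_insert_of_mem hzX, hzp, hzq, ?_, ?_⟩
        · intro v hv hbv
          rcases Finset.mem_insert.1 hv with h3 | h3
          · exact absurd h3 hbv.2.1
          · exact Exch_side h hs hF hab.1 hpa v h3 hbv
        · intro v hv hbv
          rcases Finset.mem_insert.1 hv with h3 | h3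
          · exact absurd h3 hbv.2.1
          · exact Exch_side h hs hF hab.2.1 hqb v h3 hbv
      · obtain ⟨j, hj, w, hw, hwY, hwn, hbw⟩ := Exch_step h hs p q hp hq hpq G hF hmax hmin hiG
          (Or.inr rfl) hharm (adj_symm hab) hqb hzX hzY hzn (br_comm hbr)
          (fun hh => h2 (br_comm hh))
        exact ⟨j, hj, a, b, w, hab, hpa, hqb, hw, hwY, hwn, br_comm hbw⟩
    · obtain ⟨j, hj, w, hw, hwY, hwn, hbw⟩ := Exch_step h hs p q hp hq hpq G hF hmax hmin hiG
        (Or.inl rfl) hharm hab hpa hzX hzY hzn hbr h1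
      exact ⟨j, hj, a, b, w, hab, hpa, hqb, hw, hwY, hwn, hbw⟩
  choose! f hfG hf using hE
  refine Finset.card_le_card_of_injOn f ?_ ?_
  · intro i hi
    obtain ⟨a, b, w, _, _, _, hw, hwY, hwn, _⟩ := hf i hi
    refine Finset.mem_coe.2 (Finset.mem_filter.2 ⟨hfG i hi, ?_⟩)
    rcases hw with ⟨h1, h2⟩ | ⟨h1, h2⟩
    · rw [h1] at hwY hwn
      exact Or.inl ⟨hwY, hwn, h2⟩
    · rw [h1] at hwY hwn
      exact Or.inr ⟨hwY, hwn, h2⟩
  · intro i hi i' hi' hii
    obtain ⟨a, b, w, hab, hpa, hqb, hw, hwY, hwn, hbw⟩ := hf i hi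
    obtain ⟨a', b', w', hab', hpa', hqb', hw', hwY', hwn', hbw'⟩ := hf i' hi'
    rw [← hii] at hw'
    have hww : w' = w := by
      rcases hw with ⟨h1, h2⟩ | ⟨h1, h2⟩ <;> rcases hw' with ⟨h3, h4⟩ | ⟨h3, h4⟩
      · rw [h1, h3]
      · exfalso
        rw [h1] at hwY hwn
        rcases h4 with h4 | h4
        · exact hwY h4
        · exact hwn h4
      · exfalso
        rw [h1] at hwY hwn
        rcases h4 with h4 | h4
        · exact hwY h4
        · exact hwn h4
      · rw [h1, h3]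
    rw [hww] at hbw'
    rcases br_uniq h hs hab hab' hbw hbw' hwn with ⟨h1, _⟩ | ⟨h1, _⟩
    · rw [h1] at hpa'
      exact hpi _ _ (pl_inj hF (hp i) (hp i') hpa hpa')
    · rw [h1] at hpa'
      exact absurd (pl_inj hF (hp i') (hq i) hpa' hqb) (hpq i' i)

end Pool.Agent.LPG
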