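import Pool.Agent.LPT.Rewire
import Pool.Agent.LPT.Exch

/-!
# One step at a centre which is not bad (module TStep)

`X = O.erase (s 0)`, `G = {i : Fin m | ¬ bad i.succ}`.  `exch` for `p i = s i.succ`, `q i = t i.succ` gives `(Y, ι)`; `goodY_exists` (`X.card < n + 1`) and `rewire` give `(S, e)`, `GoodY`
and the agreement property.  `Z = ZZ N K (s 0) X Y`, `bad' = nbad N K s t bad e Z`, `N' = nb N K (s 0)`, `K' = ad K (s 0)`, `O' = X.image e ∪ ∅`, `s' i = e (s i.succ)`, `t' i = e (t i.succ)`: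
`state_step`, `dim_nb`, `link2_step` (with `Vc = ∅`; `bad 0` is false).  `O'.card = X.card` since `e` is injective on `X` (disjoint `S`).

(A) If `z ∈ Z`, `VAdj (e x) (e y)`, `Br (e x) (e y) z`, `x, y ∈ X`, then `Pl Y ι x (e x)` and `Pl Y ι y (e y)`: the agreement property for `a = e x` (`b = e y`) gives `x = e x` (then `x ∈ nb`
as `e x ∈ nb`) or `x ∈ Y`, `ι x = e x`; the same for `y` with the reversed branch (`adj_symm`, `br_comm`).  (`z ∈ Z`: `z ∈ X`, `z ∉ Y`, `z ∉ nb`, from `mem_ZZ`, `InBr`.)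
So a pair `i ∈ G` with `bad' i` satisfies `Harm N K (s 0) X Y ι (s i.succ) (t i.succ)`.
(B) `J = G.filter (One ..)`.  For `j ∈ J` let `w` be the departing one of `s j.succ`, `t j.succ` (`w ∉ Y`, `w ∉ nb`).  `¬ bad' j`: otherwise, as `¬ bad j.succ`, (A) would give `Pl Y ι w _`,
impossible.  `Cl`: `GoodY.cl`.
(C) `{i | bad' i} ⊆ {i | bad i.succ} ∪ {i ∈ G | Harm, R0} ∪ {i ∈ G | Harm, ¬ R0}` with `insert (s 0) X = O`; the second set is contained in the set of `hR`, the third one has at most `J.card` elements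
by `exch`.
-/

set_option autoImplicit false

namespace Pool.Agent.LPG

variable {W : Type*} [AddCommGroup W] [Module ℝ W] {N : Finset W} {K : Submodule ℝ W}

/-- (A): near a departing token the actual places are those of the assignment. -/
private theorem ts_pl {s : W} {X Y : Finset W} {ι e : W → W}
    (hagree : ∀ z ∈ X, z ∉ Y → z ∉ nb N K s → ∀ a b, VAdj N K s a b → Br N K s a b z →
      ∀ x ∈ X, e x = a → x = a ∨ (x ∈ Y ∧ ι x = a)) {z x y : W}
    (hz : z ∈ ZZ N K s X Y) (hx : x ∈ X) (hab : VAdj N K s (e x) (e y))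
    (hbr : Br N K s (e x) (e y) z) : Pl N K s Y ι x (e x) := by
  obtain ⟨hzX, hzY, hzn, -⟩ := mem_ZZ.1 hz
  rcases hagree z hzX hzY hzn _ _ hab hbr x hx rfl with h | ⟨h, h'⟩
  · left
    refine ⟨?_, h.symm⟩
    rw [h]
    exact hab.1
  · exact Or.inr ⟨h, h'.symm⟩

open Classical in
theorem tstep {O : Finset W} {m : ℕ} {s t : Fin (m + 1) → W} {bad : Fin (m + 1) → Prop}
    (hst : State N K O s t bad) (hb : ¬ bad 0) {n : ℕ} (hn : DimGe N K (n + 1))
    (hc : O.card ≤ n + 1)
    (hR : (Finset.univ.filter (fun i : Fin m => ¬ bad i.succ ∧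
      R0 N K O (s 0) (s i.succ) (t i.succ))).card ≤ 1) :
    ∃ (N' : Finset W) (K' : Submodule ℝ W) (O' : Finset W) (s' t' : Fin m → W)
      (bad' : Fin m → Prop) (J : Finset (Fin m)), State N' K' O' s' t' bad' ∧ DimGe N' K' n ∧
      O'.card + 1 = O.card ∧
      (∀ j ∈ J, ¬ bad' j ∧ (Cl K' (O' : Set W) (s' j) ∨ Cl K' (O' : Set W) (t' j))) ∧
      (Finset.univ.filter (fun i : Fin m => bad' i)).card ≤
        (Finset.univ.filter (fun i : Fin m => bad i.succ)).card + 1 + J.card ∧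
      (Linked2 N' K' O' s' t' bad' → Linked2 N K O s t bad) := by
  have hP := hst.poly
  have hs0O : s 0 ∈ O := hst.smem 0
  have hs0 : s 0 ∈ N := hst.sub hs0O
  obtain ⟨X, hXd⟩ : ∃ X, X = O.erase (s 0) := ⟨_, rfl⟩
  have hX : X ⊆ N := by
    rw [hXd]
    exact (Finset.erase_subset _ _).trans hst.sub
  have hsX : s 0 ∉ X := by
    rw [hXd]
    exact Finset.notMem_erase _ _
  have hins : insert (s 0) X = O := by
    rw [hXd]
    exact Finset.insert_erase hs0O
  have hcard : X.card + 1 = O.card := by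
    rw [hXd]
    exact Finset.card_erase_add_one hs0O
  have hpX : ∀ i : Fin m, s i.succ ∈ X := by
    intro i
    rw [hXd]
    exact Finset.mem_erase.2 ⟨fun h => Fin.succ_ne_zero i (hst.sinj _ _ h), hst.smem _⟩
  have hqX : ∀ i : Fin m, t i.succ ∈ X := by
    intro i
    rw [hXd]
    exact Finset.mem_erase.2 ⟨fun h => hst.st _ _ h.symm, hst.tmem _⟩
  obtain ⟨Y, ι, hF, hmax, hex⟩ := exch hP hs0 hX hsX (fun i : Fin m => s i.succ)
    (fun i : Fin m => t i.succ) hpX hqX
    (fun i j h => Fin.succ_injective _ (hst.sinj _ _ h))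
    (fun i j h => Fin.succ_injective _ (hst.tinj _ _ h)) (fun i j => hst.st _ _)
    (Finset.univ.filter (fun i : Fin m => ¬ bad i.succ))
  obtain ⟨S0, e0, hG0⟩ := goodY_exists hP hs0 hX hsX hF hmax hn (by omega)
  obtain ⟨S, e, hG, hagree⟩ := rewire hP hs0 hX hsX hF hmax hG0
  have hinj : ∀ x ∈ X, ∀ y ∈ X, e x = e y → x = y := by
    intro x hx y hy h
    by_contra hne
    exact Finset.disjoint_left.1 (hG.good.disj x hx y hy hne) (hG.good.mem x hx).2.1
      (h ▸ (hG.good.mem y hy).2.1)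
  have hgood : GoodR N K (s 0) (O.erase (s 0)) ∅ S e (ZZ N K (s 0) X Y) := by
    rw [← hXd]
    exact hG.good
  have hO' : (((O.erase (s 0)).image e ∪ ∅ : Finset W) : Set W) = e '' (X : Set W) := by
    rw [Finset.union_empty, Finset.coe_image, hXd]
  -- what it means for a pair which was not bad to become bad
  have hA : ∀ i : Fin m, ¬ bad i.succ → nbad N K s t bad e (ZZ N K (s 0) X Y) i →
      Pl N K (s 0) Y ι (s i.succ) (e (s i.succ)) ∧ Pl N K (s 0) Y ι (t i.succ) (e (t i.succ)) ∧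
        Harm N K (s 0) X Y ι (s i.succ) (t i.succ) := by
    rintro i hbi ⟨hab, hor⟩
    rcases hor with hor | ⟨z, hz, hbr⟩
    · exact absurd hor hbi
    · have h1 := ts_pl hagree hz (hpX i) hab hbr
      have h2 := ts_pl hagree hz (hqX i) (adj_symm hab) (br_comm hbr)
      obtain ⟨hzX, hzY, hzn, -⟩ := mem_ZZ.1 hz
      exact ⟨h1, h2, _, _, z, hab, h1, h2, hzX, hzY, hzn, hbr⟩
  have hnoPl : ∀ x a : W, x ∉ Y → x ∉ nb N K (s 0) → ¬ Pl N K (s 0) Y ι x a := by
    rintro x a h1 h2 (⟨h, -⟩ | ⟨h, -⟩)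
    · exact h2 h
    · exact h1 h
  refine ⟨nb N K (s 0), ad K (s 0), (O.erase (s 0)).image e ∪ ∅,
    fun i => e (s i.succ), fun i => e (t i.succ), nbad N K s t bad e (ZZ N K (s 0) X Y),
    (Finset.univ.filter (fun i : Fin m => ¬ bad i.succ)).filter
      (fun i => One N K (s 0) Y (s i.succ) (t i.succ)), ?_, dim_nb hP hs0 hn, ?_, ?_, ?_, ?_⟩
  · exact state_step hst (fun h => absurd h hb) (fun _ => rfl) hgood
  · rw [Finset.union_empty, ← hXd, Finset.card_image_of_injOn, hcard]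
    intro x hx y hy h
    exact hinj x hx y hy h
  · intro j hj
    rw [Finset.mem_filter, Finset.mem_filter] at hj
    obtain ⟨⟨-, hbj⟩, hone⟩ := hj
    rcases hone with ⟨h1, h2, -⟩ | ⟨h1, h2, -⟩
    · refine ⟨fun hbad => hnoPl _ _ h1 h2 (hA j hbj hbad).1, Or.inl ?_⟩
      rw [hO']
      exact hG.cl _ (hpX j) h1 h2
    · refine ⟨fun hbad => hnoPl _ _ h1 h2 (hA j hbj hbad).2.1, Or.inr ?_⟩
      rw [hO']
      exact hG.cl _ (hqX j) h1 h2
  · rw [hins] at hex
    refine le_trans ?_ (Nat.add_le_add (Nat.add_le_add_left hR _) hex)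
    refine le_trans (Finset.card_le_card ?_) ((Finset.card_union_le _ _).trans
      (Nat.add_le_add_right (Finset.card_union_le _ _) _))
    intro i hi
    rw [Finset.mem_filter] at hi
    by_cases hbi : bad i.succ
    · exact Finset.mem_union_left _ (Finset.mem_union_left _
        (Finset.mem_filter.2 ⟨Finset.mem_univ _, hbi⟩))
    · have h1 := (hA i hbi hi.2).2.2
      by_cases h2 : R0 N K O (s 0) (s i.succ) (t i.succ)
      · exact Finset.mem_union_left _ (Finset.mem_union_right _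
          (Finset.mem_filter.2 ⟨Finset.mem_univ _, hbi, h2⟩))
      · exact Finset.mem_union_right _ (Finset.mem_filter.2
          ⟨Finset.mem_filter.2 ⟨Finset.mem_univ _, hbi⟩, h1, h2⟩)
  · exact link2_step hst (fun h => absurd h hb) (fun _ => rfl) hgood

end Pool.Agent.LPG
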