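import Pool.Agent.LPT.Perm
import Pool.Agent.LPZ.ZStep

/-!
# Several zero-cost steps (module ZChain)

Induction on `h`.  `h = 0`: `J` is not needed, apply the last hypothesis with `m' = m`, `n' = n` and the state itself.  Step `h + 1`: `J` is not empty, so `O.card + 1 ≤ n`, and `m = m₁ + 1`
(`Fin m` is not empty), `n = n₁ + 1`, `O.card ≤ n₁`.  Take `j ∈ J`; `move_zero` with `c'` = the one of `s j`, `t j` which is a coloop; `zstep` gives a state with `m₁` pairs and
`DimGe N' K' n₁`, `O'.card + 1 = O.card`.  `J' = {i : Fin m₁ | σ i.succ ∈ J}` has `J.card - 1` elements (`σ 0 = j`, `σ` is bijective); for `i ∈ J'`: `¬ bad'' i` since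
`bad'' i → bad' i.succ ↔ bad (σ i.succ)`; a coloop by the last two properties of `zstep` and `s' i.succ = s (σ i.succ)`, `t' i.succ = t (σ i.succ)`.  Number of bad pairs:
`i ↦ σ i.succ` is injective.  `O'.card + 1 ≤ n₁`.  For the last hypothesis: `m' + h = m₁`, `O''.card + n₁ = O'.card + n''` and `O'.card + 1 = O.card`, `n = n₁ + 1` give the one for `n`, `O`.
-/

set_option autoImplicit false

namespace Pool.Agent.LPG

variable {W : Type*} [AddCommGroup W] [Module ℝ W]

open Classical in
theorem zchain : ∀ (h m : ℕ) (N : Finset W) (K : Submodule ℝ W) (O : Finset W)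
    (s t : Fin m → W) (bad : Fin m → Prop) (n : ℕ) (J : Finset (Fin m)),
    State N K O s t bad → DimGe N K n → J.card = h → (h = 0 ∨ O.card + 1 ≤ n) →
    (∀ j ∈ J, ¬ bad j ∧ (Cl K (O : Set W) (s j) ∨ Cl K (O : Set W) (t j))) →
    (∀ (m' : ℕ) (N' : Finset W) (K' : Submodule ℝ W) (O' : Finset W) (s' t' : Fin m' → W)
      (bad' : Fin m' → Prop) (n' : ℕ), m' + h = m → State N' K' O' s' t' bad' →
      DimGe N' K' n' → O'.card + n = O.card + n' →
      (Finset.univ.filter (fun i : Fin m' => bad' i)).card ≤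
        (Finset.univ.filter (fun i : Fin m => bad i)).card →
      Linked2 N' K' O' s' t' bad') →
    Linked2 N K O s t bad := by
  intro h
  induction h with
  | zero =>
    intro m N K O s t bad n J hst hn _ _ _ hfin
    exact hfin m N K O s t bad n rfl hst hn rfl le_rfl
  | succ h ih =>
    intro m N K O s t bad n J hst hn hJ hor hJcl hfin
    have hcard : O.card + 1 ≤ n := by
      rcases hor with h1 | h1
      · exact absurd h1 (Nat.succ_ne_zero h)
      · exact h1
    obtain ⟨j, hj⟩ : J.Nonempty := by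
      rw [← Finset.card_pos, hJ]
      omega
    obtain ⟨m1, rfl⟩ : ∃ m1, m = m1 + 1 := ⟨m - 1, by have := j.2; omega⟩
    obtain ⟨n1, rfl⟩ : ∃ n1, n = n1 + 1 := ⟨n - 1, by omega⟩
    obtain ⟨hbj, hclj⟩ := hJcl j hj
    obtain ⟨c, c', hcc, hc'⟩ : ∃ c c', ((c = s j ∧ c' = t j) ∨ (c = t j ∧ c' = s j)) ∧
        Cl K (O : Set W) c' := by
      rcases hclj with h1 | h1
      · exact ⟨t j, s j, Or.inr ⟨rfl, rfl⟩, h1⟩
      · exact ⟨s j, t j, Or.inl ⟨rfl, rfl⟩, h1⟩
    obtain ⟨s', t', bad', σ, hst', hσ0, _, ht0, hbad', hst'', hlink⟩ := move_zero hst j hcc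
    apply hlink
    have hb0 : ¬ bad' 0 := by
      rw [hbad' 0, hσ0]
      exact hbj
    obtain ⟨N2, K2, O2, s2, t2, bad2, hst2, hdim2, hcard2, hbad2, hcs, hct, hlink2⟩ :=
      zstep hst' hb0 (by rw [ht0]; exact hc') hn (by omega)
    apply hlink2
    have hinj : Function.Injective (fun i : Fin m1 => σ i.succ) := fun a b hab =>
      Fin.succ_injective _ (σ.injective hab)
    refine ih m1 N2 K2 O2 s2 t2 bad2 n1 (Finset.univ.filter fun i : Fin m1 => σ i.succ ∈ J) hst2
      hdim2 ?_ (Or.inr (by omega)) ?_ ?_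
    · have himg : (Finset.univ.filter fun i : Fin m1 => σ i.succ ∈ J).image
          (fun i : Fin m1 => σ i.succ) = J.erase j := by
        ext x
        simp only [Finset.mem_image, Finset.mem_filter, Finset.mem_univ, true_and,
          Finset.mem_erase]
        constructor
        · rintro ⟨i, hi, rfl⟩
          refine ⟨fun h1 => ?_, hi⟩
          rw [← hσ0] at h1
          exact Fin.succ_ne_zero i (σ.injective h1)
        · rintro ⟨hxj, hxJ⟩
          have hne : σ.symm x ≠ 0 := by
            intro h1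
            apply hxj
            rw [← hσ0, ← h1, Equiv.apply_symm_apply]
          obtain ⟨i, hi⟩ := Fin.exists_succ_eq.2 hne
          refine ⟨i, ?_, ?_⟩
          · rw [hi, Equiv.apply_symm_apply]
            exact hxJ
          · rw [hi, Equiv.apply_symm_apply]
      rw [← Finset.card_image_of_injective _ hinj, himg, Finset.card_erase_of_mem hj, hJ]
      rfl
    · intro i hi
      rw [Finset.mem_filter] at hi
      obtain ⟨h1, h2⟩ := hJcl _ hi.2
      refine ⟨fun h3 => h1 ((hbad' _).1 (hbad2 i h3)), ?_⟩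
      obtain ⟨h4, h5⟩ := hst'' i.succ (Fin.succ_ne_zero i)
      rcases h2 with h2 | h2
      · left
        apply hcs
        rw [h4]
        exact h2
      · right
        apply hct
        rw [h5]
        exact h2
    · intro m' N' K' O' s3 t3 bad3 n' hm hst3 hn3 hc3 hb3
      refine hfin m' N' K' O' s3 t3 bad3 n' (by omega) hst3 hn3 (by omega) (hb3.trans ?_)
      refine Finset.card_le_card_of_injOn (fun i : Fin m1 => σ i.succ) ?_ hinj.injOn
      intro i hi
      rw [Finset.mem_coe, Finset.mem_filter] at hi ⊢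
      exact ⟨Finset.mem_univ _, (hbad' _).1 (hbad2 i hi.2)⟩

end Pool.Agent.LPG
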