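import Pool.Agent.LPT.Avg
import Pool.Agent.LPT.TStep
import Pool.Agent.LPT.ZChain

/-!
# The induction (module Core3)

Strong induction on `m`; `b` = number of bad pairs; hypothesis `m + b + 2 |O| ≤ 2 n + 1`.  `m = 0`: trivial (`lm` with `m = 0`).  Let `m = m₁ + 1`.
* All pairs are bad: `b = m`, so `2 m + 2 |O| ≤ 2 n + 1`, `|O| + m ≤ n`: `lm`.
* There is `j` with `¬ bad j` and `Adj N K (s j) (t j)`: `move_zero` (`c = s j`), `edge_step`, and the induction hypothesis for `state_tail` (`m₁` pairs, not more bad pairs).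
* Otherwise `G = {i | ¬ bad i}` is not empty and has no adjacent pair.  `avg` gives `i ∈ G` and `c`; `move_zero` with this `c` (so `s' 0 = c`, `σ 0 = i`).  `i' ↦ σ i'.succ` maps
`{i' : Fin m₁ | ¬ bad' i'.succ ∧ R0 O c (s' i'.succ) (t' i'.succ)}` injectively into `G.filter (R0 ..)`, so `hR` is true.  `n = n₁ + 1` (`|O| ≥ 2` since `s 0 ≠ t 0` are in `O`, so `n ≥ 2`), `|O| ≤ n` (`m ≥ 1`).  `tstep` gives a state with
`m₁` pairs, `n₁`, `|O'| + 1 = |O|`, `J`, `b' ≤ b + 1 + |J|`.  `zchain` with `h = |J|`: if `|J| ≥ 1` then `m₁ ≥ 1`, `2 |O| + 2 ≤ 2 n + 1`, so `|O'| + 1 = |O| ≤ n₁`.  The states at the end have `m' + |J| = m₁`,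
`b'' ≤ b' ≤ b + 1 + |J|`, `|O''| + n₁ = |O'| + n''`: `m' + b'' + 2 |O''| ≤ m₁ + 1 + b + 2 |O| - 2 n + 2 n'' ≤ 2 n'' + 1`, and `m' < m`: induction hypothesis.
-/

set_option autoImplicit false

namespace Pool.Agent.LPG

variable {W : Type*} [AddCommGroup W] [Module ℝ W]

open Classical in
private theorem core3_card {m : ℕ} {bad bad' : Fin (m + 1) → Prop}
    (σ : Equiv.Perm (Fin (m + 1))) (h : ∀ i, bad' i ↔ bad (σ i)) :
    (Finset.univ.filter (fun i : Fin m => bad' i.succ)).card ≤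
      (Finset.univ.filter (fun i : Fin (m + 1) => bad i)).card := by
  refine Finset.card_le_card_of_injOn (fun i => σ i.succ) ?_ ?_
  · intro i hi
    have h1 : bad' i.succ := (Finset.mem_filter.1 hi).2
    exact Finset.mem_filter.2 ⟨Finset.mem_univ _, (h _).1 h1⟩
  · intro i _ j _ hij
    exact Fin.succ_injective _ (σ.injective hij)

open Classical in
theorem core3 : ∀ (m : ℕ) (N : Finset W) (K : Submodule ℝ W) (O : Finset W)
    (s t : Fin m → W) (bad : Fin m → Prop) (n : ℕ), State N K O s t bad → DimGe N K n →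
    m + (Finset.univ.filter (fun i : Fin m => bad i)).card + 2 * O.card ≤ 2 * n + 1 →
    Linked2 N K O s t bad := by
  intro m
  induction m using Nat.strong_induction_on with
  | _ m ih =>
  intro N K O s t bad n hst hn hc
  rcases Nat.eq_zero_or_pos m with hm0 | hmpos
  · exact lm m N K O s t bad n hst hn (Or.inl hm0)
  obtain ⟨m₁, rfl⟩ : ∃ m₁, m = m₁ + 1 := ⟨m - 1, by omega⟩
  by_cases hall : ∀ i, bad i
  · have hb : (Finset.univ.filter (fun i : Fin (m₁ + 1) => bad i)).card = m₁ + 1 := by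
      rw [Finset.filter_true_of_mem (fun i _ => hall i), Finset.card_univ, Fintype.card_fin]
    rw [hb] at hc
    exact lm (m₁ + 1) N K O s t bad n hst hn (Or.inr (by omega))
  by_cases hadj : ∃ j, ¬ bad j ∧ Adj N K (s j) (t j)
  · obtain ⟨j, hbj, haj⟩ := hadj
    obtain ⟨s', t', bad', σ, hst', hσ, hs0, ht0, hbad, _, hL⟩ :=
      move_zero hst j (c := s j) (c' := t j) (Or.inl ⟨rfl, rfl⟩)
    have hb0 : ¬ bad' 0 := by
      rw [hbad 0, hσ]; exact hbj
    have ha0 : Adj N K (s' 0) (t' 0) := by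
      rw [hs0, ht0]; exact haj
    have hcard := core3_card σ hbad
    exact hL (edge_step hst' hb0 ha0
      (ih m₁ (Nat.lt_succ_self _) N K O _ _ _ n (state_tail hst') hn (by omega)))
  · push Not at hadj hall
    obtain ⟨j₀, hj₀⟩ := hall
    have hGne : (Finset.univ.filter (fun i : Fin (m₁ + 1) => ¬ bad i)).Nonempty :=
      ⟨j₀, Finset.mem_filter.2 ⟨Finset.mem_univ _, hj₀⟩⟩
    obtain ⟨i, hiG, c, hci, hR⟩ := avg hst.poly hst.sub s t hst.smem hst.tmem hst.sinj hst.tinj
      hst.st _ hGne (fun i hi => hadj i (Finset.mem_filter.1 hi).2)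
    have hbi : ¬ bad i := (Finset.mem_filter.1 hiG).2
    obtain ⟨c', hcc⟩ : ∃ c', (c = s i ∧ c' = t i) ∨ (c = t i ∧ c' = s i) := by
      rcases hci with h | h
      · exact ⟨t i, Or.inl ⟨h, rfl⟩⟩
      · exact ⟨s i, Or.inr ⟨h, rfl⟩⟩
    obtain ⟨s', t', bad', σ, hst', hσ, hs0, ht0, hbad, hst0, hL⟩ := move_zero hst i hcc
    have hb0 : ¬ bad' 0 := by
      rw [hbad 0, hσ]; exact hbi
    have hR' : (Finset.univ.filter (fun i : Fin m₁ => ¬ bad' i.succ ∧
        R0 N K O (s' 0) (s' i.succ) (t' i.succ))).card ≤ 1 := by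
      refine le_trans (Finset.card_le_card_of_injOn (fun i => σ i.succ) ?_ ?_) hR
      · intro l hl
        obtain ⟨h1, h2⟩ := (Finset.mem_filter.1 hl).2
        have h3 := hst0 l.succ (Fin.succ_ne_zero l)
        rw [hs0, h3.1, h3.2] at h2
        rw [hbad l.succ] at h1
        exact Finset.mem_filter.2 ⟨Finset.mem_filter.2 ⟨Finset.mem_univ _, h1⟩, h2⟩
      · intro a _ b _ hab
        exact Fin.succ_injective _ (σ.injective hab)
    have hO2 : 2 ≤ O.card := by
      have h1 : ({s 0, t 0} : Finset W) ⊆ O := by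
        intro x hx
        rcases Finset.mem_insert.1 hx with h | h
        · rw [h]; exact hst.smem 0
        · rw [Finset.mem_singleton.1 h]; exact hst.tmem 0
      have h2 : ({s 0, t 0} : Finset W).card = 2 := Finset.card_pair (hst.st 0 0)
      rw [← h2]
      exact Finset.card_le_card h1
    obtain ⟨n₁, rfl⟩ : ∃ n₁, n = n₁ + 1 := ⟨n - 1, by omega⟩
    obtain ⟨N', K', O', s'', t'', bad'', J, hst'', hn'', hO', hJ, hcb, hL'⟩ :=
      tstep hst' hb0 hn (by omega) hR'
    have hcard := core3_card σ hbad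
    refine hL (hL' (zchain J.card m₁ N' K' O' s'' t'' bad'' n₁ J hst'' hn'' rfl ?_ hJ ?_))
    · rcases Nat.eq_zero_or_pos J.card with h0 | h0
      · exact Or.inl h0
      · right
        have h1 : J.card ≤ m₁ := by
          have := Finset.card_le_univ J
          rwa [Fintype.card_fin] at this
        omega
    · intro m' N₂ K₂ O₂ s₂ t₂ bad₂ n₂ hm' hst₂ hn₂ hO₂ hcb₂
      exact ih m' (by omega) N₂ K₂ O₂ s₂ t₂ bad₂ n₂ hst₂ hn₂ (by omega)

end Pool.Agent.LPG
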