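import Pool.Agent.LPG.Defs

/-!
# Elongation of a rank function (module Elong)

`F ↦ min (|F ∩ T|) (r (F ∩ T) + q)` is a rank function (the union of the matroid of `r` on `T` with the uniform matroid of
rank `q`).  `empty`, `mono`, `insert_le`: from the same properties of both terms (`insert v A ∩ T` is `A ∩ T` or
`insert v (A ∩ T)`).  `submod`: put `A' = A ∩ T`, `B' = B ∩ T`; `(A ∪ B) ∩ T = A' ∪ B'`, `(A ∩ B) ∩ T = A' ∩ B'`.  If the minimum
at `A` and the minimum at `B` are both attained by the first term, use `Finset.card_union_add_card_inter`; both by the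
second: `hr.submod`.  First term at `A`, second at `B`: `r (A' ∪ B') ≤ r B' + |A' \ B'|` (`rk_union`, induction with
`insert_le`), so `r (A' ∪ B') + q + |A' ∩ B'| ≤ r B' + q + |A'|`.
-/

set_option autoImplicit false

namespace Pool.Agent.LPG

variable {V : Type*} [DecidableEq V]

private theorem elong_aux {r : Finset V → ℕ} (hr : IsRk r) (B C : Finset V) :
    r (C ∪ B) ≤ C.card + r B := by
  induction C using Finset.induction_on with
  | empty => simp
  | insert a C ha ih =>
    rw [Finset.insert_union, Finset.card_insert_of_notMem ha]
    have h := hr.insert_le a (C ∪ B)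
    omega

theorem rk_union {r : Finset V → ℕ} (hr : IsRk r) (A B : Finset V) :
    r (A ∪ B) ≤ (A \ B).card + r B := by
  rw [← Finset.sdiff_union_self_eq_union]
  exact elong_aux hr B (A \ B)

theorem isRk_elong {r : Finset V → ℕ} (hr : IsRk r) (T : Finset V) (q : ℕ) :
    IsRk (fun F => min (F ∩ T).card (r (F ∩ T) + q)) where
  empty := by simp
  mono := by
    intro A B hAB
    have h0 : A ∩ T ⊆ B ∩ T := Finset.inter_subset_inter_right hAB
    exact min_le_min (Finset.card_le_card h0) (Nat.add_le_add_right (hr.mono _ _ h0) q)
  insert_le := by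
    intro v A
    by_cases hv : v ∈ T
    · have e : insert v A ∩ T = insert v (A ∩ T) := Finset.insert_inter_of_mem hv
      simp only [e]
      have h1 := Finset.card_insert_le v (A ∩ T)
      have h2 := hr.insert_le v (A ∩ T)
      omega
    · have e : insert v A ∩ T = A ∩ T := Finset.insert_inter_of_notMem hv
      simp only [e]
      omega
  submod := by
    intro A B
    have e1 : (A ∪ B) ∩ T = (A ∩ T) ∪ (B ∩ T) := Finset.union_inter_distrib_right A B T
    have e2 : (A ∩ B) ∩ T = (A ∩ T) ∩ (B ∩ T) := Finset.inter_inter_distrib_right A B T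
    simp only [e1, e2]
    generalize A ∩ T = A'
    generalize B ∩ T = B'
    have h1 := Finset.card_union_add_card_inter A' B'
    have h2 := hr.submod A' B'
    have h3 := rk_union hr A' B'
    have h4 := rk_union hr B' A'
    rw [Finset.union_comm B' A'] at h4
    have h5 := Finset.card_sdiff_add_card_inter A' B'
    have h6 := Finset.card_sdiff_add_card_inter B' A'
    rw [Finset.inter_comm B' A'] at h6
    omega

end Pool.Agent.LPG
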