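import Pool.Agent.LPT.Klr

/-!
# Good routings for a maximal family (module FamZ)

`fam_occ`: the argument is in the proof of `occ` in `good_of_sys` (Good): let `a ∉ X`.  `closest` gives `y ∈ X`, `y ∉ nb N K s`, `Br N K s a b y`, no
other element of `X` between `a` and `y`, and `Br N K s b y z`.  Case `y ∈ Y`: its branch is that of `a b` (`br_uniq`), so `ι y = a` (done)
or `ι y = b`; then `z = y` by the last condition of `Fam`, contradiction to `z ∉ Y`.  Case `y ∉ Y`: if `ι x = a` for some `x ∈ Y`, done.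
Otherwise `(insert y Y, ι')` with `ι' y = a`, `ι' = ι` on `Y`, is a family with more elements, contradiction.

`goodY_exists`: `fam_seg` (with `Vc = ∅`) and `klr` give `(S, e)`; `fam`: `sys_own` for the elements of `Y` (every `x ∈ Y` has a branch
by `Fam` for `ι`; `e x` is one of its ends, and there is no other token between), injectivity because the `S x` are disjoint.  `good`: as in
`good_of_sys`, with the set `ZZ N K s X Y`; `occ` from `fam_occ` for the family `(Y, e)`.
-/

set_option autoImplicit false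

namespace Pool.Agent.LPG

variable {W : Type*} [AddCommGroup W] [Module ℝ W] {N : Finset W} {K : Submodule ℝ W}

theorem mem_ZZ {s : W} {X Y : Finset W} {x : W} :
    x ∈ ZZ N K s X Y ↔ x ∈ X ∧ x ∉ Y ∧ InBr N K s x := by
  classical
  unfold ZZ
  rw [Finset.mem_filter]

theorem fam_occ (h : Poly N K) {s : W} (hs : s ∈ N) {X Y : Finset W} {ι : W → W}
    (hF : Fam N K s X Y ι) (hmax : MaxFam N K s X Y) {z a b : W} (hz : z ∈ X) (hzY : z ∉ Y)
    (hzn : z ∉ nb N K s) (hab : VAdj N K s a b) (hbr : Br N K s a b z) :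
    a ∈ X ∨ ∃ y ∈ Y, ι y = a := by
  classical
  by_cases haX : a ∈ X
  · exact Or.inl haX
  · right
    obtain ⟨y, hyX, hby, hyn, hfirst, hbyz⟩ := closest h hs hab X hz hbr hzn haX
    by_cases hyY : y ∈ Y
    · obtain ⟨_, _, ⟨b0, hab0, hby0⟩, h2⟩ := hF.1 y hyY
      rcases br_uniq h hs hab hab0 hby hby0 hyn with ⟨h1, _⟩ | ⟨h1, _⟩
      · exact ⟨y, hyY, h1⟩
      · exfalso
        rw [h1] at h2
        exact hzY ((h2 z hz hbyz) ▸ hyY)
    · by_contra hex
      have hFam : Fam N K s X (insert y Y) (fun v => if v = y then a else ι v) := by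
        constructor
        · intro x hx
          rcases Finset.mem_insert.1 hx with rfl | hxY
          · simp only [if_true]
            exact ⟨hyX, hyn, ⟨b, hab, hby⟩, hfirst⟩
          · have hne : x ≠ y := fun hh => hyY (hh ▸ hxY)
            simp only [if_neg hne]
            exact hF.1 x hxY
        · intro x hx x' hx' hxx'
          rcases Finset.mem_insert.1 hx with rfl | hxY
          · rcases Finset.mem_insert.1 hx' with rfl | hxY'
            · rfl
            · have hne : x' ≠ x := fun hh => hyY (hh ▸ hxY')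
              simp only [if_true, if_neg hne] at hxx'
              exact absurd ⟨x', hxY', hxx'.symm⟩ hex
          · have hne : x ≠ y := fun hh => hyY (hh ▸ hxY)
            rcases Finset.mem_insert.1 hx' with rfl | hxY'
            · simp only [if_true, if_neg hne] at hxx'
              exact absurd ⟨x, hxY, hxx'⟩ hex
            · have hne' : x' ≠ y := fun hh => hyY (hh ▸ hxY')
              simp only [if_neg hne, if_neg hne'] at hxx'
              exact hF.2 x hxY x' hxY' hxx'
      have h1 := hmax _ _ hFam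
      rw [Finset.card_insert_of_notMem hyY] at h1
      omega

theorem goodY_exists (h : Poly N K) {s : W} (hs : s ∈ N) {X Y : Finset W} {ι : W → W}
    (hX : X ⊆ N) (hsX : s ∉ X) (hF : Fam N K s X Y ι) (hmax : MaxFam N K s X Y) {n : ℕ}
    (hn : DimGe N K n) (hc : X.card < n) :
    ∃ (S : W → Finset W) (e : W → W), GoodY N K s X Y S e := by
  classical
  obtain ⟨Seg, hS, hd⟩ := fam_seg h hs (Finset.empty_subset X) hF
  obtain ⟨S, e, hSys, hcl⟩ := klr h hs X Y hX hsX
    (fun x hx => ⟨(hF.1 x hx).1, (hF.1 x hx).2.1⟩) Seg hS hd hn hc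
  have hFe : Fam N K s X Y e := by
    constructor
    · intro x hxY
      obtain ⟨hxX, hxn, ⟨b0, hab0, hbx0⟩, _⟩ := hF.1 x hxY
      obtain ⟨_, h1, h2⟩ := sys_own h hs hSys hxX hxY hxn hab0 hbx0
      refine ⟨hxX, hxn, ?_, h2⟩
      rcases h1 with h1 | h1
      · rw [h1]
        exact ⟨b0, hab0, hbx0⟩
      · rw [h1]
        exact ⟨ι x, adj_symm hab0, br_comm hbx0⟩
    · intro x hxY x' hxY' hxx'
      by_contra hcon
      have hxX := (hF.1 x hxY).1
      have hxX' := (hF.1 x' hxY').1
      have hd := hSys.1 x hxX x' hxX' hcon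
      have h1 := (hSys.2 x hxX).2.1
      have h2 := (hSys.2 x' hxX').2.1
      rw [← hxx'] at h2
      exact (Finset.disjoint_left.1 hd) h1 h2
  refine ⟨S, e, ⟨?_, hFe, hcl⟩⟩
  refine ⟨hSys.1, fun x hx => ?_, fun x hx v hv => ?_, fun x hx v hv => ?_, fun z hz => ?_,
    fun x hx v hv a b hab hbr => ?_, fun z hz a b hab hbr => ?_⟩
  · obtain ⟨h1, h2, h3, h4, _⟩ := hSys.2 x hx
    exact ⟨h1, h2, h3, h4⟩
  · obtain ⟨h1, h2, h3, h4, h5⟩ := hSys.2 x hx
    exact ⟨(h5 v hv).1, (h5 v hv).2.1, fun hvn => sys_nb hSys hx hv hvn⟩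
  · obtain ⟨h1, h2, h3, h4, h5⟩ := hSys.2 x hx
    refine Relation.ReflTransGen.mono (fun p q hpq => ?_) _ _ (h5 v hv).2.2.1
    exact ⟨hpq.1.1, hpq.2.1, hpq.2.2.1⟩
  · have hz' := mem_ZZ.1 hz
    exact ⟨hz'.1, hz'.2.2.1⟩
  · rcases sys_br h hs hSys hx hv hab hbr with h1 | h1 | ⟨h1, h2, h3⟩
    · exact Or.inl h1
    · exact Or.inr (Or.inl h1)
    · refine Or.inr (Or.inr ⟨h1, ?_⟩)
      rcases h3 with h3 | h3
      · exact Or.inr h3
      · left
        rw [h1] at hbr
        exact mem_ZZ.2 ⟨hx, h2, h3, a, b, hab, hbr⟩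
  · obtain ⟨hzX, hzY, hzn, _⟩ := mem_ZZ.1 hz
    rcases fam_occ h hs hFe hmax hzX hzY hzn hab hbr with h1 | ⟨y, hyY, hya⟩
    · exact Or.inl h1
    · exact Or.inr ⟨y, (hF.1 y hyY).1, fun hh => (mem_ZZ.1 hh).2.1 hyY, hya⟩

end Pool.Agent.LPG
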