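import Pool.Agent.LPT.TDefs
import Pool.Agent.LPT.Elong
import Pool.Agent.LPG.RkLin
import Pool.Agent.LPT.Coloop

/-!
# Routings of maximal rank: the unrestricted tokens get coloops (module Klr)

Same hypotheses as `kl` (with `Vc = ∅`).  Let `T = nb N K s`, `r F = rkl (ad K s) T F` (so `r F = r (F ∩ T)`), `E` the arcs
`Arc2 N K s (Fre N K s X ∅ Y)` in `N ×ˢ N` (as in `kl`).  Call `(C, F)` a separator if `Av E C x v` implies `v ∈ F` for all `x ∈ X`.

(1) `X.card ≤ C.card + (F ∩ T).card` for every separator: take the system `(S, e)` of `kl`; if `S x` does not meet `C`, then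
`e x ∈ F ∩ T`; the map `x ↦` (an element of `S x ∩ C`, or `e x ∈ F ∩ T`) from `X` to the disjoint sum is injective (the `S x` are
disjoint).
(2) Let `q` be the least number (`Nat.find`; `q = X.card` is possible) with `X.card ≤ C.card + (r F + q)` for all separators.
By (1) and the choice of `q` the hypothesis of `mr` is true for `ρ F = min (F ∩ T).card (r (F ∩ T) + q)` (`isRk_elong`) and
`k = X.card`.  So there are disjoint paths from `X` (all of `X`, as in `kl`) with ends `e x`, `ρ (image e) = X.card`: all ends are in `T`,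
different, and `r (X.image e) + q ≥ X.card`.  Reindexing and the conversion to `Sys` as at the end of the proof of `kl`.
(3) Coloops.  Let `x ∈ X`, `x ∉ Y`, `x ∉ nb`, so `x ∈ Fre N K s X ∅ Y`, and suppose that `e x` is in the span of `ad K s` and the other
elements of `e '' X`.  Then `r (X.image e) = r ((X.erase x).image e)`.  If `q = 0` this is `≤ X.card - 1`, contradiction.
Let `q = q' + 1`.  By minimality there is a separator `(C, F)` with `C.card + r F + q' < X.card`, so `C.card + r F + q ≤ X.card ≤ r (X.image e) + q`,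
that is `C.card + r F ≤ r (X.image e)`.
(3a) `x ∈ C`: otherwise (as in `kl`) let `I ⊆ F ∩ T` be a basis (`exists_basis`, `I.card = r F`, so `F ∩ T ⊆ ad K s ⊔ span I`),
`U = K ⊔ span (insert s (C ∪ I))`, `(insert s (C ∪ I)).card ≤ 1 + C.card + r F ≤ X.card < n`; so `x` or a neighbour `x₁` of `x` is not in `U` (`gen`),
`φ` zero on `U`, `φ x₁ > 0`; `exit` gives a walk from `x₁` in `φ > 0` to `u ∈ nb N K s`, `φ u > 0`; it avoids `C`, so `u ∈ F ∩ T ⊆ U`,
contradiction.  (`x → x₁` is an arc since `x ∈ Fre`.)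
(3b) Let `X1` be the set of the `y ∈ X` whose `S y` meets `C` (so `x ∈ X1` and `X1.card ≤ C.card`); `e y ∈ F ∩ T` for `y ∈ X \ X1`.  Then
`r (X.image e) = r ((X.erase x).image e) ≤ (X1.card - 1) + r F < C.card + r F`, contradiction.
-/

set_option autoImplicit false

namespace Pool.Agent.LPG

variable {W : Type*} [AddCommGroup W] [Module ℝ W] {N : Finset W} {K : Submodule ℝ W}

theorem klr (h : Poly N K) {s : W} (hs : s ∈ N) (X Y : Finset W) (hX : X ⊆ N) (hsX : s ∉ X)
    (hY : ∀ x ∈ Y, x ∈ X ∧ x ∉ nb N K s)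
    (Seg : W → Finset W)
    (hS : ∀ x ∈ Y, (∀ v ∈ X, v ∈ Seg x → v = x) ∧ x ∈ Seg x ∧ ∃ u ∈ nb N K s,
      u ∉ (∅ : Finset W) ∧
      Relation.ReflTransGen (fun p q => Arc2 N K s ∅ p q ∧ p ∈ Seg x ∧ q ∈ Seg x) x u)
    (hd : ∀ x ∈ Y, ∀ y ∈ Y, x ≠ y → Disjoint (Seg x) (Seg y)) {n : ℕ} (hn : DimGe N K n)
    (hc : X.card < n) :
    ∃ (S : W → Finset W) (e : W → W), Sys N K s (Fre N K s X ∅ Y) X ∅ S e ∧
      ∀ x ∈ X, x ∉ Y → x ∉ nb N K s → Cl (ad K s) (e '' (X : Set W)) (e x) := by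
  obtain ⟨S, e, hSys, hcl⟩ := kl_cl h hs X Y hX hsX hY Seg hS hd hn hc
  exact ⟨S, e, hSys, fun x hx hxY hxn => hcl x ⟨hx, hxY, fun hh => absurd hh hxn⟩⟩

end Pool.Agent.LPG
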