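import Pool.Agent.LPT.Core3
import Pool.Agent.LPG.Main2

/-!
# The lower bound `k(d) ≥ ⌊(2d + 3) / 5⌋` (module Main3)

As `theoremII` in `Main2`, with `core3` instead of `core2`: `m = k`, `n = d + 1` (`dim_hom`), `O` the set of the `hom (s i)`, `hom (t i)`, `O.card ≤ 2 k`, no bad pairs (`bad = fun _ => False`):
`k + 0 + 4 k ≤ 2 (d + 1) + 1`.  `link2_graph`.
-/

set_option autoImplicit false

namespace Pool.Agent.LPG

theorem theoremIII {d : ℕ} (V : Finset (Eu d)) (hV : ConvexPos V)
    (hd : affineSpan ℝ (V : Set (Eu d)) = ⊤) {k : ℕ} (hk : 5 * k ≤ 2 * d + 3) :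
    IsKLinked (polyGraph V) k := by
  classical
  intro s t hst
  have hs : Function.Injective (fun i => hom (s i : Eu d)) := by
    intro i j hij
    have h1 : s i = s j := Subtype.ext (hom_inj hij)
    exact Sum.inl_injective (hst (a₁ := Sum.inl i) (a₂ := Sum.inl j) h1)
  have ht : Function.Injective (fun i => hom (t i : Eu d)) := by
    intro i j hij
    have h1 : t i = t j := Subtype.ext (hom_inj hij)
    exact Sum.inr_injective (hst (a₁ := Sum.inr i) (a₂ := Sum.inr j) h1)
  have hne : ∀ i j, hom (s i : Eu d) ≠ hom (t j : Eu d) := by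
    intro i j hij
    have h1 : s i = t j := Subtype.ext (hom_inj hij)
    exact Sum.inl_ne_inr (hst (a₁ := Sum.inl i) (a₂ := Sum.inr j) h1)
  have hO : ((Finset.univ.image (fun i => hom (s i : Eu d))) ∪
      (Finset.univ.image (fun i => hom (t i : Eu d)))).card ≤ 2 * k := by
    refine (Finset.card_union_le _ _).trans ?_
    have h1 : (Finset.univ.image (fun i => hom (s i : Eu d))).card ≤ k :=
      Finset.card_image_le.trans (by rw [Finset.card_univ, Fintype.card_fin])
    have h2 : (Finset.univ.image (fun i => hom (t i : Eu d))).card ≤ k :=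
      Finset.card_image_le.trans (by rw [Finset.card_univ, Fintype.card_fin])
    omega
  have hstate : State (V.map (homE d)) ⊥ ((Finset.univ.image (fun i => hom (s i : Eu d))) ∪
      (Finset.univ.image (fun i => hom (t i : Eu d)))) (fun i => hom (s i : Eu d))
      (fun i => hom (t i : Eu d)) (fun _ => False) := by
    refine ⟨poly_hom hV, ?_, ?_, ?_, fun i j h => hs h, fun i j h => ht h, hne,
      fun i h => h.elim⟩
    · intro x hx
      rw [Finset.mem_union] at hx
      rcases hx with hx | hx
      · obtain ⟨i, _, rfl⟩ := Finset.mem_image.1 hx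
        exact Finset.mem_map_of_mem (homE d) (s i).2
      · obtain ⟨i, _, rfl⟩ := Finset.mem_image.1 hx
        exact Finset.mem_map_of_mem (homE d) (t i).2
    · intro i
      exact Finset.mem_union_left _ (Finset.mem_image_of_mem _ (Finset.mem_univ i))
    · intro i
      exact Finset.mem_union_right _ (Finset.mem_image_of_mem _ (Finset.mem_univ i))
  refine link2_graph V s t (core3 k _ _ _ _ _ (fun _ => False) (d + 1) hstate (dim_hom V hd) ?_)
  simp only [Finset.filter_false, Finset.card_empty]
  omega

end Pool.Agent.LPG
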