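import Pool.Agent.LPG.LM

/-!
# Renaming the pairs; adjacent pairs (module Perm)

`link2_flip`: the relation in `Linked2` is symmetric (`Adj` is symmetric, the forbidden edge is given in both orders), so walks can be reversed: from a walk `t j ⤳ s j` and walks
`t j ⤳ v` one gets walks `s j ⤳ t j ⤳ v`.  For `i ≠ j` nothing changes (`Function.update_of_ne`).
`state_flip`: `badj` by `adj_symm`; injectivity from `sinj`, `tinj`, `st` by cases `i = j`.
`move_zero`: `σ = Equiv.swap 0 j` (`link2_perm`), then, if `c = t j`, flip at `0`.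
`state_tail`: clear.  `edge_step`: `S 0 = {s 0, t 0}`, `S i.succ` as given: `S i.succ` contains no element of `O` other than `s i.succ`, `t i.succ`, so it is disjoint from `S 0`.
-/

set_option autoImplicit false

namespace Pool.Agent.LPG

variable {W : Type*} [AddCommGroup W] [Module ℝ W] {N : Finset W} {K : Submodule ℝ W}

theorem state_perm {O : Finset W} {m : ℕ} {s t : Fin m → W} {bad : Fin m → Prop}
    (σ : Equiv.Perm (Fin m)) (h : State N K O s t bad) :
    State N K O (s ∘ σ) (t ∘ σ) (bad ∘ σ) := by
  exact ⟨h.poly, h.sub, fun i => h.smem _, fun i => h.tmem _,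
    fun i k e => σ.injective (h.sinj _ _ e), fun i k e => σ.injective (h.tinj _ _ e),
    fun i k => h.st _ _, fun i e => h.badj _ e⟩

theorem state_flip {O : Finset W} {m : ℕ} {s t : Fin m → W} {bad : Fin m → Prop}
    (j : Fin m) (h : State N K O s t bad) :
    State N K O (Function.update s j (t j)) (Function.update t j (s j)) bad := by
  refine ⟨h.poly, h.sub, fun i => ?_, fun i => ?_, fun i k e => ?_, fun i k e => ?_, fun i k e => ?_,
    fun i e => ?_⟩
  · rcases eq_or_ne i j with rfl | hi
    · rw [Function.update_self]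
      exact h.tmem i
    · rw [Function.update_of_ne hi]
      exact h.smem i
  · rcases eq_or_ne i j with rfl | hi
    · rw [Function.update_self]
      exact h.smem i
    · rw [Function.update_of_ne hi]
      exact h.tmem i
  · rcases eq_or_ne i j with hi | hi <;> rcases eq_or_ne k j with hk | hk
    · rw [hi, hk]
    · rw [hi, Function.update_self, Function.update_of_ne hk] at e
      exact absurd e.symm (h.st k j)
    · rw [hk, Function.update_self, Function.update_of_ne hi] at e
      exact absurd e (h.st i j)
    · rw [Function.update_of_ne hk, Function.update_of_ne hi] at e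
      exact h.sinj i k e
  · rcases eq_or_ne i j with hi | hi <;> rcases eq_or_ne k j with hk | hk
    · rw [hi, hk]
    · rw [hi, Function.update_self, Function.update_of_ne hk] at e
      exact absurd e (h.st j k)
    · rw [hk, Function.update_self, Function.update_of_ne hi] at e
      exact absurd e.symm (h.st j i)
    · rw [Function.update_of_ne hk, Function.update_of_ne hi] at e
      exact h.tinj i k e
  · rcases eq_or_ne i j with hi | hi <;> rcases eq_or_ne k j with hk | hk
    · rw [hi, hk, Function.update_self, Function.update_self] at e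
      exact h.st j j e.symm
    · rw [hi, Function.update_self, Function.update_of_ne hk] at e
      exact hk (h.tinj j k e).symm
    · rw [hk, Function.update_self, Function.update_of_ne hi] at e
      exact hi (h.sinj i j e)
    · rw [Function.update_of_ne hk, Function.update_of_ne hi] at e
      exact h.st i k e
  · rcases eq_or_ne i j with hi | hi
    · rw [hi] at e ⊢
      rw [Function.update_self, Function.update_self]
      exact adj_symm (h.badj j e)
    · rw [Function.update_of_ne hi, Function.update_of_ne hi]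
      exact h.badj i e

theorem link2_flip {O : Finset W} {m : ℕ} {s t : Fin m → W} {bad : Fin m → Prop} (j : Fin m)
    (h : Linked2 N K O (Function.update s j (t j)) (Function.update t j (s j)) bad) :
    Linked2 N K O s t bad := by
  obtain ⟨S, hd, h2⟩ := h
  refine ⟨S, hd, fun i => ?_⟩
  have h3 := h2 i
  rcases eq_or_ne i j with rfl | hi
  · rw [Function.update_self, Function.update_self] at h3
    obtain ⟨h4, h5, h6, h7⟩ := h3
    have hrev : ∀ a b, Relation.ReflTransGen (fun p q => Adj N K p q ∧ p ∈ S i ∧ q ∈ S i ∧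
        ¬ (bad i ∧ ((p = s i ∧ q = t i) ∨ (p = t i ∧ q = s i)))) a b →
        Relation.ReflTransGen (fun p q => Adj N K p q ∧ p ∈ S i ∧ q ∈ S i ∧
        ¬ (bad i ∧ ((p = s i ∧ q = t i) ∨ (p = t i ∧ q = s i)))) b a := by
      intro a b hab
      induction hab with
      | refl => exact Relation.ReflTransGen.refl
      | tail _ hbc ih =>
        obtain ⟨g1, g2, g3, g4⟩ := hbc
        refine Relation.ReflTransGen.head ⟨adj_symm g1, g3, g2, ?_⟩ ih
        rintro ⟨g5, g6 | g6⟩
        · exact g4 ⟨g5, Or.inr ⟨g6.2, g6.1⟩⟩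
        · exact g4 ⟨g5, Or.inl ⟨g6.2, g6.1⟩⟩
    have h8 : ∀ v ∈ S i, Relation.ReflTransGen (fun p q => Adj N K p q ∧ p ∈ S i ∧ q ∈ S i ∧
        ¬ (bad i ∧ ((p = s i ∧ q = t i) ∨ (p = t i ∧ q = s i)))) (t i) v := by
      intro v hv
      refine Relation.ReflTransGen.mono ?_ _ _ (h7 v hv)
      rintro p q ⟨g1, g2, g3, g4⟩
      refine ⟨g1, g2, g3, ?_⟩
      rintro ⟨g5, g6 | g6⟩
      · exact g4 ⟨g5, Or.inr g6⟩
      · exact g4 ⟨g5, Or.inl g6⟩
    refine ⟨h5, h4, fun v hv hO => (h6 v hv hO).symm, fun v hv => ?_⟩
    exact (hrev _ _ (h8 (s i) h5)).trans (h8 v hv)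
  · rw [Function.update_of_ne hi, Function.update_of_ne hi] at h3
    exact h3

theorem move_zero {O : Finset W} {m : ℕ} {s t : Fin (m + 1) → W} {bad : Fin (m + 1) → Prop}
    (h : State N K O s t bad) (j : Fin (m + 1)) {c c' : W}
    (hc : (c = s j ∧ c' = t j) ∨ (c = t j ∧ c' = s j)) :
    ∃ (s' t' : Fin (m + 1) → W) (bad' : Fin (m + 1) → Prop) (σ : Equiv.Perm (Fin (m + 1))),
      State N K O s' t' bad' ∧ σ 0 = j ∧ s' 0 = c ∧ t' 0 = c' ∧ (∀ i, bad' i ↔ bad (σ i)) ∧
      (∀ i, i ≠ 0 → s' i = s (σ i) ∧ t' i = t (σ i)) ∧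
      (Linked2 N K O s' t' bad' → Linked2 N K O s t bad) := by
  classical
  have hp := state_perm (Equiv.swap 0 j) h
  rcases hc with ⟨rfl, rfl⟩ | ⟨rfl, rfl⟩
  · refine ⟨s ∘ Equiv.swap 0 j, t ∘ Equiv.swap 0 j, bad ∘ Equiv.swap 0 j, Equiv.swap 0 j, hp, ?_, ?_, ?_,
      fun i => Iff.rfl, fun i _ => ⟨rfl, rfl⟩, fun hL => link2_perm _ hL⟩
    · exact Equiv.swap_apply_left 0 j
    · rw [Function.comp_apply, Equiv.swap_apply_left]
    · rw [Function.comp_apply, Equiv.swap_apply_left]
  · refine ⟨Function.update (s ∘ Equiv.swap 0 j) 0 ((t ∘ Equiv.swap 0 j) 0),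
      Function.update (t ∘ Equiv.swap 0 j) 0 ((s ∘ Equiv.swap 0 j) 0), bad ∘ Equiv.swap 0 j,
      Equiv.swap 0 j, state_flip 0 hp, ?_, ?_, ?_,
      fun i => Iff.rfl, fun i hi => ?_, fun hL => link2_perm _ (link2_flip 0 hL)⟩
    · exact Equiv.swap_apply_left 0 j
    · rw [Function.update_self, Function.comp_apply, Equiv.swap_apply_left]
    · rw [Function.update_self, Function.comp_apply, Equiv.swap_apply_left]
    · rw [Function.update_of_ne hi, Function.update_of_ne hi]
      exact ⟨rfl, rfl⟩

theorem state_tail {O : Finset W} {m : ℕ} {s t : Fin (m + 1) → W} {bad : Fin (m + 1) → Prop}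
    (h : State N K O s t bad) :
    State N K O (fun i : Fin m => s i.succ) (fun i : Fin m => t i.succ)
      (fun i : Fin m => bad i.succ) := by
  exact ⟨h.poly, h.sub, fun i => h.smem _, fun i => h.tmem _,
    fun i k e => Fin.succ_injective _ (h.sinj _ _ e),
    fun i k e => Fin.succ_injective _ (h.tinj _ _ e),
    fun i k => h.st _ _, fun i e => h.badj _ e⟩

theorem edge_step {O : Finset W} {m : ℕ} {s t : Fin (m + 1) → W} {bad : Fin (m + 1) → Prop}
    (h : State N K O s t bad) (hb : ¬ bad 0) (hadj : Adj N K (s 0) (t 0))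
    (hL : Linked2 N K O (fun i : Fin m => s i.succ) (fun i : Fin m => t i.succ)
      (fun i : Fin m => bad i.succ)) : Linked2 N K O s t bad := by
  classical
  obtain ⟨S, hd, h2⟩ := hL
  have key : ∀ i : Fin m, Disjoint ({s 0, t 0} : Finset W) (S i) := by
    intro i
    rw [Finset.disjoint_left]
    intro v hv hvS
    rw [Finset.mem_insert, Finset.mem_singleton] at hv
    have hO : v ∈ O := by
      rcases hv with rfl | rfl
      · exact h.smem 0
      · exact h.tmem 0
    rcases (h2 i).2.2.1 v hvS hO with h3 | h3 <;> rcases hv with h4 | h4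
    · exact absurd (h.sinj _ _ (h4.symm.trans h3)) (Fin.succ_ne_zero i).symm
    · exact h.st i.succ 0 (h3.symm.trans h4)
    · exact h.st 0 i.succ (h4.symm.trans h3)
    · exact absurd (h.tinj _ _ (h4.symm.trans h3)) (Fin.succ_ne_zero i).symm
  refine ⟨Fin.cons {s 0, t 0} S, fun i j hij => ?_, fun i => ?_⟩
  · induction i using Fin.cases with
    | zero =>
      induction j using Fin.cases with
      | zero => exact absurd rfl hij
      | succ j =>
        rw [Fin.cons_zero, Fin.cons_succ]
        exact key j
    | succ i =>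
      induction j using Fin.cases with
      | zero =>
        rw [Fin.cons_zero, Fin.cons_succ]
        exact (key i).symm
      | succ j =>
        rw [Fin.cons_succ, Fin.cons_succ]
        exact hd i j (fun e => hij (by rw [e]))
  · induction i using Fin.cases with
    | zero =>
      rw [Fin.cons_zero]
      refine ⟨Finset.mem_insert_self _ _, Finset.mem_insert_of_mem (Finset.mem_singleton_self _),
        fun v hv _ => ?_, fun v hv => ?_⟩
      · rw [Finset.mem_insert, Finset.mem_singleton] at hv
        exact hv
      · rw [Finset.mem_insert, Finset.mem_singleton] at hv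
        rcases hv with rfl | rfl
        · exact Relation.ReflTransGen.refl
        · exact Relation.ReflTransGen.single ⟨hadj, Finset.mem_insert_self _ _,
            Finset.mem_insert_of_mem (Finset.mem_singleton_self _), fun h5 => hb h5.1⟩
    | succ i =>
      rw [Fin.cons_succ]
      exact h2 i

end Pool.Agent.LPG
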