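import Pool.Agent.LPT.FamZ

/-!
# The routing can be made to agree with a given assignment near departing tokens (module Rewire)

Given: `(Y, ι)` a family with `Y` maximal, `(S, e)` with `GoodY`.  Choose among all `(S, e)` with `GoodY` one for which the number of
`y ∈ Y` with `e y = ι y` is as large as possible (the numbers are `≤ Y.card`; `Nat.find`/strong induction on the difference).
Claim: this one has the property.  Suppose `z ∈ X`, `z ∉ Y`, `z ∉ nb`, `VAdj a b`, `Br a b z`, `x ∈ X`, `e x = a`, `x ≠ a`, not (`x ∈ Y` and `ι x = a`).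
`a ∉ X`: otherwise `a ∈ nb ∩ X`, so `e a = a` (`GoodR.sub`), `x = a` (`e` is injective on `X` since the `S` are disjoint).  `fam_occ` for `(Y, e)` gives `y ∈ Y`, `e y = a`, so
`y = x`, `x ∈ Y`, `ι x ≠ a`.  `fam_occ` for `(Y, ι)` gives `y₀ ∈ Y`, `ι y₀ = a`, `y₀ ≠ x`, so `e y₀ ≠ a`.
Let `C` be the set of the `y ∈ Y` reachable from `y₀` by the relation `y → y'` iff `y' ∈ Y` and `e y = ι y'`.
(1) `x ∈ C`.  Let `ι'' y = e y` for `y ∈ C` and `ι'' y = ι y` otherwise.  `(Y, ι'')` is a family: the conditions for single elements hold for `e` (`GoodY.fam`)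
and for `ι`; injectivity: `e y = ι y'` with `y ∈ C`, `y' ∉ C` is impossible by definition of `C`.  `fam_occ` for `(Y, ι'')` gives `y ∈ Y` with `ι'' y = a`;
`y ∉ C` would give `ι y = a`, `y = y₀ ∈ C`; so `y ∈ C`, `e y = a`, `y = x`.
(2) `ι '' C = e '' C`: for `y ∈ C`, `y ≠ y₀`, the last step of a walk from `y₀` to `y` gives `y' ∈ C` with `e y' = ι y`; `ι y₀ = a = e x`, `x ∈ C`.  So
`ι '' C ⊆ e '' C`, and both have `C.card` elements.
(3) Let `C' = {y ∈ C | e y ≠ ι y}`, `Seg y = {v ∈ N | Br (ι y) y v, and v is reached from y by a walk of adjacent vertices all satisfying Br (ι y) y ·}`.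
`S' y = Seg y` for `y ∈ C'`, `S' y = S y` otherwise; `e' y = ι y` for `y ∈ C`, `e' y = e y` otherwise.  For `y ∈ C'` the ends `ι y` and `e y` are the two ends of
the branch of `y` (`Fam` for `ι` and for `e`, `br_uniq`), `VAdj (ι y) (e y)`, `Br (ι y) (e y) y`.
`GoodY` for `(S', e')`: `disj`: two elements of `C'`: as in `fam_seg` (with `Vc = ∅`).  `y ∈ C'`, `x' ∈ X` not in `C'`, `v ∈ S x' ∩ Seg y`: if `v ∈ nb` then `v = ι y` (`br_side_nb`)
and `v = e x'` (`GoodR.sub`), so `e x' = ι y = e y₁`, `y₁ ∈ C` (2), `x' = y₁ ∈ C \ C'`, so `ι x' = e x' = ι y`, `x' = y`, contradiction.  If `v ∉ nb`: `GoodR.br` with the branch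
`ι y, e y` gives `e x' = ι y` (as before) or `e x' = e y` (`x' = y`) or `v = x' ∈ X`, `Br (ι y) y x'`, so `x' = y` by `Fam`.
`mem`: `side_walk` (walk from `y` to `ι y`, arcs are adjacent), `br_self`.  `sub`: `br_side_nb`.  `conn`: by definition of `Seg`.  `zx`: same `Z`.  `br`: `v ∈ Seg y`: if `v ∈ nb`, `v = ι y` and
`br_nb`; otherwise `br_uniq` (`v` is on the branch `ι y, e y` by `br_trans`).  `occ`: if the old `x'` with `e x' = a'` is in `C`, then `a' ∈ e '' C = ι '' C`: take `y ∈ C`, `ι y = a'`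
(`y ∈ Y`, so `y ∉ Z`).  `fam`: single conditions clear; injectivity by (2) and (if `ι y = e y'`, `y ∈ C`, `y' ∉ C`) `ι y ∈ e '' C`, so `y' ∈ C`.  `cl`: `e' '' X = e '' X` by (2), `e' x' = e x'` for
`x' ∉ Y`.
(4) `e'` agrees with `ι` at more elements: on `C`, and where `e` does outside `C`; `y₀` is new (`ι y₀ = a ≠ e y₀`).  Contradiction.
-/

set_option linter.all false

namespace Pool.Agent.LPG

variable {W : Type*} [AddCommGroup W] [Module ℝ W] {N : Finset W} {K : Submodule ℝ W}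

/-- Segments of different elements of a family do not meet. -/
private theorem rw_seg (h : Poly N K) {s : W} (hs : s ∈ N) {X Y : Finset W} {ι : W → W}
    (hF : Fam N K s X Y ι) {x y v : W} (hx : x ∈ Y) (hy : y ∈ Y) (hxy : x ≠ y)
    (hvx : Br N K s (ι x) x v) (hvy : Br N K s (ι y) y v) : False := by
  obtain ⟨hxX, hxn, ⟨b, hab, hbx⟩, honlyx⟩ := hF.1 x hx
  obtain ⟨hyX, hyn, ⟨b', hab', hby⟩, honlyy⟩ := hF.1 y hy
  have hv1 : Br N K s (ι x) b v := br_trans hbx hvx
  have hv2 : Br N K s (ι y) b' v := br_trans hby hvy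
  by_cases hvn : v ∈ nb N K s
  · have e1 := br_side_nb h hs hab hbx hxn hvx hvn
    have e2 := br_side_nb h hs hab' hby hyn hvy hvn
    exact hxy (hF.2 x hx y hy (e1.symm.trans e2))
  · rcases br_uniq h hs hab hab' hv1 hv2 hvn with ⟨e1, _⟩ | ⟨e1, e2⟩
    · exact hxy (hF.2 x hx y hy e1.symm)
    · have hby1 : Br N K s b (ι x) y := by
        rw [← e1, ← e2]
        exact hby
      have hby2 : Br N K s (ι x) b y := br_comm hby1
      have hyx : Br N K s b (ι x) x := br_comm hbx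
      have hab1 : VAdj N K s b (ι x) := adj_symm hab
      have hay : Br N K s (ι x) y x := by
        rcases br_total h hs hab1 hby1 hyx with h1 | h1
        · exfalso
          rw [← e1] at h1
          exact hxy (honlyy x hxX h1)
        · exact h1
      have h3 : Br N K s (ι x) y v := br_trans hay hvx
      have h4 : Br N K s b y v := by
        rw [← e1]
        exact hvy
      have h5 : v = y := br_anti h hs hab hby2 h3 h4
      rw [h5] at hvx
      exact hxy (honlyx y hyX hvx).symm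

/-- The two ends of a branch. -/
private theorem rw_ends (h : Poly N K) {s : W} (hs : s ∈ N) {X Y : Finset W} {ι e : W → W}
    (hF : Fam N K s X Y ι) (hE : Fam N K s X Y e) {c : W} (hc : c ∈ Y) (hne : e c ≠ ι c) :
    VAdj N K s (ι c) (e c) ∧ Br N K s (ι c) (e c) c := by
  obtain ⟨_, hcn, ⟨b, hab, hbc⟩, _⟩ := hF.1 c hc
  obtain ⟨_, _, ⟨b', hab', hbc'⟩, _⟩ := hE.1 c hc
  rcases br_uniq h hs hab hab' hbc hbc' hcn with ⟨e1, _⟩ | ⟨e1, e2⟩
  · exact absurd e1 hne
  · rw [e1]
    exact ⟨hab, hbc⟩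

private theorem rw_step (h : Poly N K) {s : W} (hs : s ∈ N) {X Y : Finset W} {ι : W → W}
    (hX : X ⊆ N) (hsX : s ∉ X) (hF : Fam N K s X Y ι) (hmax : MaxFam N K s X Y)
    {S : W → Finset W} {e : W → W} (hG : GoodY N K s X Y S e) [DecidableEq W]
    {z a b x : W} (hz : z ∈ X) (hzY : z ∉ Y) (hzn : z ∉ nb N K s) (hab : VAdj N K s a b)
    (hbr : Br N K s a b z) (hx : x ∈ X) (hxa : e x = a) (hne : x ≠ a)
    (hno : ¬ (x ∈ Y ∧ ι x = a)) :
    ∃ (S' : W → Finset W) (e' : W → W), GoodY N K s X Y S' e' ∧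
      (Y.filter (fun y => e' y ≠ ι y)).card < (Y.filter (fun y => e y ≠ ι y)).card := by
  classical
  have hYX : ∀ y ∈ Y, y ∈ X := fun y hy => (hF.1 y hy).1
  -- injectivity of `e` on `X`
  have hinj : ∀ p ∈ X, ∀ q ∈ X, e p = e q → p = q := by
    intro p hp q hq hpq
    by_contra hne'
    have h1 := hG.good.disj p hp q hq hne'
    have h2 := (hG.good.mem p hp).2.1
    have h3 := (hG.good.mem q hq).2.1
    rw [← hpq] at h3
    exact Finset.disjoint_left.1 h1 h2 h3
  have haX : a ∉ X := by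
    intro haX
    have h1 := (hG.good.sub a haX a (hG.good.mem a haX).1).2.2 hab.1
    rcases h1 with h1 | ⟨_, h1⟩
    · exact hne (hinj x hx a haX (hxa.trans h1))
    · exact absurd h1 (Finset.notMem_empty a)
  have hxY : x ∈ Y := by
    rcases fam_occ h hs hG.fam hmax hz hzY hzn hab hbr with h1 | ⟨y, hy, hya⟩
    · exact absurd h1 haX
    · have : y = x := hinj y (hYX y hy) x hx (hya.trans hxa.symm)
      exact this ▸ hy
  have hιx : ι x ≠ a := fun h1 => hno ⟨hxY, h1⟩
  obtain ⟨y₀, hy₀, hy₀a⟩ : ∃ y ∈ Y, ι y = a := by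
    rcases fam_occ h hs hF hmax hz hzY hzn hab hbr with h1 | h1
    · exact absurd h1 haX
    · exact h1
  have hy₀x : y₀ ≠ x := by
    rintro rfl
    exact hιx hy₀a
  have hey₀ : e y₀ ≠ a := by
    intro h1
    exact hy₀x (hinj y₀ (hYX _ hy₀) x hx (h1.trans hxa.symm))
  set R : W → W → Prop := fun y y' => y' ∈ Y ∧ e y = ι y' with hR
  set C : Finset W := Y.filter (fun y => Relation.ReflTransGen R y₀ y) with hC
  have hCm : ∀ y, y ∈ C ↔ y ∈ Y ∧ Relation.ReflTransGen R y₀ y := by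
    intro y
    rw [hC, Finset.mem_filter]
  have hCY : ∀ y ∈ C, y ∈ Y := fun y hy => ((hCm y).1 hy).1
  have hy₀C : y₀ ∈ C := (hCm y₀).2 ⟨hy₀, Relation.ReflTransGen.refl⟩
  have hreach : ∀ c, Relation.ReflTransGen R y₀ c → c ∈ Y := by
    intro c hc
    rcases Relation.ReflTransGen.cases_tail hc with h1 | ⟨d, _, h1⟩
    · rw [h1]
      exact hy₀
    · exact h1.1
  have hCcl : ∀ y ∈ C, ∀ y' ∈ Y, e y = ι y' → y' ∈ C := by
    intro y hy y' hy' hyy
    exact (hCm y').2 ⟨hy', ((hCm y).1 hy).2.tail ⟨hy', hyy⟩⟩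
  -- (1)
  have hxC : x ∈ C := by
    have hFam : Fam N K s X Y (fun y => if y ∈ C then e y else ι y) := by
      constructor
      · intro y hy
        by_cases hyC : y ∈ C
        · simp only [if_pos hyC]
          exact hG.fam.1 y hy
        · simp only [if_neg hyC]
          exact hF.1 y hy
      · intro y hy y' hy' hyy
        by_cases hyC : y ∈ C <;> by_cases hyC' : y' ∈ C
        · simp only [if_pos hyC, if_pos hyC'] at hyy
          exact hG.fam.2 y hy y' hy' hyy
        · simp only [if_pos hyC, if_neg hyC'] at hyy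
          exact absurd (hCcl y hyC y' hy' hyy) hyC'
        · simp only [if_neg hyC, if_pos hyC'] at hyy
          exact absurd (hCcl y' hyC' y hy hyy.symm) hyC
        · simp only [if_neg hyC, if_neg hyC'] at hyy
          exact hF.2 y hy y' hy' hyy
    rcases fam_occ h hs hFam hmax hz hzY hzn hab hbr with h1 | ⟨y, hy, hya⟩
    · exact absurd h1 haX
    · by_cases hyC : y ∈ C
      · simp only [if_pos hyC] at hya
        have : y = x := hinj y (hYX y hy) x hx (hya.trans hxa.symm)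
        exact this ▸ hyC
      · simp only [if_neg hyC] at hya
        have : y = y₀ := hF.2 y hy y₀ hy₀ (hya.trans hy₀a.symm)
        exact absurd (this ▸ hy₀C) hyC
  -- (2)
  have himg : C.image ι = C.image e := by
    apply Finset.eq_of_subset_of_card_le
    · intro w hw
      obtain ⟨y, hy, rfl⟩ := Finset.mem_image.1 hw
      rcases Relation.ReflTransGen.cases_tail ((hCm y).1 hy).2 with h1 | ⟨d, hd, h1⟩
      · rw [h1, hy₀a, ← hxa]
        exact Finset.mem_image_of_mem e hxC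
      · rw [← h1.2]
        exact Finset.mem_image_of_mem e ((hCm d).2 ⟨hreach d hd, hd⟩)
    · rw [Finset.card_image_of_injOn, Finset.card_image_of_injOn]
      · intro p hp q hq hpq
        exact hF.2 p (hCY p hp) q (hCY q hq) hpq
      · intro p hp q hq hpq
        exact hinj p (hYX _ (hCY p hp)) q (hYX _ (hCY q hq)) hpq
  have h2a : ∀ c ∈ C, ∀ p ∈ X, e p = ι c → p ∈ C := by
    intro c hc p hp hpc
    have h1 : ι c ∈ C.image e := himg ▸ Finset.mem_image_of_mem ι hc
    obtain ⟨d, hd, hdc⟩ := Finset.mem_image.1 h1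
    have : d = p := hinj d (hYX _ (hCY d hd)) p hp (hdc.trans hpc.symm)
    exact this ▸ hd
  -- (3)
  set Seg : W → Finset W := fun y => N.filter (fun v => Br N K s (ι y) y v ∧
    Relation.ReflTransGen (fun p q => Adj N K p q ∧ Br N K s (ι y) y p ∧ Br N K s (ι y) y q) y v)
    with hSeg
  have hSm : ∀ y v, v ∈ Seg y ↔ Br N K s (ι y) y v ∧
      Relation.ReflTransGen
        (fun p q => Adj N K p q ∧ Br N K s (ι y) y p ∧ Br N K s (ι y) y q) y v := by
    intro y v
    rw [hSeg]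
    simp only [Finset.mem_filter]
    exact ⟨fun h1 => h1.2, fun h1 => ⟨h1.1.1, h1⟩⟩
  set S' : W → Finset W := fun y => if y ∈ C ∧ e y ≠ ι y then Seg y else S y with hS'
  set e' : W → W := fun y => if y ∈ C ∧ e y ≠ ι y then ι y else e y with he'
  have S1 : ∀ y, (y ∈ C ∧ e y ≠ ι y) → S' y = Seg y := fun y hy => if_pos hy
  have S2 : ∀ y, ¬ (y ∈ C ∧ e y ≠ ι y) → S' y = S y := fun y hy => if_neg hy
  have E1 : ∀ y, (y ∈ C ∧ e y ≠ ι y) → e' y = ι y := fun y hy => if_pos hy
  have E2 : ∀ y, ¬ (y ∈ C ∧ e y ≠ ι y) → e' y = e y := fun y hy => if_neg hy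
  have E3 : ∀ y ∈ C, e' y = ι y := by
    intro y hy
    by_cases h1 : e y = ι y
    · rw [E2 y (fun h2 => h2.2 h1), h1]
    · exact E1 y ⟨hy, h1⟩
  have E4 : ∀ y, y ∉ C → e' y = e y := fun y hy => E2 y (fun h2 => hy h2.1)
  -- the family `e'`
  have hFam' : Fam N K s X Y e' := by
    constructor
    · intro y hy
      by_cases hyC : y ∈ C
      · rw [E3 y hyC]
        exact hF.1 y hy
      · rw [E4 y hyC]
        exact hG.fam.1 y hy
    · intro y hy y' hy' hyy
      by_cases hyC : y ∈ C <;> by_cases hyC' : y' ∈ C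
      · rw [E3 y hyC, E3 y' hyC'] at hyy
        exact hF.2 y hy y' hy' hyy
      · rw [E3 y hyC, E4 y' hyC'] at hyy
        exact absurd (h2a y hyC y' (hYX _ hy') hyy.symm) hyC'
      · rw [E4 y hyC, E3 y' hyC'] at hyy
        exact absurd (h2a y' hyC' y (hYX _ hy) hyy) hyC
      · rw [E4 y hyC, E4 y' hyC'] at hyy
        exact hinj y (hYX _ hy) y' (hYX _ hy') hyy
  -- mixed disjointness
  have hmix : ∀ c, (c ∈ C ∧ e c ≠ ι c) → ∀ p ∈ X, ¬ (p ∈ C ∧ e p ≠ ι p) → ∀ v, v ∈ Seg c →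
      v ∈ S p → False := by
    intro c hc p hp hpC v hv1 hv2
    have hcY := hCY c hc.1
    obtain ⟨_, hcn, _, honly⟩ := hF.1 c hcY
    obtain ⟨habc, hbc⟩ := rw_ends h hs hF hG.fam hcY hc.2
    have hcp : c ≠ p := by
      rintro rfl
      exact hpC hc
    have key : e p ≠ ι c := by
      intro h1
      have hpC' : p ∈ C := h2a c hc.1 p hp h1
      have h3 : e p = ι p := by
        by_contra h4
        exact hpC ⟨hpC', h4⟩
      exact hcp (hF.2 c hcY p (hCY p hpC') (h1.symm.trans h3))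
    have hbv : Br N K s (ι c) (e c) v := br_trans hbc ((hSm c v).1 hv1).1
    by_cases hvn : v ∈ nb N K s
    · have h1 := br_side_nb h hs habc hbc hcn ((hSm c v).1 hv1).1 hvn
      rcases (hG.good.sub p hp v hv2).2.2 hvn with h3 | ⟨_, h3⟩
      · exact key (h3.symm.trans h1)
      · exact absurd h3 (Finset.notMem_empty p)
    · rcases hG.good.br p hp v hv2 _ _ habc hbv with h3 | h3 | ⟨h3, _⟩
      · exact key h3
      · exact hcp (hinj p hp c (hYX _ hcY) h3).symm
      · rw [h3] at hv1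
        exact hcp (honly p hp ((hSm c p).1 hv1).1).symm
  refine ⟨S', e', ⟨⟨?_, ?_, ?_, ?_, hG.good.zx, ?_, ?_⟩, hFam', ?_⟩, ?_⟩
  · -- disj
    intro p hp q hq hpq
    rw [Finset.disjoint_left]
    intro v hv1 hv2
    by_cases hpC : p ∈ C ∧ e p ≠ ι p <;> by_cases hqC : q ∈ C ∧ e q ≠ ι q
    · rw [S1 p hpC] at hv1
      rw [S1 q hqC] at hv2
      exact rw_seg h hs hF (hCY _ hpC.1) (hCY _ hqC.1) hpq ((hSm p v).1 hv1).1 ((hSm q v).1 hv2).1
    · rw [S1 p hpC] at hv1
      rw [S2 q hqC] at hv2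
      exact hmix p hpC q hq hqC v hv1 hv2
    · rw [S2 p hpC] at hv1
      rw [S1 q hqC] at hv2
      exact hmix q hqC p hp hpC v hv2 hv1
    · rw [S2 p hpC] at hv1
      rw [S2 q hqC] at hv2
      exact Finset.disjoint_left.1 (hG.good.disj p hp q hq hpq) hv1 hv2
  · -- mem
    intro p hp
    by_cases hpC : p ∈ C ∧ e p ≠ ι p
    · rw [S1 p hpC, E1 p hpC]
      have hpY := hCY p hpC.1
      obtain ⟨_, hpn, ⟨b1, hab1, hbp⟩, _⟩ := hF.1 p hpY
      have hnb := mem_nb.1 hab1.1
      refine ⟨(hSm p p).2 ⟨br_self hbp.1 hbp.2.1, Relation.ReflTransGen.refl⟩,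
        (hSm p (ι p)).2 ⟨br_end hnb.2.1 hnb.2.2.1.symm, ?_⟩, hab1.1, Finset.notMem_empty _⟩
      refine Relation.ReflTransGen.mono (fun u w huw => ?_) _ _ (side_walk h hs hab1 hbp hpn)
      exact ⟨huw.1.1, huw.2.1, huw.2.2⟩
    · rw [S2 p hpC, E2 p hpC]
      exact hG.good.mem p hp
  · -- sub
    intro p hp v hv
    by_cases hpC : p ∈ C ∧ e p ≠ ι p
    · rw [S1 p hpC] at hv
      rw [E1 p hpC]
      have hpY := hCY p hpC.1
      obtain ⟨_, hpn, ⟨b1, hab1, hbp⟩, _⟩ := hF.1 p hpY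
      have hb := ((hSm p v).1 hv).1
      exact ⟨hb.1, hb.2.1, fun hvn => Or.inl (br_side_nb h hs hab1 hbp hpn hb hvn)⟩
    · rw [S2 p hpC] at hv
      rw [E2 p hpC]
      exact hG.good.sub p hp v hv
  · -- conn
    intro p hp v hv
    by_cases hpC : p ∈ C ∧ e p ≠ ι p
    · rw [S1 p hpC] at hv
      rw [S1 p hpC]
      obtain ⟨hb, hw⟩ := (hSm p v).1 hv
      clear hv hb
      induction hw with
      | refl => exact Relation.ReflTransGen.refl
      | tail hww hst ih =>
        rename_i u w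
        refine ih.tail ⟨hst.1, (hSm p u).2 ⟨hst.2.1, hww⟩, (hSm p w).2 ⟨hst.2.2, hww.tail hst⟩⟩
    · rw [S2 p hpC] at hv
      rw [S2 p hpC]
      exact hG.good.conn p hp v hv
  · -- br
    intro p hp v hv a' b' hab' hbr'
    by_cases hpC : p ∈ C ∧ e p ≠ ι p
    · rw [S1 p hpC] at hv
      rw [E1 p hpC]
      have hpY := hCY p hpC.1
      obtain ⟨_, hpn, _, _⟩ := hF.1 p hpY
      obtain ⟨habc, hbc⟩ := rw_ends h hs hF hG.fam hpY hpC.2
      have hb := ((hSm p v).1 hv).1
      by_cases hvn : v ∈ nb N K s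
      · have h1 := br_side_nb h hs habc hbc hpn hb hvn
        rcases br_nb h hs hab' hvn hbr' with h3 | h3
        · exact Or.inl (h1.symm.trans h3)
        · exact Or.inr (Or.inl (h1.symm.trans h3))
      · rcases br_uniq h hs habc hab' (br_trans hbc hb) hbr' hvn with ⟨h3, _⟩ | ⟨_, h3⟩
        · exact Or.inl h3.symm
        · exact Or.inr (Or.inl h3.symm)
    · rw [S2 p hpC] at hv
      rw [E2 p hpC]
      exact hG.good.br p hp v hv a' b' hab' hbr'
  · -- occ
    intro z' hz' a' b' hab' hbr'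
    obtain ⟨hz'X, hz'Y, hz'n, _⟩ := mem_ZZ.1 hz'
    rcases fam_occ h hs hFam' hmax hz'X hz'Y hz'n hab' hbr' with h1 | ⟨y, hy, hya⟩
    · exact Or.inl h1
    · exact Or.inr ⟨y, hYX y hy, fun hyZ => (mem_ZZ.1 hyZ).2.1 hy, hya⟩
  · -- cl
    intro p hp hpY hpn
    have hpC : p ∉ C := fun h1 => hpY (hCY p h1)
    rw [E4 p hpC]
    have himg2 : e' '' (X : Set W) = e '' (X : Set W) := by
      ext w
      constructor
      · rintro ⟨y, hy, rfl⟩
        by_cases hyC : y ∈ C
        · rw [E3 y hyC]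
          have h1 : ι y ∈ C.image e := himg ▸ Finset.mem_image_of_mem ι hyC
          obtain ⟨d, hd, hdc⟩ := Finset.mem_image.1 h1
          exact ⟨d, Finset.mem_coe.2 (hYX _ (hCY d hd)), hdc⟩
        · rw [E4 y hyC]
          exact ⟨y, hy, rfl⟩
      · rintro ⟨y, hy, rfl⟩
        by_cases hyC : y ∈ C
        · have h1 : e y ∈ C.image ι := himg ▸ Finset.mem_image_of_mem e hyC
          obtain ⟨d, hd, hdc⟩ := Finset.mem_image.1 h1
          exact ⟨d, Finset.mem_coe.2 (hYX _ (hCY d hd)), (E3 d hd).trans hdc⟩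
        · exact ⟨y, hy, E4 y hyC⟩
    rw [himg2]
    exact hG.cl p hp hpY hpn
  · -- measure
    apply Finset.card_lt_card
    rw [Finset.ssubset_iff_of_subset]
    · refine ⟨y₀, Finset.mem_filter.2 ⟨hy₀, ?_⟩, fun h1 => ?_⟩
      · rw [hy₀a]
        exact hey₀
      · exact (Finset.mem_filter.1 h1).2 (E3 y₀ hy₀C)
    · intro y hy
      obtain ⟨hy1, hy2⟩ := Finset.mem_filter.1 hy
      refine Finset.mem_filter.2 ⟨hy1, ?_⟩
      have hyC : y ∉ C := fun h1 => hy2 (E3 y h1)
      rw [E4 y hyC] at hy2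
      exact hy2

theorem rewire (h : Poly N K) {s : W} (hs : s ∈ N) {X Y : Finset W} {ι : W → W}
    (hX : X ⊆ N) (hsX : s ∉ X) (hF : Fam N K s X Y ι) (hmax : MaxFam N K s X Y)
    {S : W → Finset W} {e : W → W} (hG : GoodY N K s X Y S e) :
    ∃ (S' : W → Finset W) (e' : W → W), GoodY N K s X Y S' e' ∧
      ∀ z ∈ X, z ∉ Y → z ∉ nb N K s → ∀ a b, VAdj N K s a b → Br N K s a b z →
        ∀ x ∈ X, e' x = a → x = a ∨ (x ∈ Y ∧ ι x = a) := by
  classical
  have main : ∀ n : ℕ, ∀ (S : W → Finset W) (e : W → W), GoodY N K s X Y S e →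
      (Y.filter (fun y => e y ≠ ι y)).card = n →
      ∃ (S' : W → Finset W) (e' : W → W), GoodY N K s X Y S' e' ∧
        ∀ z ∈ X, z ∉ Y → z ∉ nb N K s → ∀ a b, VAdj N K s a b → Br N K s a b z →
          ∀ x ∈ X, e' x = a → x = a ∨ (x ∈ Y ∧ ι x = a) := by
    intro n
    induction n using Nat.strong_induction_on with
    | _ n ih =>
      intro S e hG hn
      by_cases hok : ∀ z ∈ X, z ∉ Y → z ∉ nb N K s → ∀ a b, VAdj N K s a b → Br N K s a b z →
          ∀ x ∈ X, e x = a → x = a ∨ (x ∈ Y ∧ ι x = a)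
      · exact ⟨S, e, hG, hok⟩
      · push Not at hok
        obtain ⟨z, hz, hzY, hzn, a, b, hab, hbr, x, hx, hxa, hne, hno⟩ := hok
        obtain ⟨S1, e1, hG1, hlt⟩ := rw_step h hs hX hsX hF hmax hG hz hzY hzn hab hbr hx hxa hne
          (fun h1 => hno h1.1 h1.2)
        exact ih _ (hn ▸ hlt) S1 e1 hG1 rfl
  exact main _ S e hG rfl

end Pool.Agent.LPG
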