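import Pool.Agent.LPG.Good
import Pool.Agent.LPG.Step2
import Pool.Agent.LPZ.ZDefs

/-!
# The step at a good centre: definitions (MP_c76e9d_co; helper48)

Paper proof: /team-store/LPT.md.  `(N, K)` polytope, `s ∈ N` the centre, `X` the other occupied vertices (tokens).
`Fam N K s X Y ι` (KDefs): the tokens of `Y` are inside branches and are assigned to different ends `ι y` of their
branches, with no other token between.  `MaxFam`: `Y` has the greatest possible number of elements.
`ZZ`: the tokens inside branches which are not in `Y`; they leave their branches.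
`GoodY`: a good routing for `Y` (`GoodR`), the actual places `e` are again an assignment of `Y`, and all tokens which are
neither in `Y` nor neighbours of `s` get coloops of `e '' X` modulo `ad K s` as places.
`Pl Y ι x a`: the assignment puts the token `x` to `a` (neighbours of `s` stay).
`Harm`: the assignment puts `x` and `y` to the two ends of a branch which contains a token of `ZZ`.
`R0 O c x y`: `x` and `y` are on one branch of `c` (a `2`-face through `c`), `x` is the first element of `O` seen from one end,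
`y` the first one seen from the other end, and there is another element of `O` between.
-/

set_option autoImplicit false

namespace Pool.Agent.LPG

variable {W : Type*} [AddCommGroup W] [Module ℝ W]

/-- `Y` has the greatest number of elements among all families. -/
def MaxFam (N : Finset W) (K : Submodule ℝ W) (s : W) (X Y : Finset W) : Prop :=
  ∀ (Y' : Finset W) (ι' : W → W), Fam N K s X Y' ι' → Y'.card ≤ Y.card

open Classical in
/-- The tokens inside branches which are not in `Y`. -/
noncomputable def ZZ (N : Finset W) (K : Submodule ℝ W) (s : W) (X Y : Finset W) : Finset W :=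
  X.filter (fun x => x ∉ Y ∧ InBr N K s x)

/-- A good routing for the family `Y`. -/
structure GoodY (N : Finset W) (K : Submodule ℝ W) (s : W) (X Y : Finset W)
    (S : W → Finset W) (e : W → W) : Prop where
  good : GoodR N K s X ∅ S e (ZZ N K s X Y)
  fam : Fam N K s X Y e
  cl : ∀ x ∈ X, x ∉ Y → x ∉ nb N K s → Cl (ad K s) (e '' (X : Set W)) (e x)

/-- The assignment puts `x` to `a`. -/
def Pl (N : Finset W) (K : Submodule ℝ W) (s : W) (Y : Finset W) (ι : W → W) (x a : W) : Prop :=
  (x ∈ nb N K s ∧ a = x) ∨ (x ∈ Y ∧ a = ι x)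

/-- `x` and `y` are put to the two ends of a branch which contains a departing token. -/
def Harm (N : Finset W) (K : Submodule ℝ W) (s : W) (X Y : Finset W) (ι : W → W)
    (x y : W) : Prop :=
  ∃ a b z, VAdj N K s a b ∧ Pl N K s Y ι x a ∧ Pl N K s Y ι y b ∧ z ∈ X ∧ z ∉ Y ∧
    z ∉ nb N K s ∧ Br N K s a b z

/-- The pair `x`, `y` may become bad at the centre `c` inside one `2`-face. -/
def R0 (N : Finset W) (K : Submodule ℝ W) (O : Finset W) (c x y : W) : Prop :=
  ∃ a b z, VAdj N K c a b ∧ Br N K c a b x ∧ Br N K c a b y ∧ Br N K c a b z ∧ z ∈ O ∧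
    z ≠ x ∧ z ≠ y ∧ (∀ v ∈ O, Br N K c a x v → v = x) ∧ ∀ v ∈ O, Br N K c b y v → v = y

/-- Exactly one of the two tokens departs. -/
def One (N : Finset W) (K : Submodule ℝ W) (s : W) (Y : Finset W) (x y : W) : Prop :=
  (x ∉ Y ∧ x ∉ nb N K s ∧ (y ∈ Y ∨ y ∈ nb N K s)) ∨
    (y ∉ Y ∧ y ∉ nb N K s ∧ (x ∈ Y ∨ x ∈ nb N K s))

theorem pl_inj {N : Finset W} {K : Submodule ℝ W} {s : W} {X Y : Finset W} {ι : W → W}
    (hF : Fam N K s X Y ι) {x y a : W} (hx : x ∈ X) (hy : y ∈ X) (h1 : Pl N K s Y ι x a)
    (h2 : Pl N K s Y ι y a) : x = y := by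
  rcases h1 with ⟨h1, h3⟩ | ⟨h1, h3⟩ <;> rcases h2 with ⟨h2, h4⟩ | ⟨h2, h4⟩
  · rw [← h3, h4]
  · exfalso
    obtain ⟨_, hn, ⟨b, hab, hb⟩, hf⟩ := hF.1 y h2
    have h5 : x = ι y := by rw [← h3, h4]
    have h6 := hf x hx (by rw [h5]; exact br_end (mem_nb.1 hab.1).2.1 (mem_nb.1 hab.1).2.2.1.symm)
    exact hn (h6 ▸ h1)
  · exfalso
    obtain ⟨_, hn, ⟨b, hab, hb⟩, hf⟩ := hF.1 x h1
    have h5 : y = ι x := by rw [← h4, h3]
    have h6 := hf y hy (by rw [h5]; exact br_end (mem_nb.1 hab.1).2.1 (mem_nb.1 hab.1).2.2.1.symm)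
    exact hn (h6 ▸ h2)
  · exact hF.2 x h1 y h2 (by rw [← h3, h4])

end Pool.Agent.LPG
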