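import Pool.Agent.LPG.Good
import Pool.Agent.LPZ.ZDefs

/-!
# T-steps with flags, coloops and averaging: definitions (MP_c76e9d_co; helper24)

Paper proof: /team-store/LPT_helper24.md (sections as there).  Centre `s`, `X` the other occupied
vertices, `(Y, ι)` a family (`Fam`) of greatest cardinality: `x ∈ Y` inside a branch goes to the end `ι x` of its
branch.  `ZY`: the elements inside branches which are not assigned (they will depart).  `Occ`: the elements
which occupy a place near `s` (assigned, or a neighbour of `s` which stays), `plc` their places.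
`Rs`: the vertices which are occupied in EVERY assignment of the same set `Y` (section 2).
`NB`: the pair `p`, `q` (flag `β`) is bad for the assignment.  `R0`: type R0 badness at the centre `s`: `x`, `y`
and `s` lie in one 2-face, `s` is the only element of `O` on its side of `x`, `y`, and there is an element of `O` on
the other side.  `nbadT`: the flags after the step: as `nbad`, but a flag is dropped if a terminal departs.
-/

set_option autoImplicit false

namespace Pool.Agent.LPG

variable {W : Type*} [AddCommGroup W] [Module ℝ W]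

open Classical in
/-- The elements of `X` inside branches which are not assigned. -/
noncomputable def ZY (N : Finset W) (K : Submodule ℝ W) (s : W) (X Y : Finset W) : Finset W :=
  X.filter (fun z => z ∉ Y ∧ InBr N K s z)

/-- The elements which get a place near `s`. -/
def Occ (N : Finset W) (K : Submodule ℝ W) (s : W) (X Y : Finset W) (x : W) : Prop :=
  x ∈ Y ∨ (x ∈ X ∧ x ∈ nb N K s)

open Classical in
/-- The place of an occupant. -/
noncomputable def plc (Y : Finset W) (ι : W → W) (x : W) : W := if x ∈ Y then ι x else x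

/-- `Y` has greatest cardinality among the families. -/
def FamMax (N : Finset W) (K : Submodule ℝ W) (s : W) (X Y : Finset W) : Prop :=
  ∀ (Y' : Finset W) (ι' : W → W), Fam N K s X Y' ι' → Y'.card ≤ Y.card

/-- The saturated vertices: occupied in every assignment of `Y`. -/
def Rs (N : Finset W) (K : Submodule ℝ W) (s : W) (X Y : Finset W) : Set W :=
  {b | b ∈ nb N K s ∧ (b ∈ X ∨ ∀ ι' : W → W, Fam N K s X Y ι' → ∃ y ∈ Y, ι' y = b)}

/-- The pair `p`, `q` with flag `β` is bad for the assignment `(Y, ι)`. -/
def NB (N : Finset W) (K : Submodule ℝ W) (s : W) (X Y : Finset W) (ι : W → W) (β : Prop)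
    (p q : W) : Prop :=
  Occ N K s X Y p ∧ Occ N K s X Y q ∧ VAdj N K s (plc Y ι p) (plc Y ι q) ∧
    (β ∨ ∃ z ∈ ZY N K s X Y, Br N K s (plc Y ι p) (plc Y ι q) z)

/-- The pair `x`, `y` is made bad in place by the centre `s`. -/
def R0 (N : Finset W) (K : Submodule ℝ W) (O : Finset W) (s x y : W) : Prop :=
  ∃ a b, VAdj N K s a b ∧ Br N K s a b x ∧ Br N K s a b y ∧
    (∀ v ∈ O, Br N K s a x v → v = x) ∧ (∀ v ∈ O, Br N K s b y v → v = y) ∧
    ∃ z ∈ O, z ≠ x ∧ z ≠ y ∧ Br N K s a b z

/-- The new flags after a step; an old flag is dropped if one of the terminals departs. -/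
def nbadT (N : Finset W) (K : Submodule ℝ W) {m : ℕ} (s t : Fin (m + 1) → W)
    (bad : Fin (m + 1) → Prop) (e : W → W) (Z : Finset W) (i : Fin m) : Prop :=
  VAdj N K (s 0) (e (s i.succ)) (e (t i.succ)) ∧
    ((bad i.succ ∧ s i.succ ∉ Z ∧ t i.succ ∉ Z) ∨
      ∃ z ∈ Z, Br N K (s 0) (e (s i.succ)) (e (t i.succ)) z)

theorem mem_ZY {N : Finset W} {K : Submodule ℝ W} {s : W} {X Y : Finset W} {z : W} :
    z ∈ ZY N K s X Y ↔ z ∈ X ∧ z ∉ Y ∧ InBr N K s z := by
  classical
  unfold ZY
  rw [Finset.mem_filter]

theorem plc_mem {Y : Finset W} {ι : W → W} {x : W} (h : x ∈ Y) : plc Y ι x = ι x := by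
  unfold plc
  rw [if_pos h]

theorem plc_nmem {Y : Finset W} {ι : W → W} {x : W} (h : x ∉ Y) : plc Y ι x = x := by
  unfold plc
  rw [if_neg h]

end Pool.Agent.LPG
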