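import Pool.Agent.LPG.Step2
import Pool.Agent.LPT.TDefs24

/-!
# Lifting a linkage with flags, dropped flags for departed terminals (module TLink; helper24)

The proofs of `Step2` with `nbadT` instead of `nbad`: if a branch contains both terminals of a bad pair and is used by this
pair, then no terminal is in `Z` (claim `hZc`), so an old flag is still there.
-/

set_option autoImplicit false

set_option linter.all false

namespace Pool.Agent.LPG

variable {W : Type*} [AddCommGroup W] [Module ℝ W] [DecidableEq W] {N : Finset W}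
  {K : Submodule ℝ W}

private theorem s2_brsymm {s a b v : W} (h : Br N K s a b v) : Br N K s b a v := by
  obtain ⟨h1, h2, α, β, hα, hβ, h3⟩ := h
  exact ⟨h1, h2, β, α, hβ, hα, by rw [add_comm]; exact h3⟩

private theorem s2_vsymm {s a b : W} (h : VAdj N K s a b) : VAdj N K s b a := adj_symm h

private theorem s2_inj {s : W} {X Vc : Finset W} {S : W → Finset W} {e : W → W} {Z : Finset W}
    (hG : GoodR N K s X Vc S e Z) {x y : W} (hx : x ∈ X) (hy : y ∈ X) (h : e x = e y) :
    x = y := by
  by_contra hne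
  exact Finset.disjoint_left.1 (hG.disj x hx y hy hne) (hG.mem x hx).2.1
    (h ▸ (hG.mem y hy).2.1)

private theorem s2_self {s : W} {X Vc : Finset W} {S : W → Finset W} {e : W → W} {Z : Finset W}
    (hG : GoodR N K s X Vc S e Z) {x v : W} (hx : x ∈ X) (hv : v ∈ S x) (hvX : v ∈ X) :
    v = x := by
  by_contra hne
  exact Finset.disjoint_left.1 (hG.disj v hvX x hx hne) (hG.mem v hvX).1 hv

private theorem s2_b {s : W} {X Vc : Finset W} {S : W → Finset W} {e : W → W} {Z : Finset W}
    (hG : GoodR N K s X Vc S e Z) {c : W} (hc : c ∈ X) (hn : c ∈ nb N K s) :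
    c ∈ X.image e ∪ Vc := by
  rw [Finset.mem_union, Finset.mem_image]
  rcases (hG.sub c hc c (hG.mem c hc).1).2.2 hn with h | h
  · exact Or.inl ⟨c, hc, h.symm⟩
  · exact Or.inr h.2

private theorem s2_c1 {s : W} {X Vc : Finset W} {S : W → Finset W} {e : W → W} {Z : Finset W}
    (hG : GoodR N K s X Vc S e Z) {z a b : W} (hz : z ∈ Z) (hab : VAdj N K s a b)
    (hbr : Br N K s a b z) : a ∈ X.image e ∪ Vc := by
  rcases hG.occ z hz a b hab hbr with h | ⟨x, hx, _, h⟩
  · exact s2_b hG h hab.1
  · rw [Finset.mem_union, Finset.mem_image]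
    exact Or.inl ⟨x, hx, h⟩

private theorem s2_sX {O : Finset W} {m : ℕ} {s t : Fin (m + 1) → W} {bad : Fin (m + 1) → Prop}
    (hst : State N K O s t bad) (i : Fin m) : s i.succ ∈ O.erase (s 0) :=
  Finset.mem_erase.2 ⟨fun h => Fin.succ_ne_zero i (hst.sinj _ _ h), hst.smem _⟩

private theorem s2_tX {O : Finset W} {m : ℕ} {s t : Fin (m + 1) → W} {bad : Fin (m + 1) → Prop}
    (hst : State N K O s t bad) (i : Fin (m + 1)) : t i ∈ O.erase (s 0) :=
  Finset.mem_erase.2 ⟨fun h => hst.st _ _ h.symm, hst.tmem _⟩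

private theorem s2_Vc {O : Finset W} {m : ℕ} {s t : Fin (m + 1) → W} {bad : Fin (m + 1) → Prop}
    (hst : State N K O s t bad) {Vc : Finset W} (hV1 : bad 0 → Vc = {t 0})
    (hV0 : ¬ bad 0 → Vc = ∅) {x : W} (hx : x ∈ Vc) : bad 0 ∧ x = t 0 ∧ x ∈ nb N K (s 0) := by
  by_cases h : bad 0
  · rw [hV1 h, Finset.mem_singleton] at hx
    exact ⟨h, hx, by rw [hx]; exact mem_nb.2 (hst.badj 0 h)⟩
  · rw [hV0 h] at hx
    exact absurd hx (Finset.notMem_empty _)

theorem state_stepV {O : Finset W} {m : ℕ} {s t : Fin (m + 1) → W} {bad : Fin (m + 1) → Prop}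
    (hst : State N K O s t bad) {Vc : Finset W} (hV1 : bad 0 → Vc = {t 0})
    (hV0 : ¬ bad 0 → Vc = ∅) {S : W → Finset W} {e : W → W} {Z : Finset W}
    (hG : GoodR N K (s 0) (O.erase (s 0)) Vc S e Z) :
    State (nb N K (s 0)) (ad K (s 0)) ((O.erase (s 0)).image e ∪ Vc)
      (fun i : Fin m => e (s i.succ)) (fun i : Fin m => e (t i.succ)) (nbadT N K s t bad e Z) := by
  have hs0 : s 0 ∈ N := hst.sub (hst.smem 0)
  refine ⟨poly_nb hst.poly hs0, ?_, ?_, ?_, ?_, ?_, ?_, ?_⟩
  · intro y hy
    rw [Finset.mem_union, Finset.mem_image] at hy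
    rcases hy with ⟨x, hx, rfl⟩ | hy
    · exact (hG.mem x hx).2.2.1
    · exact (s2_Vc hst hV1 hV0 hy).2.2
  · intro i
    exact Finset.mem_union_left _ (Finset.mem_image_of_mem _ (s2_sX hst i))
  · intro i
    exact Finset.mem_union_left _ (Finset.mem_image_of_mem _ (s2_tX hst i.succ))
  · intro i j h
    exact Fin.succ_injective _ (hst.sinj _ _ (s2_inj hG (s2_sX hst i) (s2_sX hst j) h))
  · intro i j h
    exact Fin.succ_injective _ (hst.tinj _ _ (s2_inj hG (s2_tX hst i.succ) (s2_tX hst j.succ) h))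
  · intro i j h
    exact hst.st _ _ (s2_inj hG (s2_sX hst i) (s2_tX hst j.succ) h)
  · intro i h
    exact h.1

/-- Steps inside a finite set which do not use a forbidden edge. -/
private def s2R (N : Finset W) (K : Submodule ℝ W) (T : Finset W) (P : Prop) (x y : W)
    (p q : W) : Prop :=
  Adj N K p q ∧ p ∈ T ∧ q ∈ T ∧ ¬ (P ∧ ((p = x ∧ q = y) ∨ (p = y ∧ q = x)))

private theorem s2R_symm {T : Finset W} {P : Prop} {x y p q : W} (h : s2R N K T P x y p q) :
    s2R N K T P x y q p := by
  refine ⟨adj_symm h.1, h.2.2.1, h.2.1, fun hc => h.2.2.2 ⟨hc.1, ?_⟩⟩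
  rcases hc.2 with h1 | h1
  · exact Or.inr ⟨h1.2, h1.1⟩
  · exact Or.inl ⟨h1.2, h1.1⟩

private theorem s2W_symm {T : Finset W} {P : Prop} {x y p q : W}
    (h : Relation.ReflTransGen (s2R N K T P x y) p q) :
    Relation.ReflTransGen (s2R N K T P x y) q p := by
  induction h with
  | refl => exact Relation.ReflTransGen.refl
  | tail _ h2 ih => exact Relation.ReflTransGen.head (s2R_symm h2) ih

/-- walks in a set which misses one end of the forbidden edge -/
private theorem s2W_of {U T : Finset W} {P : Prop} {x y p q : W} (hUT : U ⊆ T)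
    (hxy : x ∉ U ∨ y ∉ U)
    (h : Relation.ReflTransGen (fun p q => Adj N K p q ∧ p ∈ U ∧ q ∈ U) p q) :
    Relation.ReflTransGen (s2R N K T P x y) p q := by
  refine Relation.ReflTransGen.mono ?_ _ _ h
  rintro a b ⟨h1, h2, h3⟩
  refine ⟨h1, hUT h2, hUT h3, ?_⟩
  rintro ⟨_, ⟨rfl, rfl⟩ | ⟨rfl, rfl⟩⟩
  · rcases hxy with h4 | h4
    · exact h4 h2
    · exact h4 h3
  · rcases hxy with h4 | h4
    · exact h4 h3
    · exact h4 h2

/-- usable edges of the vertex figure -/
private def s2U (N : Finset W) (K : Submodule ℝ W) (s : W) (S' : Finset W) (Q : Prop) (x y : W)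
    (a b : W) : Prop :=
  a ∈ S' ∧ b ∈ S' ∧ VAdj N K s a b ∧ ¬ (Q ∧ ((a = x ∧ b = y) ∨ (a = y ∧ b = x)))

open Classical in
/-- the union of the branches of the usable edges -/
private noncomputable def s2B (N : Finset W) (K : Submodule ℝ W) (s : W) (S' : Finset W)
    (Q : Prop) (x y : W) : Finset W :=
  N.filter (fun v => ∃ a b, s2U N K s S' Q x y a b ∧ Br N K s a b v)

private theorem s2_memB {s : W} {S' : Finset W} {Q : Prop} {x y v : W} :
    v ∈ s2B N K s S' Q x y ↔ ∃ a b, s2U N K s S' Q x y a b ∧ Br N K s a b v := by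
  classical
  unfold s2B
  rw [Finset.mem_filter]
  constructor
  · exact fun h => h.2
  · rintro ⟨a, b, hab, hv⟩
    exact ⟨hv.1, a, b, hab, hv⟩

theorem link2_stepV {O : Finset W} {m : ℕ} {s t : Fin (m + 1) → W} {bad : Fin (m + 1) → Prop}
    (hst : State N K O s t bad) {Vc : Finset W} (hV1 : bad 0 → Vc = {t 0})
    (hV0 : ¬ bad 0 → Vc = ∅) {S : W → Finset W} {e : W → W} {Z : Finset W}
    (hG : GoodR N K (s 0) (O.erase (s 0)) Vc S e Z)
    (hL : Linked2 (nb N K (s 0)) (ad K (s 0)) ((O.erase (s 0)).image e ∪ Vc)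
      (fun i : Fin m => e (s i.succ)) (fun i : Fin m => e (t i.succ))
      (nbadT N K s t bad e Z)) :
    Linked2 N K O s t bad := by
  classical
  have hs0 : s 0 ∈ N := hst.sub (hst.smem 0)
  have hP := hst.poly
  obtain ⟨S', hS'd, hS'⟩ := hL
  simp only at hS'
  set X := O.erase (s 0) with hX
  set O' := X.image e ∪ Vc with hO'
  have hsX : ∀ i : Fin m, s i.succ ∈ X := s2_sX hst
  have htX : ∀ i : Fin (m + 1), t i ∈ X := s2_tX hst
  have heO : ∀ x ∈ X, e x ∈ O' := fun x hx =>
    Finset.mem_union_left _ (Finset.mem_image_of_mem _ hx)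
  have hne : ∀ x ∈ X, ∀ v ∈ S x, v ≠ s 0 := fun x hx v hv => (hG.sub x hx v hv).2.1
  -- no element of `Z` on a usable branch
  have hZc : ∀ (i : Fin m) (z a b : W), z ∈ Z →
      s2U N K (s 0) (S' i) (nbadT N K s t bad e Z i) (e (s i.succ)) (e (t i.succ)) a b →
      Br N K (s 0) a b z → False := by
    intro i z a b hz hab hbr
    obtain ⟨ha, hb, hv, hno⟩ := hab
    have ha' := (hS' i).2.2.1 a ha (s2_c1 hG hz hv hbr)
    have hb' := (hS' i).2.2.1 b hb (s2_c1 hG hz (s2_vsymm hv) (s2_brsymm hbr))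
    have hab' : a ≠ b := hv.2.2.1
    rcases ha' with rfl | rfl <;> rcases hb' with h | h
    · exact hab' h.symm
    · subst h
      exact hno ⟨⟨hv, Or.inr ⟨z, hz, hbr⟩⟩, Or.inl ⟨rfl, rfl⟩⟩
    · subst h
      exact hno ⟨⟨s2_vsymm hv, Or.inr ⟨z, hz, s2_brsymm hbr⟩⟩, Or.inr ⟨rfl, rfl⟩⟩
    · exact hab' h.symm
  -- (1)
  have h1 : ∀ (i : Fin m) (x v a b : W), x ∈ X → v ∈ S x →
      s2U N K (s 0) (S' i) (nbadT N K s t bad e Z i) (e (s i.succ)) (e (t i.succ)) a b →
      Br N K (s 0) a b v → x = s i.succ ∨ x = t i.succ := by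
    intro i x v a b hx hv hab hbr
    have hcase : e x ∈ S' i → x = s i.succ ∨ x = t i.succ := by
      intro h
      rcases (hS' i).2.2.1 _ h (heO x hx) with h2 | h2
      · exact Or.inl (s2_inj hG hx (hsX i) h2)
      · exact Or.inr (s2_inj hG hx (htX i.succ) h2)
    rcases hG.br x hx v hv a b hab.2.2.1 hbr with h2 | h2 | ⟨rfl, h2 | h2⟩
    · exact hcase (h2 ▸ hab.1)
    · exact hcase (h2 ▸ hab.2.1)
    · exact (hZc i v a b h2 hab hbr).elim
    · exfalso
      have h3 := s2_Vc hst hV1 hV0 h2
      have h4 : v ∈ S' i := by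
        rcases br_nb hP hs0 hab.2.2.1 h3.2.2 hbr with h5 | h5
        · exact h5 ▸ hab.1
        · exact h5 ▸ hab.2.1
      rcases (hS' i).2.2.1 v h4 (Finset.mem_union_right _ h2) with h5 | h5
      · exact (hG.mem _ (hsX i)).2.2.2 (h5 ▸ h2)
      · exact (hG.mem _ (htX i.succ)).2.2.2 (h5 ▸ h2)
  set B : Fin m → Finset W := fun i => s2B N K (s 0) (S' i) (nbadT N K s t bad e Z i)
    (e (s i.succ)) (e (t i.succ)) with hB
  have hBs : ∀ i, s 0 ∉ B i := by
    intro i hi
    obtain ⟨a, b, _, hbr⟩ := s2_memB.1 hi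
    exact hbr.2.1 rfl
  have h1B : ∀ (i : Fin m) (x v : W), x ∈ X → v ∈ S x → v ∈ B i →
      x = s i.succ ∨ x = t i.succ := by
    intro i x v hx hv hvB
    obtain ⟨a, b, hab, hbr⟩ := s2_memB.1 hvB
    exact h1 i x v a b hx hv hab hbr
  have hBB : ∀ i j, i ≠ j → Disjoint (B i) (B j) := by
    intro i j hij
    rw [Finset.disjoint_left]
    intro v hvX hvY
    obtain ⟨a, b, hab, hv⟩ := s2_memB.1 hvX
    obtain ⟨a', b', hab', hv'⟩ := s2_memB.1 hvY
    have hXY := Finset.disjoint_left.1 (hS'd i j hij)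
    by_cases hn : v ∈ nb N K (s 0)
    · rcases br_nb hP hs0 hab.2.2.1 hn hv with h1 | h1 <;>
        rcases br_nb hP hs0 hab'.2.2.1 hn hv' with h2 | h2
      · exact hXY hab.1 (by rw [← h1, h2]; exact hab'.1)
      · exact hXY hab.1 (by rw [← h1, h2]; exact hab'.2.1)
      · exact hXY hab.2.1 (by rw [← h1, h2]; exact hab'.1)
      · exact hXY hab.2.1 (by rw [← h1, h2]; exact hab'.2.1)
    · rcases br_uniq hP hs0 hab.2.2.1 hab'.2.2.1 hv hv' hn with h1 | h1
      · exact hXY hab.1 (by rw [← h1.1]; exact hab'.1)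
      · exact hXY hab.2.1 (by rw [← h1.1]; exact hab'.1)
  set T : Fin (m + 1) → Finset W := Fin.cons (insert (s 0) (S (t 0)))
    (fun i => S (s i.succ) ∪ S (t i.succ) ∪ B i) with hT
  have hT0 : T 0 = insert (s 0) (S (t 0)) := rfl
  have hTs : ∀ i : Fin m, T i.succ = S (s i.succ) ∪ S (t i.succ) ∪ B i := fun i => rfl
  have hd0 : ∀ i : Fin m, Disjoint (T 0) (T i.succ) := by
    intro i
    rw [Finset.disjoint_left, hT0, hTs]
    intro v hv hv'
    rw [Finset.mem_insert] at hv
    rw [Finset.mem_union, Finset.mem_union] at hv'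
    have n1 : t 0 ≠ s i.succ := fun h => hst.st _ _ h.symm
    have n2 : t 0 ≠ t i.succ := fun h => Fin.succ_ne_zero i (hst.tinj _ _ h).symm
    rcases hv with rfl | hv
    · rcases hv' with (hv' | hv') | hv'
      · exact hne _ (hsX i) _ hv' rfl
      · exact hne _ (htX i.succ) _ hv' rfl
      · exact hBs i hv'
    · rcases hv' with (hv' | hv') | hv'
      · exact Finset.disjoint_left.1 (hG.disj _ (htX 0) _ (hsX i) n1) hv hv'
      · exact Finset.disjoint_left.1 (hG.disj _ (htX 0) _ (htX i.succ) n2) hv hv'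
      · rcases h1B i _ v (htX 0) hv hv' with h | h
        · exact n1 h
        · exact n2 h
  have hd1 : ∀ i j : Fin m, i ≠ j → Disjoint (T i.succ) (T j.succ) := by
    intro i j hij
    rw [Finset.disjoint_left, hTs, hTs]
    intro v hv hv'
    rw [Finset.mem_union, Finset.mem_union] at hv hv'
    have hij' : i.succ ≠ j.succ := fun h => hij (Fin.succ_injective _ h)
    have nss : s i.succ ≠ s j.succ := fun h => hij' (hst.sinj _ _ h)
    have ntt : t i.succ ≠ t j.succ := fun h => hij' (hst.tinj _ _ h)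
    have nst : s i.succ ≠ t j.succ := hst.st _ _
    have nts : t i.succ ≠ s j.succ := fun h => hst.st _ _ h.symm
    rcases hv with (hv | hv) | hv <;> rcases hv' with (hv' | hv') | hv'
    · exact Finset.disjoint_left.1 (hG.disj _ (hsX i) _ (hsX j) nss) hv hv'
    · exact Finset.disjoint_left.1 (hG.disj _ (hsX i) _ (htX j.succ) nst) hv hv'
    · rcases h1B j _ v (hsX i) hv hv' with h | h
      · exact nss h
      · exact nst h
    · exact Finset.disjoint_left.1 (hG.disj _ (htX i.succ) _ (hsX j) nts) hv hv'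
    · exact Finset.disjoint_left.1 (hG.disj _ (htX i.succ) _ (htX j.succ) ntt) hv hv'
    · rcases h1B j _ v (htX i.succ) hv hv' with h | h
      · exact nts h
      · exact ntt h
    · rcases h1B i _ v (hsX j) hv' hv with h | h
      · exact nss h.symm
      · exact nts h.symm
    · rcases h1B i _ v (htX j.succ) hv' hv with h | h
      · exact nst h.symm
      · exact ntt h.symm
    · exact Finset.disjoint_left.1 (hBB i j hij) hv hv'
  refine ⟨T, ?_, ?_⟩
  · intro i j
    refine Fin.cases ?_ (fun i' => ?_) i <;> refine Fin.cases ?_ (fun j' => ?_) j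
    · intro h3
      exact absurd rfl h3
    · intro _
      exact hd0 j'
    · intro _
      exact (hd0 i').symm
    · intro h3
      exact hd1 i' j' (fun h4 => h3 (by rw [h4]))
  · intro i
    refine Fin.cases ?_ (fun i' => ?_) i
    · have hsub : S (t 0) ⊆ T 0 := by
        rw [hT0]
        exact Finset.subset_insert _ _
      have hs0T : s 0 ∈ T 0 := by
        rw [hT0]
        exact Finset.mem_insert_self _ _
      have hsn : s 0 ∉ S (t 0) := fun h => hne _ (htX 0) _ h rfl
      have hmem := hG.mem _ (htX 0)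
      refine ⟨hs0T, hsub hmem.1, fun v hv hvO => ?_, fun v hv => ?_⟩
      · rw [hT0, Finset.mem_insert] at hv
        rcases hv with rfl | hv
        · exact Or.inl rfl
        · exact Or.inr (s2_self hG (htX 0) hv (Finset.mem_erase.2 ⟨hne _ (htX 0) _ hv, hvO⟩))
      · rw [hT0, Finset.mem_insert] at hv
        rcases hv with rfl | hv
        · exact Relation.ReflTransGen.refl
        · have p1 : Relation.ReflTransGen (s2R N K (T 0) (bad 0) (s 0) (t 0)) (t 0) v :=
            s2W_of hsub (Or.inl hsn) (hG.conn _ (htX 0) v hv)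
          have p2 : Relation.ReflTransGen (s2R N K (T 0) (bad 0) (s 0) (t 0)) (e (t 0)) (t 0) :=
            s2W_symm (s2W_of hsub (Or.inl hsn) (hG.conn _ (htX 0) _ hmem.2.1))
          have p3 : s2R N K (T 0) (bad 0) (s 0) (t 0) (s 0) (e (t 0)) := by
            refine ⟨mem_nb.1 hmem.2.2.1, hs0T, hsub hmem.2.1, ?_⟩
            rintro ⟨hb, ⟨_, h⟩ | ⟨h, _⟩⟩
            · apply hmem.2.2.2
              rw [hV1 hb, h, Finset.mem_singleton]
            · exact hst.st 0 0 h
          exact Relation.ReflTransGen.head p3 (p2.trans p1)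
    · have hsubl : S (s i'.succ) ⊆ T i'.succ := by
        rw [hTs]
        exact Finset.subset_union_left.trans Finset.subset_union_left
      have hsubr : S (t i'.succ) ⊆ T i'.succ := by
        rw [hTs]
        exact Finset.subset_union_right.trans Finset.subset_union_left
      have hsubB : B i' ⊆ T i'.succ := by
        rw [hTs]
        exact Finset.subset_union_right
      have hms := hG.mem _ (hsX i')
      have hmt := hG.mem _ (htX i'.succ)
      have htn : t i'.succ ∉ S (s i'.succ) := fun h =>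
        hst.st _ _ (s2_self hG (hsX i') h (htX i'.succ)).symm
      have hsn : s i'.succ ∉ S (t i'.succ) := fun h =>
        hst.st _ _ (s2_self hG (htX i'.succ) h (hsX i'))
      refine ⟨hsubl hms.1, hsubr hmt.1, fun v hv hvO => ?_, fun v hv => ?_⟩
      · rw [hTs, Finset.mem_union, Finset.mem_union] at hv
        rcases hv with (hv | hv) | hv
        · exact Or.inl (s2_self hG (hsX i') hv (Finset.mem_erase.2 ⟨hne _ (hsX i') _ hv, hvO⟩))
        · exact Or.inr (s2_self hG (htX i'.succ) hv
            (Finset.mem_erase.2 ⟨hne _ (htX i'.succ) _ hv, hvO⟩))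
        · have hvs : v ≠ s 0 := fun h => hBs i' (h ▸ hv)
          have hvX : v ∈ X := Finset.mem_erase.2 ⟨hvs, hvO⟩
          exact h1B i' v v hvX (hG.mem v hvX).1 hv
      · -- branches
        have hbranch : ∀ a b p q : W,
            s2U N K (s 0) (S' i') (nbadT N K s t bad e Z i') (e (s i'.succ)) (e (t i'.succ)) a b →
            Br N K (s 0) a b p → Br N K (s 0) a b q →
            Relation.ReflTransGen (s2R N K (T i'.succ) (bad i'.succ) (s i'.succ) (t i'.succ))
              p q := by
          intro a b p q hab hp hq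
          refine Relation.ReflTransGen.mono ?_ _ _ (br_conn hP hs0 hab.2.2.1 hp hq)
          rintro u w ⟨huw, hu, hw⟩
          refine ⟨huw, hsubB (s2_memB.2 ⟨a, b, hab, hu⟩), hsubB (s2_memB.2 ⟨a, b, hab, hw⟩), ?_⟩
          rintro ⟨hbad, hcase⟩
          have hboth : Br N K (s 0) a b (s i'.succ) ∧ Br N K (s 0) a b (t i'.succ) := by
            rcases hcase with ⟨rfl, rfl⟩ | ⟨rfl, rfl⟩
            · exact ⟨hu, hw⟩
            · exact ⟨hw, hu⟩
          have hes : e (s i'.succ) = a ∨ e (s i'.succ) = b := by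
            rcases hG.br _ (hsX i') _ hms.1 a b hab.2.2.1 hboth.1 with h | h | ⟨_, h | h⟩
            · exact Or.inl h
            · exact Or.inr h
            · exact (hZc i' _ a b h hab hboth.1).elim
            · exact (hst.st _ _ (s2_Vc hst hV1 hV0 h).2.1).elim
          have het : e (t i'.succ) = a ∨ e (t i'.succ) = b := by
            rcases hG.br _ (htX i'.succ) _ hmt.1 a b hab.2.2.1 hboth.2 with h | h | ⟨_, h | h⟩
            · exact Or.inl h
            · exact Or.inr h
            · exact (hZc i' _ a b h hab hboth.2).elim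
            · exact (Fin.succ_ne_zero i' (hst.tinj _ _ (s2_Vc hst hV1 hV0 h).2.1)).elim
          have hest : e (s i'.succ) ≠ e (t i'.succ) := fun h =>
            hst.st _ _ (s2_inj hG (hsX i') (htX i'.succ) h)
          have hsZ : s i'.succ ∉ Z := fun h => hZc i' _ a b h hab hboth.1
          have htZ : t i'.succ ∉ Z := fun h => hZc i' _ a b h hab hboth.2
          obtain ⟨_, _, hv, hno⟩ := hab
          rcases hes with h | h <;> rcases het with h' | h'
          · exact hest (h.trans h'.symm)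
          · exact hno ⟨⟨by rw [h, h']; exact hv, Or.inl ⟨hbad, hsZ, htZ⟩⟩, Or.inl ⟨h.symm, h'.symm⟩⟩
          · exact hno ⟨⟨by rw [h, h']; exact s2_vsymm hv, Or.inl ⟨hbad, hsZ, htZ⟩⟩,
              Or.inr ⟨h'.symm, h.symm⟩⟩
          · exact hest (h.trans h'.symm)
        have p1 : Relation.ReflTransGen
            (s2R N K (T i'.succ) (bad i'.succ) (s i'.succ) (t i'.succ)) (s i'.succ)
            (e (s i'.succ)) := s2W_of hsubl (Or.inr htn) (hG.conn _ (hsX i') _ hms.2.1)
        have p2 : ∀ w ∈ S' i', Relation.ReflTransGen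
            (s2R N K (T i'.succ) (bad i'.succ) (s i'.succ) (t i'.succ)) (e (s i'.succ)) w := by
          intro w hw
          have hwalk := (hS' i').2.2.2 w hw
          clear hw
          induction hwalk with
          | refl => exact Relation.ReflTransGen.refl
          | tail _ h2 ih =>
            exact ih.trans (hbranch _ _ _ _ ⟨h2.2.1, h2.2.2.1, h2.1, h2.2.2.2⟩ (br_left h2.1)
              (br_right h2.1))
        rw [hTs, Finset.mem_union, Finset.mem_union] at hv
        rcases hv with (hv | hv) | hv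
        · exact s2W_of hsubl (Or.inr htn) (hG.conn _ (hsX i') v hv)
        · have p3 := p2 _ (hS' i').2.1
          have p4 : Relation.ReflTransGen
              (s2R N K (T i'.succ) (bad i'.succ) (s i'.succ) (t i'.succ)) (e (t i'.succ))
              (t i'.succ) :=
            s2W_symm (s2W_of hsubr (Or.inl hsn) (hG.conn _ (htX i'.succ) _ hmt.2.1))
          have p5 : Relation.ReflTransGen
              (s2R N K (T i'.succ) (bad i'.succ) (s i'.succ) (t i'.succ)) (t i'.succ) v :=
            s2W_of hsubr (Or.inl hsn) (hG.conn _ (htX i'.succ) v hv)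
          exact ((p1.trans p3).trans p4).trans p5
        · obtain ⟨a, b, hab, hbr⟩ := s2_memB.1 hv
          exact (p1.trans (p2 a hab.1)).trans (hbranch a b a v hab (br_left hab.2.2.1) hbr)


theorem state_stepT {O : Finset W} {m : ℕ} {s t : Fin (m + 1) → W} {bad : Fin (m + 1) → Prop}
    (hst : State N K O s t bad) (hb : ¬ bad 0) {S : W → Finset W} {e : W → W} {Z : Finset W}
    (hG : GoodR N K (s 0) (O.erase (s 0)) ∅ S e Z) :
    State (nb N K (s 0)) (ad K (s 0)) ((O.erase (s 0)).image e)
      (fun i : Fin m => e (s i.succ)) (fun i : Fin m => e (t i.succ)) (nbadT N K s t bad e Z) := by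
  have h := state_stepV hst (fun h => absurd h hb) (fun _ => rfl) hG
  rwa [Finset.union_empty] at h

theorem link2_stepT {O : Finset W} {m : ℕ} {s t : Fin (m + 1) → W} {bad : Fin (m + 1) → Prop}
    (hst : State N K O s t bad) (hb : ¬ bad 0) {S : W → Finset W} {e : W → W} {Z : Finset W}
    (hG : GoodR N K (s 0) (O.erase (s 0)) ∅ S e Z)
    (hL : Linked2 (nb N K (s 0)) (ad K (s 0)) ((O.erase (s 0)).image e)
      (fun i : Fin m => e (s i.succ)) (fun i : Fin m => e (t i.succ))
      (nbadT N K s t bad e Z)) :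
    Linked2 N K O s t bad := by
  refine link2_stepV hst (fun h => absurd h hb) (fun _ => rfl) hG ?_
  rwa [Finset.union_empty]

end Pool.Agent.LPG
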