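import Pool.Agent.LPG.MR
import Pool.Agent.LPG.RkLin

/-!
# Path systems with least nullity (module TMin)

`mr_min`: let `k` disjoint paths from `A` with ends in `T` exist (cardinality version of the theorem of
Menger).  Let `r` be a rank function which only sees `T`, and `r_δ F = min |F ∩ T| (r F + δ)` (a rank
function, `isRk_elong`).  Take the least `δ` for which a system with `r_δ (ends) = k` exists.  If `δ = 0`, the
ends are independent.  If `δ > 0`, there is a separator `C, F` with `|C| + r F + δ ≤ k`, and the end of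
every path which meets `C` is a coloop of the set of all ends.
-/

set_option autoImplicit false

namespace Pool.Agent.LPT

open Pool.Agent.LPG

theorem rk_union_le {V : Type*} [DecidableEq V] {r : Finset V → ℕ} (hr : IsRk r)
    (A D : Finset V) : r (A ∪ D) ≤ r A + D.card := by
  have h1 := hr.submod A D
  have h2 := card_le hr D
  omega

theorem null_mono {V : Type*} [DecidableEq V] {r : Finset V → ℕ} (hr : IsRk r) {T : Finset V}
    (hT : ∀ F, r F = r (F ∩ T)) {A B : Finset V} (hAB : A ⊆ B) :
    (A ∩ T).card + r B ≤ (B ∩ T).card + r A := by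
  have hsub : A ∩ T ⊆ B ∩ T := Finset.inter_subset_inter_right hAB
  have h1 := rk_union_le hr (A ∩ T) ((B ∩ T) \ (A ∩ T))
  rw [Finset.union_sdiff_of_subset hsub, ← hT A, ← hT B] at h1
  have h2 := Finset.card_sdiff_add_card_eq_card hsub
  omega

theorem isRk_elong {V : Type*} [DecidableEq V] {r : Finset V → ℕ} (hr : IsRk r) (T : Finset V)
    (hT : ∀ F, r F = r (F ∩ T)) (δ : ℕ) :
    IsRk (fun F => min (F ∩ T).card (r F + δ)) where
  empty := by simp
  mono A B h := by
    have h1 := hr.mono A B h
    have h2 : (A ∩ T).card ≤ (B ∩ T).card :=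
      Finset.card_le_card (Finset.inter_subset_inter_right h)
    omega
  insert_le v A := by
    have h1 := hr.insert_le v A
    have h2 : (insert v A ∩ T).card ≤ (A ∩ T).card + 1 := by
      refine (Finset.card_le_card (t := insert v (A ∩ T)) ?_).trans (Finset.card_insert_le _ _)
      intro w hw
      rw [Finset.mem_inter, Finset.mem_insert] at hw
      rw [Finset.mem_insert, Finset.mem_inter]
      tauto
    omega
  submod A B := by
    have h1 := hr.submod A B
    have h3 : ((A ∪ B) ∩ T).card + ((A ∩ B) ∩ T).card = (A ∩ T).card + (B ∩ T).card := by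
      have h1 : (A ∪ B) ∩ T = (A ∩ T) ∪ (B ∩ T) := Finset.union_inter_distrib_right _ _ _
      have h2 : (A ∩ B) ∩ T = (A ∩ T) ∩ (B ∩ T) := Finset.inter_inter_distrib_right _ _ _
      rw [h1, h2]
      exact Finset.card_union_add_card_inter (A ∩ T) (B ∩ T)
    have h4 := null_mono hr hT (A := A ∩ B) (B := A) Finset.inter_subset_left
    have h5 := null_mono hr hT (A := A ∩ B) (B := B) Finset.inter_subset_right
    omega

theorem mr_min {V : Type*} [DecidableEq V] {r : Finset V → ℕ} (hr : IsRk r) (T : Finset V)
    (hT : ∀ F, r F = r (F ∩ T)) (E : Finset (V × V)) (A : Finset V) (k : ℕ)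
    (h : ∀ C F : Finset V, (∀ a ∈ A, ∀ v, Av E C a v → v ∈ F) → k ≤ C.card + (F ∩ T).card) :
    ∃ (S : Fin k → Finset V) (a e : Fin k → V), PathSys E A S a e ∧
      (Finset.univ.image e ∩ T).card = k ∧
      ((∀ j, r ((Finset.univ.erase j).image e) < r (Finset.univ.image e)) ∨
        ∃ C F : Finset V, (∀ a ∈ A, ∀ v, Av E C a v → v ∈ F) ∧ C.card + r F < k ∧
          ∀ j, (∃ c ∈ C, c ∈ S j) →
            r ((Finset.univ.erase j).image e) < r (Finset.univ.image e)) := by
  classical
  set P : ℕ → Prop := fun δ => ∃ (S : Fin k → Finset V) (a e : Fin k → V), PathSys E A S a e ∧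
      min (Finset.univ.image e ∩ T).card (r (Finset.univ.image e) + δ) = k with hP
  have hPk : ∃ δ, P δ := by
    refine ⟨k, ?_⟩
    refine mr (fun F => min (F ∩ T).card (r F + k)) (isRk_elong hr T hT k) E A k ?_
    intro C F hsep
    have h1 := h C F hsep
    omega
  have hcard : ∀ e : Fin k → V, (Finset.univ.image e).card ≤ k := by
    intro e
    refine Finset.card_image_le.trans ?_
    rw [Finset.card_univ, Fintype.card_fin]
  obtain ⟨S, a, e, hS, he⟩ := Nat.find_spec hPk
  have hmin := fun m (hm : m < Nat.find hPk) => Nat.find_min hPk hm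
  set δ := Nat.find hPk with hδ
  have hc1 : (Finset.univ.image e ∩ T).card ≤ k :=
    (Finset.card_le_card Finset.inter_subset_left).trans (hcard e)
  refine ⟨S, a, e, hS, by omega, ?_⟩
  rcases Nat.eq_zero_or_pos δ with h0 | h0
  · left
    intro j
    have h1 := card_le hr ((Finset.univ.erase j).image e)
    have h2 : ((Finset.univ.erase j).image e).card ≤ (Finset.univ.erase j).card :=
      Finset.card_image_le
    rw [Finset.card_erase_of_mem (Finset.mem_univ _), Finset.card_univ, Fintype.card_fin] at h2
    have h3 := j.pos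
    omega
  · right
    have hno := hmin (δ - 1) (by omega)
    have hex : ∃ C F : Finset V, (∀ a ∈ A, ∀ v, Av E C a v → v ∈ F) ∧
        C.card + min (F ∩ T).card (r F + (δ - 1)) < k := by
      by_contra hcon
      push Not at hcon
      apply hno
      exact mr (fun F => min (F ∩ T).card (r F + (δ - 1))) (isRk_elong hr T hT (δ - 1)) E A k
        (fun C F hsep => hcon C F hsep)
    obtain ⟨C, F, hsep, hlt⟩ := hex
    have h1 := h C F hsep
    refine ⟨C, F, hsep, by omega, ?_⟩
    rintro j ⟨c, hcC, hcj⟩
    set J : Finset (Fin k) := Finset.univ.filter (fun i => ∃ c ∈ C, c ∈ S i) with hJ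
    have hjJ : j ∈ J := Finset.mem_filter.2 ⟨Finset.mem_univ _, c, hcC, hcj⟩
    have hJC : J.card ≤ C.card := by
      have hpick : ∀ i ∈ J, ∃ c ∈ C, c ∈ S i := fun i hi => (Finset.mem_filter.1 hi).2
      choose g hgC hgS using hpick
      refine Finset.card_le_card_of_injOn (fun i => if hi : i ∈ J then g i hi else c) ?_ ?_
      · intro i hi
        have hi' : i ∈ J := hi
        simp only [hi', dif_pos]
        exact hgC i hi'
      · intro i hi i' hi' hii
        have hi1 : i ∈ J := hi
        have hi2 : i' ∈ J := hi'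
        simp only [hi1, hi2, dif_pos] at hii
        by_contra hne
        have h2 := hgS i hi1
        rw [hii] at h2
        exact Finset.disjoint_left.1 (hS.1 i i' hne) h2 (hgS i' hi2)
    have hF : ∀ i, i ∉ J → e i ∈ F := by
      intro i hi
      have hi' : ∀ v ∈ S i, v ∉ C := by
        intro v hv hvC
        exact hi (Finset.mem_filter.2 ⟨Finset.mem_univ _, v, hvC, hv⟩)
      obtain ⟨h2, h3, h4, h5⟩ := hS.2 i
      refine hsep (a i) h2 (e i) ⟨hi' _ h3, ?_⟩
      exact Relation.ReflTransGen.mono (fun p q g => ⟨g.1, hi' _ g.2.2.1⟩) _ _ (h5 (e i) h4).1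
    have h2 : (Finset.univ.erase j).image e ⊆ F ∪ (J.erase j).image e := by
      intro v hv
      obtain ⟨i, hi, rfl⟩ := Finset.mem_image.1 hv
      rw [Finset.mem_union]
      by_cases hiJ : i ∈ J
      · exact Or.inr (Finset.mem_image_of_mem _ (Finset.mem_erase.2 ⟨(Finset.mem_erase.1 hi).1, hiJ⟩))
      · exact Or.inl (hF i hiJ)
    have h3 := hr.mono _ _ h2
    have h4 := rk_union_le hr F ((J.erase j).image e)
    have h5 : ((J.erase j).image e).card ≤ (J.erase j).card := Finset.card_image_le
    rw [Finset.card_erase_of_mem hjJ] at h5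
    have h6 : 0 < J.card := Finset.card_pos.2 ⟨j, hjJ⟩
    omega

end Pool.Agent.LPT
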